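import Mathlib

/-! Wreath products by symmetric groups. -/

namespace MP0775d3.Sg

/-- The wreath product of `A` by the symmetric group of `Ω`: functions `Ω → A` and permutations of `Ω`. -/
abbrev Wr (A Ω : Type) [Group A] : Type :=
  (Ω → A) ⋊[(mulAutArrow : Equiv.Perm Ω →* MulAut (Ω → A))] Equiv.Perm Ω

/-- `T` is a quotient by a normal subgroup of order at most `a` of a subgroup of index at most `a` of the wreath product
`A ≀ S_m` of a group `A` of order at most `a` and a symmetric group. -/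
def IsWrType (a : ℝ) (T : Type) [Group T] : Prop :=
  ∃ (A : Type) (_ : Group A) (m : ℕ) (U : Subgroup (Wr A (Fin m))) (φ : U →* T),
    Finite A ∧ (Nat.card A : ℝ) ≤ a ∧ (U.index : ℝ) ≤ a ∧ Function.Surjective φ ∧
      (Nat.card φ.ker : ℝ) ≤ a

theorem IsWrType.mono {a a' : ℝ} (h : a ≤ a') {T : Type} [Group T] (hT : IsWrType a T) :
    IsWrType a' T := by
  obtain ⟨A, _, m, U, φ, h1, h2, h3, h4, h5⟩ := hT
  exact ⟨A, _, m, U, φ, h1, h2.trans h, h3.trans h, h4, h5.trans h⟩

end MP0775d3.Sg
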