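import Mathlib

/-! Factorials. -/

set_option linter.unusedSectionVars false
set_option linter.unusedVariables false

namespace MP0775d3.Sg

/-- PROOF. Stirling-free: `m ! ≥ (m / 3) ^ m`. -/
theorem pow_le_factorial (r : ℕ) (ε : ℝ) (hε : 0 < ε) : ∃ C : ℝ, 1 ≤ C ∧ ∀ m : ℕ,
    (r : ℝ) ^ m ≤ C * (m.factorial : ℝ) ^ ε := by
  have hr : (0 : ℝ) ≤ r := Nat.cast_nonneg r
  have hK : (0 : ℝ) ≤ (r : ℝ) ^ (1 / ε) := Real.rpow_nonneg hr _
  refine ⟨Real.exp ((r : ℝ) ^ (1 / ε)) ^ ε, ?_, ?_⟩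
  · exact Real.one_le_rpow (Real.one_le_exp hK) hε.le
  · intro m
    have h1 := Real.pow_div_factorial_le_exp _ hK m
    have hm : (0 : ℝ) < (m.factorial : ℝ) := by exact_mod_cast m.factorial_pos
    rw [div_le_iff₀ hm] at h1
    have h2 := Real.rpow_le_rpow (pow_nonneg hK m) h1 hε.le
    rw [Real.mul_rpow (Real.exp_pos _).le hm.le, ← Real.rpow_natCast, ← Real.rpow_mul hr,
      ← Real.rpow_mul hr] at h2
    have h3 : 1 / ε * (m : ℝ) * ε = m := by
      field_simp
    rw [h3, Real.rpow_natCast] at h2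
    exact h2

/-- PROOF. For `c = m / r + 1`: `(c !) ^ r ≤ (r * c)!` and `r * c ≤ m + r`, `(m + r)! ≤ m ! * (m + r) ^ r`, so
`c ! ≤ (m !) ^ (1 / r) * (m + r)`, and `m + r ≤ C * (m !) ^ (1 / r)`. -/
theorem factorial_div_le (r : ℕ) (hr : 0 < r) : ∃ C : ℝ, 1 ≤ C ∧ ∀ m : ℕ,
    ((m / r + 1).factorial : ℝ) ≤ C * (m.factorial : ℝ) ^ (2 / (r : ℝ)) := by
  obtain ⟨C, hC, hC'⟩ := pow_le_factorial 3 1 one_pos
  have hr' : (0 : ℝ) < r := by exact_mod_cast hr
  have hrf : (1 : ℝ) ≤ (r.factorial : ℝ) := by exact_mod_cast r.factorial_pos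
  have h3r : (1 : ℝ) ≤ 3 ^ r := one_le_pow₀ (by norm_num)
  have hD : (1 : ℝ) ≤ (r.factorial : ℝ) * 3 ^ r * C := by
    have h1 : (1 : ℝ) ≤ (r.factorial : ℝ) * 3 ^ r := one_le_mul_of_one_le_of_one_le hrf h3r
    exact one_le_mul_of_one_le_of_one_le h1 hC
  refine ⟨((r.factorial : ℝ) * 3 ^ r * C) ^ (1 / (r : ℝ)), ?_, ?_⟩
  · exact Real.one_le_rpow hD (by positivity)
  · intro m
    have hm : (0 : ℝ) < (m.factorial : ℝ) := by exact_mod_cast m.factorial_pos
    have h1 : (m / r + 1).factorial ^ r ≤ (m + r).factorial := by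
      have h2 := Nat.prod_factorial_dvd_factorial_sum (Finset.range r) (fun _ => m / r + 1)
      simp only [Finset.prod_const, Finset.sum_const, Finset.card_range, smul_eq_mul] at h2
      refine (Nat.le_of_dvd (Nat.factorial_pos _) h2).trans (Nat.factorial_le ?_)
      rw [Nat.mul_add, Nat.mul_one]
      exact Nat.add_le_add_right (Nat.mul_div_le m r) r
    have h2 : (m + r).factorial ≤ m.factorial * (m + r) ^ r := by
      rw [← Nat.factorial_mul_ascFactorial]
      exact Nat.mul_le_mul_left _ (Nat.ascFactorial_le_pow_add m r)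
    have h3 : ((m + r : ℕ) : ℝ) ^ r ≤ (r.factorial : ℝ) * 3 ^ r * C * (m.factorial : ℝ) := by
      have h4 := Real.pow_div_factorial_le_exp ((m + r : ℕ) : ℝ) (Nat.cast_nonneg _) r
      rw [div_le_iff₀ (by positivity)] at h4
      have h5 : Real.exp ((m + r : ℕ) : ℝ) ≤ 3 ^ (m + r) := by
        have h6 : Real.exp ((m + r : ℕ) : ℝ) = Real.exp 1 ^ (m + r) := by
          rw [← Real.exp_nat_mul, mul_one]
        rw [h6]
        exact pow_le_pow_left₀ (Real.exp_pos 1).le Real.exp_one_lt_three.le _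
      have h7 := hC' m
      rw [Real.rpow_one] at h7
      calc ((m + r : ℕ) : ℝ) ^ r ≤ Real.exp ((m + r : ℕ) : ℝ) * (r.factorial : ℝ) := h4
        _ ≤ 3 ^ (m + r) * (r.factorial : ℝ) := by gcongr
        _ = (r.factorial : ℝ) * 3 ^ r * 3 ^ m := by rw [pow_add]; ring
        _ ≤ (r.factorial : ℝ) * 3 ^ r * (C * (m.factorial : ℝ)) := by
            refine mul_le_mul_of_nonneg_left ?_ (by positivity)
            exact_mod_cast h7
        _ = (r.factorial : ℝ) * 3 ^ r * C * (m.factorial : ℝ) := by ring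
    have h4 : ((m / r + 1).factorial : ℝ) ^ r ≤
        (r.factorial : ℝ) * 3 ^ r * C * (m.factorial : ℝ) ^ 2 := by
      have h5 : ((m / r + 1).factorial : ℝ) ^ r ≤
          (m.factorial : ℝ) * ((m + r : ℕ) : ℝ) ^ r := by
        exact_mod_cast h1.trans h2
      refine h5.trans ?_
      calc (m.factorial : ℝ) * ((m + r : ℕ) : ℝ) ^ r ≤
            (m.factorial : ℝ) * ((r.factorial : ℝ) * 3 ^ r * C * (m.factorial : ℝ)) :=
            mul_le_mul_of_nonneg_left h3 hm.le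
        _ = (r.factorial : ℝ) * 3 ^ r * C * (m.factorial : ℝ) ^ 2 := by ring
    have h5 := Real.rpow_le_rpow (by positivity) h4 (show (0 : ℝ) ≤ 1 / (r : ℝ) by positivity)
    rw [Real.mul_rpow (by linarith) (by positivity)] at h5
    have h6 : (((m / r + 1).factorial : ℝ) ^ r) ^ (1 / (r : ℝ)) = (m / r + 1).factorial := by
      rw [← Real.rpow_natCast, ← Real.rpow_mul (by positivity)]
      have h8 : (r : ℝ) * (1 / (r : ℝ)) = 1 := by
        field_simp
      rw [h8, Real.rpow_one]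
    have h7 : ((m.factorial : ℝ) ^ 2) ^ (1 / (r : ℝ)) = (m.factorial : ℝ) ^ (2 / (r : ℝ)) := by
      rw [← Real.rpow_natCast, ← Real.rpow_mul (by positivity)]
      have h8 : ((2 : ℕ) : ℝ) * (1 / (r : ℝ)) = 2 / (r : ℝ) := by
        push_cast
        ring
      rw [h8]
    rw [h6, h7] at h5
    exact h5

end MP0775d3.Sg
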