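import Pool.Agent.Lib.MP_0775d3_lc.SG.WrTypes
import Pool.Agent.Lib.MP_0775d3_lc.SG.Fact

/-! Sizes for wreath products. -/

set_option linter.unusedSectionVars false
set_option linter.unusedVariables false

namespace MP0775d3.Sg

/-- The sizes. PROOF. `U`, `m`, `A` as in `IsWrType`, `n = card T`, `a = n ^ κ`; `card U = card φ.ker * card T ≤ a n`,
`card A ^ m * m ! = U.index * card U ≤ a ^ 2 * n`. With `1 / r` small against `d`, then `κ` small against `d`, `g`, `r`: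
`card X ≤ a ^ (r * r + 1) * n ≤ n ^ (1 + g)`, `q ≤ a ^ (r * r + r) * C (a ^ 2 n) ^ ε ≤ C n ^ d`,
`b ≤ card A * (card A ^ m) ^ (1 / r) * C (m !) ^ (2 / r) ≤ C n ^ d`. -/
theorem wr_sizes (d : ℝ) (hd : 0 < d) : ∃ r : ℕ, 0 < r ∧ ∀ g : ℝ, 0 < g → ∃ κ : ℝ, 0 < κ ∧
    ∃ C : ℝ, 1 ≤ C ∧ ∀ (T : Type) [Group T] [Finite T], IsWrType ((Nat.card T : ℝ) ^ κ) T →
      ∃ N q b : ℕ, 1 ≤ b ∧ TypeData T N q b (r * r + 2 * r) ∧ (N : ℝ) ≤ (Nat.card T : ℝ) ^ (1 + g) ∧
        (q : ℝ) ≤ C * (Nat.card T : ℝ) ^ d ∧ (b : ℝ) ≤ C * (Nat.card T : ℝ) ^ d := by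
  obtain ⟨r, hr1⟩ := exists_nat_ge (12 / d + 1)
  have hd12 : 0 < 12 / d := by positivity
  have hr0 : (0 : ℝ) < r := by linarith
  have hr : 0 < r := by exact_mod_cast hr0
  have hrd : 6 / (r : ℝ) ≤ d / 2 := by
    rw [div_le_iff₀ hr0]
    have : 12 / d ≤ r := by linarith
    rw [div_le_iff₀ hd] at this
    linarith
  refine ⟨r, hr, fun g hg => ?_⟩
  obtain ⟨C₁, hC₁, h1⟩ := pow_le_factorial r (d / 4) (by positivity)
  obtain ⟨C₂, hC₂, h2⟩ := factorial_div_le r hr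
  obtain ⟨κ, hκ0, hκ1, hκ2, hκ3, hκ4⟩ : ∃ κ : ℝ, 0 < κ ∧ κ ≤ 1 / 2 ∧ κ * (r * r + 1) ≤ g ∧
      κ * (r * r + r) ≤ d / 2 ∧ κ ≤ d / 2 := by
    have hr1' : (1 : ℝ) ≤ r := by exact_mod_cast hr
    refine ⟨min (1 / 2) (min (g / (r * r + 1)) (d / 2 / (r * r + r))), ?_, min_le_left _ _, ?_, ?_, ?_⟩
    · positivity
    · rw [← le_div_iff₀ (by positivity)]
      exact (min_le_right _ _).trans (min_le_left _ _)
    · rw [← le_div_iff₀ (by positivity)]
      exact (min_le_right _ _).trans (min_le_right _ _)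
    · refine ((min_le_right _ _).trans (min_le_right _ _)).trans ?_
      exact div_le_self (by positivity) (by nlinarith)
  refine ⟨κ, hκ0, C₁ + C₂, by linarith, ?_⟩
  intro T _ _ hT
  obtain ⟨A, _, m, U, φ, hA, hAa, hUa, hφ, hka⟩ := hT
  have hn1 : (1 : ℝ) ≤ Nat.card T := by exact_mod_cast Nat.card_pos
  obtain ⟨n, hn⟩ : ∃ n : ℝ, n = Nat.card T := ⟨_, rfl⟩
  rw [← hn] at hAa hUa hka hn1 ⊢
  have hn0 : 0 < n := by linarith
  obtain ⟨a, ha⟩ : ∃ a : ℝ, a = n ^ κ := ⟨_, rfl⟩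
  rw [← ha] at hAa hUa hka
  have ha1 : 1 ≤ a := ha ▸ Real.one_le_rpow hn1 hκ0.le
  have ha0 : 0 < a := by linarith
  haveI : Finite (Wr A (Fin m)) := Finite.of_equiv _ SemidirectProduct.equivProd.symm
  have hApos : 0 < Nat.card A := Nat.card_pos
  have hA1 : (1 : ℝ) ≤ Nat.card A := by exact_mod_cast hApos
  have hcU : (Nat.card U : ℝ) ≤ a * n := by
    have e : Nat.card U = Nat.card φ.ker * Nat.card T := by
      rw [← Subgroup.card_mul_index φ.ker, Subgroup.index_ker, MonoidHom.range_eq_top.2 hφ, Subgroup.card_top]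
    rw [e]
    push_cast
    rw [← hn]
    gcongr
  have hcW : (Nat.card A : ℝ) ^ m * (m.factorial : ℝ) ≤ a ^ 2 * n := by
    have e : Nat.card A ^ m * m.factorial = Nat.card U * U.index := by
      rw [Subgroup.card_mul_index, SemidirectProduct.card, Nat.card_fun, Nat.card_perm, Nat.card_eq_fintype_card (α := Fin m),
        Fintype.card_fin]
    have e' : (Nat.card A : ℝ) ^ m * (m.factorial : ℝ) = (Nat.card U : ℝ) * U.index := by exact_mod_cast e
    rw [e']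
    calc (Nat.card U : ℝ) * U.index ≤ a * n * a := by gcongr
      _ = _ := by ring
  have hfac1 : (1 : ℝ) ≤ m.factorial := by exact_mod_cast Nat.succ_le_of_lt (Nat.factorial_pos m)
  have hAm1 : (1 : ℝ) ≤ (Nat.card A : ℝ) ^ m := one_le_pow₀ hA1
  have hf : (m.factorial : ℝ) ≤ n ^ (2 : ℝ) := by
    calc (m.factorial : ℝ) ≤ (Nat.card A : ℝ) ^ m * (m.factorial : ℝ) := le_mul_of_one_le_left (by positivity) hAm1
      _ ≤ a ^ 2 * n := hcW
      _ = n ^ (κ * 2 + 1) := by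
          rw [Real.rpow_add hn0, Real.rpow_one, Real.rpow_mul hn0.le, ← ha]
          norm_num
      _ ≤ n ^ (2 : ℝ) := Real.rpow_le_rpow_of_exponent_le hn1 (by linarith)
  have hAm : (Nat.card A : ℝ) ^ m ≤ n ^ (2 : ℝ) := by
    calc (Nat.card A : ℝ) ^ m ≤ (Nat.card A : ℝ) ^ m * (m.factorial : ℝ) := le_mul_of_one_le_right (by positivity) hfac1
      _ ≤ a ^ 2 * n := hcW
      _ = n ^ (κ * 2 + 1) := by
          rw [Real.rpow_add hn0, Real.rpow_one, Real.rpow_mul hn0.le, ← ha]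
          norm_num
      _ ≤ n ^ (2 : ℝ) := Real.rpow_le_rpow_of_exponent_le hn1 (by linarith)
  refine ⟨_, _, _, ?_, wr_types m r hr U φ hφ, ?_, ?_, ?_⟩
  · exact Nat.succ_le_of_lt (Nat.mul_pos (Nat.pow_pos hApos) (Nat.factorial_pos _))
  · push_cast
    calc (U.index : ℝ) ^ (r * r) * (Nat.card U : ℝ) ≤ a ^ (r * r) * (a * n) := by gcongr
      _ = n ^ (κ * (r * r + 1) + 1) := by
          rw [Real.rpow_add hn0, Real.rpow_one, Real.rpow_mul hn0.le, ← ha,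
            show ((r : ℝ) * r + 1) = ((r * r + 1 : ℕ) : ℝ) by push_cast; ring, Real.rpow_natCast]
          ring
      _ ≤ n ^ (1 + g) := Real.rpow_le_rpow_of_exponent_le hn1 (by linarith)
  · push_cast
    calc (U.index : ℝ) ^ (r * r + r) * (r : ℝ) ^ m ≤ a ^ (r * r + r) * (C₁ * (m.factorial : ℝ) ^ (d / 4)) := by
          gcongr
          exact h1 m
      _ ≤ a ^ (r * r + r) * (C₁ * (n ^ (2 : ℝ)) ^ (d / 4)) := by gcongr
      _ = C₁ * n ^ (κ * (r * r + r) + d / 2) := by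
          rw [Real.rpow_add hn0, Real.rpow_mul hn0.le, ← ha, ← Real.rpow_mul hn0.le,
            show ((r : ℝ) * r + r) = ((r * r + r : ℕ) : ℝ) by push_cast; ring, Real.rpow_natCast,
            show (2 : ℝ) * (d / 4) = d / 2 by ring]
          ring
      _ ≤ (C₁ + C₂) * n ^ d := by
          gcongr
          · linarith
          · linarith
  · push_cast
    have k1 : (Nat.card A : ℝ) ^ (m / r) ≤ n ^ (2 / (r : ℝ)) := by
      calc (Nat.card A : ℝ) ^ (m / r) = (Nat.card A : ℝ) ^ (((m / r : ℕ)) : ℝ) := (Real.rpow_natCast _ _).symm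
        _ ≤ (Nat.card A : ℝ) ^ ((m : ℝ) * (1 / r)) := by
            refine Real.rpow_le_rpow_of_exponent_le hA1 ?_
            rw [mul_one_div]
            exact Nat.cast_div_le
        _ = ((Nat.card A : ℝ) ^ m) ^ (1 / (r : ℝ)) := by
            rw [Real.rpow_mul (by positivity), Real.rpow_natCast]
        _ ≤ (n ^ (2 : ℝ)) ^ (1 / (r : ℝ)) := by gcongr
        _ = _ := by rw [← Real.rpow_mul hn0.le]; ring_nf
    have k2 : ((m / r + 1).factorial : ℝ) ≤ C₂ * n ^ (4 / (r : ℝ)) := by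
      calc ((m / r + 1).factorial : ℝ) ≤ C₂ * (m.factorial : ℝ) ^ (2 / (r : ℝ)) := h2 m
        _ ≤ C₂ * (n ^ (2 : ℝ)) ^ (2 / (r : ℝ)) := by gcongr
        _ = _ := by rw [← Real.rpow_mul hn0.le]; ring_nf
    calc (Nat.card A : ℝ) ^ (m / r + 1) * ((m / r + 1).factorial : ℝ) =
          (Nat.card A : ℝ) ^ (m / r) * Nat.card A * ((m / r + 1).factorial : ℝ) := by rw [pow_succ]
      _ ≤ n ^ (2 / (r : ℝ)) * a * (C₂ * n ^ (4 / (r : ℝ))) := by gcongr
      _ = C₂ * n ^ (κ + 6 / (r : ℝ)) := by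
          rw [ha, show κ + 6 / (r : ℝ) = 2 / (r : ℝ) + κ + 4 / (r : ℝ) by ring, Real.rpow_add hn0, Real.rpow_add hn0]
          ring
      _ ≤ (C₁ + C₂) * n ^ d := by
          gcongr
          · linarith
          · linarith

end MP0775d3.Sg
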