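import Pool.Agent.Lib.MP_0775d3_lc.SG.Gd
import Pool.Agent.Lib.MP_0775d3_lc.SG.WrSizes
import Pool.Agent.Lib.MP_0775d3_lc.Cf.Gd

/-! Groups of wreath type. -/

set_option linter.unusedSectionVars false
set_option linter.unusedVariables false

namespace MP0775d3.Sg

open Matrix MP0775d3.Sl2 MP0775d3.Cf

/-- PROOF. `wr_sizes (d / 2)` gives `r`, then `κ`, `C` for `g = e`; `t = r * r + 2 * r + 1`; `TypeData.gd`, and
`C n ^ (d / 2) ≤ n ^ d` for `n` larger than a constant (`Bx`, `GD` are monotone in the real parameters). -/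
theorem gd_wr (d : ℝ) (hd : 0 < d) : ∃ t : ℕ, 1 ≤ t ∧ ∀ e : ℝ, 0 < e → ∃ h : ℝ, 0 < h ∧
    ∃ n₀ : ℕ, ∀ (T : Type) [Group T] [Finite T], IsWrType ((Nat.card T : ℝ) ^ h) T →
      n₀ ≤ Nat.card T →
      GD ((Nat.card T : ℝ) ^ (1 + e)) ((Nat.card T : ℝ) ^ d) ((Nat.card T : ℝ) ^ d) t T := by
  obtain ⟨r, hr, h⟩ := wr_sizes (d / 2) (by positivity)
  refine ⟨r * r + 2 * r + 1, Nat.le_add_left _ _, fun e he => ?_⟩
  obtain ⟨κ, hκ, C, hC, h⟩ := h e he
  obtain ⟨n₀, hn₀⟩ := exists_nat_ge (C ^ (2 / d))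
  refine ⟨κ, hκ, n₀, fun T _ _ hT hn => ?_⟩
  obtain ⟨N, q, b, hb, hd', hN, hq, hb'⟩ := h T hT
  have hn1 : (1 : ℝ) ≤ Nat.card T := by exact_mod_cast Nat.card_pos
  have hC0 : (0 : ℝ) ≤ C := by linarith
  have key : C * (Nat.card T : ℝ) ^ (d / 2) ≤ (Nat.card T : ℝ) ^ d := by
    have h1 : C ^ (2 / d) ≤ (Nat.card T : ℝ) := hn₀.trans (by exact_mod_cast hn)
    have h2 : (C ^ (2 / d)) ^ (d / 2) ≤ (Nat.card T : ℝ) ^ (d / 2) :=
      Real.rpow_le_rpow (by positivity) h1 (by positivity)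
    rw [← Real.rpow_mul hC0] at h2
    have h3 : 2 / d * (d / 2) = 1 := by field_simp
    rw [h3, Real.rpow_one] at h2
    calc C * (Nat.card T : ℝ) ^ (d / 2)
        ≤ (Nat.card T : ℝ) ^ (d / 2) * (Nat.card T : ℝ) ^ (d / 2) :=
          mul_le_mul_of_nonneg_right h2 (by positivity)
      _ = (Nat.card T : ℝ) ^ d := by
          rw [← Real.rpow_add (by linarith)]
          congr 1
          ring
  exact (TypeData.gd hb hd').mono hN (hb'.trans key) (hq.trans key) le_rfl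
    (Real.one_le_rpow hn1 hd.le)

end MP0775d3.Sg
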