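import Mathlib

/-! Balanced colourings and multinomial coefficients. -/

set_option linter.unusedSectionVars false
set_option linter.unusedVariables false

namespace MP0775d3.Sg

/-- A balanced colouring. PROOF. `a ↦ a % r`. -/
theorem exists_colour (m r : ℕ) (hr : 0 < r) : ∃ c : Fin m → Fin r,
    ∀ i, Nat.card {a // c a = i} ≤ m / r + 1 := by
  refine ⟨fun a => ⟨(a : ℕ) % r, Nat.mod_lt _ hr⟩, fun i => ?_⟩
  have h1 : ∀ a : Fin m, (a : ℕ) / r < m / r + 1 := fun a =>
    Nat.lt_succ_of_le (Nat.div_le_div_right a.isLt.le)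
  have h2 : Nat.card {a : Fin m // (⟨(a : ℕ) % r, Nat.mod_lt _ hr⟩ : Fin r) = i} ≤
      Nat.card (Fin (m / r + 1)) := by
    refine Nat.card_le_card_of_injective (fun a => ⟨(a.1 : ℕ) / r, h1 a.1⟩) ?_
    rintro ⟨a, ha⟩ ⟨b, hb⟩ hab
    apply Subtype.ext
    apply Fin.ext
    have h3 : (a : ℕ) % r = i := congrArg Fin.val ha
    have h4 : (b : ℕ) % r = i := congrArg Fin.val hb
    have h5 : (a : ℕ) / r = (b : ℕ) / r := congrArg Fin.val hab
    calc (a : ℕ) = r * ((a : ℕ) / r) + (a : ℕ) % r := (Nat.div_add_mod _ _).symm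
      _ = r * ((b : ℕ) / r) + (b : ℕ) % r := by rw [h5, h3, h4]
      _ = b := Nat.div_add_mod _ _
  rwa [Nat.card_fin] at h2

/-- PROOF. The multinomial coefficient is at most `r ^ m` (`Finset.sum_pow_of_commute`, or
`Finset.sum_pow_eq_sum_piAntidiag` for `(∑ i : Fin r, 1) ^ m`; `Nat.multinomial_spec`). -/
theorem factorial_le (m r : ℕ) (c : Fin m → Fin r) :
    m.factorial ≤ r ^ m * ∏ i, (Nat.card {a // c a = i}).factorial := by
  classical
  have hcard : ∀ i, Nat.card {a // c a = i} = (Finset.univ.filter fun a => c a = i).card := by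
    intro i
    rw [Nat.card_eq_fintype_card, Fintype.card_subtype]
  have hsum : ∑ i, Nat.card {a // c a = i} = m := by
    have h1 := Finset.card_eq_sum_card_fiberwise (f := c) (s := Finset.univ)
      (t := Finset.univ) (fun a _ => Finset.mem_coe.2 (Finset.mem_univ (c a)))
    rw [Finset.card_univ, Fintype.card_fin] at h1
    rw [Finset.sum_congr rfl fun i _ => hcard i]
    exact h1.symm
  have h2 := Nat.multinomial_spec Finset.univ fun i => Nat.card {a // c a = i}
  rw [hsum] at h2
  have h3 := Finset.sum_pow_eq_sum_piAntidiag (R := ℕ) (Finset.univ : Finset (Fin r)) (fun _ => 1) m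
  rw [Finset.sum_const, Finset.card_univ, Fintype.card_fin, smul_eq_mul, mul_one] at h3
  have h4 : Nat.multinomial Finset.univ (fun i => Nat.card {a // c a = i}) ≤ r ^ m := by
    rw [h3]
    have h5 : (fun i => Nat.card {a // c a = i}) ∈
        Finset.piAntidiag (Finset.univ : Finset (Fin r)) m := by
      rw [Finset.mem_piAntidiag]
      exact ⟨hsum, fun i _ => Finset.mem_univ i⟩
    have h6 := Finset.single_le_sum (f := fun k : Fin r → ℕ =>
      ((Nat.multinomial Finset.univ k : ℕ)) * ∏ i, (1 : ℕ) ^ k i) (fun k _ => Nat.zero_le _) h5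
    simpa using h6
  rw [← h2, mul_comm]
  exact Nat.mul_le_mul_right _ h4

end MP0775d3.Sg
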