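import Pool.Agent.Lib.MP_0775d3_lc.SG.BoxProd

/-! Kronecker products are products of box matrices. -/

set_option linter.unusedSectionVars false
set_option linter.unusedVariables false

namespace MP0775d3.Sg

open Matrix

/-- A matrix that acts on the coordinate `a` only. -/
private theorem bk_box {U : Type} [Fintype U] [DecidableEq U] {b : ℕ} {I : U → Type}
    [∀ u, Fintype (I u)] [∀ u, DecidableEq (I u)] (M : ∀ u, Matrix (I u) (I u) ℂ) (a : U)
    (hb : Fintype.card (I a) ≤ b) : IsBox b (kron fun u => if u = a then M u else 1) := by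
  have key : ∀ l : (∀ u : {u // u ≠ a}, I u),
      Nat.card {x : ∀ u, I u // (fun u : {u // u ≠ a} => x u) = l} ≤ b := by
    intro l
    have h1 : Function.Injective
        fun x : {x : ∀ u, I u // (fun u : {u // u ≠ a} => x u) = l} => x.1 a := by
      rintro ⟨x, hx⟩ ⟨y, hy⟩ hxy
      refine Subtype.ext (funext fun u => ?_)
      by_cases hu : u = a
      · subst hu
        exact hxy
      · exact congrFun (hx.trans hy.symm) ⟨u, hu⟩
    refine (Nat.card_le_card_of_injective _ h1).trans ?_
    rw [Nat.card_eq_fintype_card]
    exact hb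
  refine ⟨∀ u : {u // u ≠ a}, I u, fun x u => x u, fun x u => x u, key, key, fun x x' h => ?_⟩
  funext u
  rw [kron_apply, Finset.prod_ne_zero_iff] at h
  have h1 := h u (Finset.mem_univ _)
  rw [if_neg u.2] at h1
  by_contra hne
  exact h1 (Matrix.one_apply_ne hne)

private theorem bk_same {U : Type} [Fintype U] [DecidableEq U] {b : ℕ} {I : U → Type}
    [∀ u, Fintype (I u)] [∀ u, DecidableEq (I u)] (M : ∀ u, Matrix (I u) (I u) ℂ)
    (hb : ∀ u, Fintype.card (I u) ≤ b) (S : Finset U) :
    BoxProd b S.card (kron fun u => if u ∈ S then M u else 1) := by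
  induction S using Finset.induction_on with
  | empty =>
    rw [Finset.card_empty]
    refine ⟨Equiv.refl _, fun x x' => ?_⟩
    have h1 : (kron fun u => if u ∈ (∅ : Finset U) then M u else 1) =
        kron fun u => (1 : Matrix (I u) (I u) ℂ) := by
      refine congrArg kron (funext fun u => ?_)
      rw [if_neg (Finset.notMem_empty u)]
    rw [h1, kron_one, Matrix.one_apply]
    by_cases h : x = x'
    · rw [if_pos h, if_pos (show (Equiv.refl _) x = x' from h)]
    · rw [if_neg h, if_neg (show ¬ (Equiv.refl _) x = x' from h)]
  | insert a S ha ih =>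
    rw [Finset.card_insert_of_notMem ha]
    refine ⟨∀ u, I u, inferInstance, kron fun u => if u = a then M u else 1,
      kron fun u => if u ∈ S then M u else 1, rfl, bk_box M a (hb a), ih, ?_⟩
    rw [kron_mul]
    refine congrArg kron (funext fun u => ?_)
    by_cases h : u = a
    · subst h
      rw [if_pos (Finset.mem_insert_self u S), if_pos rfl, if_neg ha, Matrix.mul_one]
    · by_cases hS : u ∈ S
      · rw [if_pos (Finset.mem_insert_of_mem hS), if_neg h, if_pos hS, Matrix.one_mul]
      · rw [if_neg (fun h1 => (Finset.mem_insert.1 h1).elim h hS), if_neg h, if_neg hS,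
          Matrix.one_mul]

/-- PROOF. By choice of equivalences `I' u ≃ I u` and `reindex` assume `I' = I`. Then the kron product is the product
over `u` of the matrices that act on the coordinate `u` only (induction over finite subsets of `U` or over lists);
each of them is a box matrix with labels the other coordinates. -/
theorem BoxProd.kron {U : Type} [Fintype U] [DecidableEq U] {b : ℕ} {I I' : U → Type}
    [∀ u, Fintype (I u)] [∀ u, Fintype (I' u)] (M : ∀ u, Matrix (I u) (I' u) ℂ)
    (hc : ∀ u, Fintype.card (I u) = Fintype.card (I' u)) (hb : ∀ u, Fintype.card (I u) ≤ b) :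
    BoxProd b (Fintype.card U) (kron M) := by
  classical
  let e : ∀ u, I u ≃ I' u := fun u => Fintype.equivOfCardEq (hc u)
  have h1 := bk_same (fun u => (M u).submatrix id (e u)) hb Finset.univ
  rw [Finset.card_univ] at h1
  have h2 := h1.reindex (Equiv.refl _) (Equiv.piCongrRight e).symm
  have h3 : Sg.kron M = (Sg.kron fun u => if u ∈ (Finset.univ : Finset U) then
      (M u).submatrix id (e u) else 1).submatrix (Equiv.refl _) (Equiv.piCongrRight e).symm := by
    ext x x'
    rw [Matrix.submatrix_apply, kron_apply, kron_apply]
    refine Finset.prod_congr rfl fun u _ => ?_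
    rw [if_pos (Finset.mem_univ u), Matrix.submatrix_apply]
    have h4 : e u ((Equiv.piCongrRight e).symm x' u) = x' u := (e u).apply_symm_apply (x' u)
    rw [h4]
    rfl
  rw [h3]
  exact h2

end MP0775d3.Sg
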