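import Pool.Agent.Lib.MP_0775d3_lc.SG.Kron

/-! Products of box matrices. -/

set_option linter.unusedSectionVars false
set_option linter.unusedVariables false

namespace MP0775d3.Sg

open Matrix

/-- Up to permutations of the rows and of the columns, `M` is block diagonal with blocks of at most `b` rows and at
most `b` columns. -/
def IsBox {X X' : Type} (b : ℕ) (M : Matrix X X' ℂ) : Prop :=
  ∃ (L : Type) (r : X → L) (c : X' → L), (∀ l, Nat.card {x // r x = l} ≤ b) ∧
    (∀ l, Nat.card {x // c x = l} ≤ b) ∧ ∀ x x', M x x' ≠ 0 → r x = c x'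

open Classical in
/-- `M` is a product of `t` box matrices (and a permutation of the indices); all index sets have the same number of
elements. -/
def BoxProd (b : ℕ) : ℕ → ∀ {X X' : Type} [Fintype X] [Fintype X'], Matrix X X' ℂ → Prop
  | 0, X, X', _, _, M => ∃ e : X ≃ X', ∀ x x', M x x' = if e x = x' then 1 else 0
  | t + 1, X, X', _, _, M => ∃ (Z : Type) (_ : Fintype Z) (A : Matrix X Z ℂ) (B : Matrix Z X' ℂ),
      Fintype.card Z = Fintype.card X ∧ IsBox b A ∧ BoxProd b t B ∧ M = A * B

variable {X X' X'' : Type} [Fintype X] [Fintype X'] [Fintype X'']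

private theorem card_eq_aux (b : ℕ) : ∀ (t : ℕ) (X X' : Type) [Fintype X] [Fintype X']
    (M : Matrix X X' ℂ), BoxProd b t M → Fintype.card X = Fintype.card X' := by
  intro t
  induction t with
  | zero =>
    rintro X X' _ _ M ⟨e, -⟩
    exact Fintype.card_congr e
  | succ t ih =>
    rintro X X' _ _ M ⟨Z, _, A, B, hc, -, hB, -⟩
    exact hc.symm.trans (ih Z X' B hB)

theorem BoxProd.card_eq {b t : ℕ} {M : Matrix X X' ℂ} (h : BoxProd b t M) :
    Fintype.card X = Fintype.card X' := card_eq_aux b t X X' M h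

/-- One box. -/
theorem BoxProd.one {b : ℕ} {M : Matrix X X' ℂ} (h : IsBox b M)
    (hc : Fintype.card X = Fintype.card X') : BoxProd b 1 M := by
  classical
  refine ⟨X', inferInstance, M, Matrix.of fun z z' => if z = z' then 1 else 0, hc.symm, h,
    ⟨Equiv.refl X', fun x x' => ?_⟩, ?_⟩
  · rw [Matrix.of_apply, Equiv.refl_apply]
  · ext x x'
    rw [Matrix.mul_apply, Finset.sum_eq_single x']
    · rw [Matrix.of_apply, if_pos rfl, mul_one]
    · intro y _ hy
      rw [Matrix.of_apply, if_neg hy, mul_zero]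
    · intro hx
      exact absurd (Finset.mem_univ x') hx

theorem BoxProd.small {b : ℕ} {M : Matrix X X' ℂ} (h : Fintype.card X ≤ b)
    (hc : Fintype.card X = Fintype.card X') : BoxProd b 1 M := by
  refine BoxProd.one ⟨Unit, fun _ => (), fun _ => (), fun l => ?_, fun l => ?_,
    fun _ _ _ => rfl⟩ hc
  · refine (Finite.card_subtype_le _).trans ?_
    rw [Nat.card_eq_fintype_card]
    exact h
  · refine (Finite.card_subtype_le _).trans ?_
    rw [Nat.card_eq_fintype_card, ← hc]
    exact h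

private theorem IsBox.submatrix {Z : Type} {b : ℕ} {A : Matrix X Z ℂ} (h : IsBox b A) {V : Type}
    (e : V ≃ X) : IsBox b (A.submatrix e id) := by
  obtain ⟨L, r, c, hr, hc, hM⟩ := h
  refine ⟨L, fun v => r (e v), c, fun l => ?_, hc, fun v z hv => hM _ _ hv⟩
  have h1 : Nat.card {v // r (e v) = l} = Nat.card {x // r x = l} :=
    Nat.card_congr (e.subtypeEquiv fun v => Iff.rfl)
  rw [h1]
  exact hr l

private theorem reindex_aux (b : ℕ) : ∀ (t : ℕ) (X X' : Type) [Fintype X] [Fintype X']
    (M : Matrix X X' ℂ), BoxProd b t M → ∀ (V V' : Type) [Fintype V] [Fintype V'] (e : V ≃ X)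
      (e' : V' ≃ X'), BoxProd b t (M.submatrix e e') := by
  classical
  intro t
  induction t with
  | zero =>
    rintro X X' _ _ M ⟨f, hf⟩ V V' _ _ e e'
    refine ⟨(e.trans f).trans e'.symm, fun v v' => ?_⟩
    rw [Matrix.submatrix_apply, hf]
    by_cases h : f (e v) = e' v'
    · rw [if_pos h, if_pos]
      rw [Equiv.trans_apply, Equiv.trans_apply, h, Equiv.symm_apply_apply]
    · rw [if_neg h, if_neg]
      intro h1
      apply h
      rw [Equiv.trans_apply, Equiv.trans_apply] at h1
      rw [← h1, Equiv.apply_symm_apply]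
  | succ t ih =>
    rintro X X' _ _ M ⟨Z, _, A, B, hc, hA, hB, rfl⟩ V V' _ _ e e'
    refine ⟨Z, inferInstance, A.submatrix e id, B.submatrix (Equiv.refl Z) e',
      hc.trans (Fintype.card_congr e).symm, hA.submatrix e, ih Z X' B hB Z V' (Equiv.refl Z) e', ?_⟩
    ext v v'
    rw [Matrix.submatrix_apply, Matrix.mul_apply, Matrix.mul_apply]
    rfl

theorem BoxProd.reindex {b t : ℕ} {M : Matrix X X' ℂ} (h : BoxProd b t M) {V V' : Type}
    [Fintype V] [Fintype V'] (e : V ≃ X) (e' : V' ≃ X') : BoxProd b t (M.submatrix e e') :=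
  reindex_aux b t X X' M h V V' e e'

private theorem mul_aux (b t' : ℕ) {X' X'' : Type} [Fintype X'] [Fintype X'']
    {N : Matrix X' X'' ℂ} (h' : BoxProd b t' N) : ∀ (t : ℕ) (X : Type) [Fintype X]
    (M : Matrix X X' ℂ), BoxProd b t M → BoxProd b (t + t') (M * N) := by
  classical
  intro t
  induction t with
  | zero =>
    rintro X _ M ⟨e, he⟩
    have h1 : M * N = N.submatrix e (Equiv.refl X'') := by
      ext x x''
      rw [Matrix.mul_apply, Matrix.submatrix_apply, Finset.sum_eq_single (e x)]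
      · rw [he, if_pos rfl, one_mul]
        rfl
      · intro y _ hy
        rw [he, if_neg (fun h => hy h.symm), zero_mul]
      · intro hx
        exact absurd (Finset.mem_univ _) hx
    rw [h1, Nat.zero_add]
    exact h'.reindex e (Equiv.refl X'')
  | succ t ih =>
    rintro X _ M ⟨Z, _, A, B, hc, hA, hB, rfl⟩
    rw [Nat.succ_add]
    exact ⟨Z, inferInstance, A, B * N, hc, hA, ih Z B hB, Matrix.mul_assoc A B N⟩

/-- PROOF. Induction on `t`; for `t = 0` use that `A * permutation` is `A.submatrix id e` (`reindex`). -/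
theorem BoxProd.mul {b t t' : ℕ} {M : Matrix X X' ℂ} {N : Matrix X' X'' ℂ} (h : BoxProd b t M)
    (h' : BoxProd b t' N) : BoxProd b (t + t') (M * N) := mul_aux b t' h' t X M h

private theorem sigma_fib {D : Type} {b : ℕ} {V L : D → Type} [∀ d, Fintype (V d)]
    {r : ∀ d, V d → L d} (hr : ∀ d l, Nat.card {x // r d x = l} ≤ b) (l : Σ d, L d) :
    Nat.card {x : Σ d, V d // (⟨x.1, r x.1 x.2⟩ : Σ d, L d) = l} ≤ b := by
  obtain ⟨d, l⟩ := l
  refine le_trans ?_ (hr d l)
  refine Nat.card_le_card_of_surjective (fun x : {x // r d x = l} =>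
    (⟨⟨d, x.1⟩, by rw [x.2]⟩ : {x : Σ d, V d // (⟨x.1, r x.1 x.2⟩ : Σ d, L d) = ⟨d, l⟩})) ?_
  rintro ⟨⟨d', x⟩, hx⟩
  obtain ⟨h1, h2⟩ := Sigma.mk.inj_iff.1 hx
  subst h1
  exact ⟨⟨x, eq_of_heq h2⟩, rfl⟩

private theorem bd_aux {D : Type} [Fintype D] [DecidableEq D] (b : ℕ) {V' : D → Type}
    [∀ d, Fintype (V' d)] : ∀ (t : ℕ) (V : D → Type) [∀ d, Fintype (V d)]
    (M : ∀ d, Matrix (V d) (V' d) ℂ), (∀ d, BoxProd b t (M d)) →
      BoxProd b t (Matrix.blockDiagonal' M) := by
  classical
  intro t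
  induction t with
  | zero =>
    intro V _ M h
    choose e he using h
    refine ⟨Equiv.sigmaCongrRight e, ?_⟩
    rintro ⟨d, v⟩ ⟨d', v'⟩
    by_cases hd : d = d'
    · subst hd
      rw [Matrix.blockDiagonal'_apply_eq, he]
      by_cases hv : e d v = v'
      · rw [if_pos hv, if_pos]
        rw [← hv]
        rfl
      · rw [if_neg hv, if_neg]
        intro h1
        exact hv (eq_of_heq (Sigma.mk.inj_iff.1 h1).2)
    · rw [Matrix.blockDiagonal'_apply_ne _ _ _ hd, if_neg]
      intro h1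
      exact hd (Sigma.mk.inj_iff.1 h1).1
  | succ t ih =>
    intro V _ M h
    choose Z hZ A B hc hA hB hM using h
    refine ⟨Σ d, Z d, inferInstance, Matrix.blockDiagonal' A, Matrix.blockDiagonal' B, ?_, ?_,
      ih Z B hB, ?_⟩
    · rw [Fintype.card_sigma, Fintype.card_sigma]
      exact Finset.sum_congr rfl fun d _ => hc d
    · choose L r c hr hcc hne using hA
      refine ⟨Σ d, L d, fun x => ⟨x.1, r x.1 x.2⟩, fun x => ⟨x.1, c x.1 x.2⟩,
        sigma_fib hr, sigma_fib hcc, ?_⟩
      rintro ⟨d, v⟩ ⟨d', z⟩ hx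
      by_cases hd : d = d'
      · subst hd
        rw [Matrix.blockDiagonal'_apply_eq] at hx
        exact congrArg (Sigma.mk d) (hne d v z hx)
      · rw [Matrix.blockDiagonal'_apply_ne _ _ _ hd] at hx
        exact absurd rfl hx
    · rw [← Matrix.blockDiagonal'_mul]
      congr 1
      funext d
      exact hM d

/-- PROOF. Induction on `t`, `Matrix.blockDiagonal'_mul`; the labels are pairs. -/
theorem BoxProd.blockDiagonal' {D : Type} [Fintype D] [DecidableEq D] {b t : ℕ} {V V' : D → Type}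
    [∀ d, Fintype (V d)] [∀ d, Fintype (V' d)] {M : ∀ d, Matrix (V d) (V' d) ℂ}
    (h : ∀ d, BoxProd b t (M d)) : BoxProd b t (Matrix.blockDiagonal' M) := bd_aux b t V M h

end MP0775d3.Sg
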