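import Pool.Agent.Lib.MP_0775d3_lc.SG.Dc

/-! The Fourier transform separates the left and the right action. -/

set_option linter.unusedSectionVars false
set_option linter.unusedVariables false

namespace MP0775d3.Sg

open Matrix

variable {ι : Type} [Fintype ι] [DecidableEq ι] {Y : ι → Type} [∀ i, Group (Y i)]

/-- The index with prescribed first components. -/
private def mkIdx (C : DC Y) (F : C.FF) (l : ∀ i j, (F i j).Λ) (p : ∀ i, C.P i) (q : ∀ j, C.Q j)
    (w : (∀ i j, (F i j).I (l i j)) × (∀ j i, (F i j).I (l i j))) : ∀ u, C.Idx F l u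
  | .inl i => (p i, w.1 i)
  | .inr j => (q j, w.2 j)

private theorem mkIdx_inj (C : DC Y) (F : C.FF) (l : ∀ i j, (F i j).Λ) (p : ∀ i, C.P i)
    (q : ∀ j, C.Q j) : Function.Injective (mkIdx C F l p q) := by
  intro w w' h
  refine Prod.ext (funext fun i => ?_) (funext fun j => ?_)
  · exact congrArg Prod.snd (congrFun h (.inl i))
  · exact congrArg Prod.snd (congrFun h (.inr j))

private theorem four_W_left (C : DC Y) (F : C.FF) (y : ∀ u, YY Y u) (k : C.J F) (x' : C.X) :
    (C.four F * C.W y) k x' =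
      C.four F k (C.act (fun i => y (.inl i)) (fun i => y (.inr i)) x') := by
  rw [Matrix.mul_apply, Finset.sum_eq_single (C.act (fun i => y (.inl i)) (fun i => y (.inr i)) x')]
  · rw [DC.W, Matrix.of_apply, if_pos rfl, mul_one]
  · intro x _ hx
    rw [DC.W, Matrix.of_apply, if_neg hx, mul_zero]
  · intro h
    exact absurd (Finset.mem_univ _) h

private theorem four_W_right (C : DC Y) (F : C.FF) (M : ∀ l : (∀ i j, (F i j).Λ),
    Matrix (∀ u, C.Idx F l u) (∀ u, C.Idx F l u) ℂ) (l : ∀ i j, (F i j).Λ)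
    (g : ∀ u, C.Idx F l u) (x' : C.X) :
    (Matrix.blockDiagonal' M * C.four F) ⟨l, g⟩ x' =
      ∑ w : (∀ i j, (F i j).I (l i j)) × (∀ j i, (F i j).I (l i j)),
        M l g (mkIdx C F l x'.1 x'.2.1 w) *
          ∏ i, ∏ j, (F i j).ρ (l i j) (x'.2.2 i j) (w.1 i j) (w.2 j i) := by
  rw [Matrix.mul_apply, Fintype.sum_sigma, Finset.sum_eq_single l]
  · symm
    refine Fintype.sum_of_injective (mkIdx C F l x'.1 x'.2.1) (mkIdx_inj C F l _ _) _ _ ?_ ?_
    · intro g' hg'
      rw [DC.four, Matrix.of_apply, if_neg, mul_zero]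
      rintro ⟨h1, h2⟩
      refine hg' ⟨(fun i => (g' (.inl i)).2, fun j => (g' (.inr j)).2), ?_⟩
      funext u
      rcases u with i | j
      · exact Prod.ext (h1 i).symm rfl
      · exact Prod.ext (h2 j).symm rfl
    · intro w
      rw [Matrix.blockDiagonal'_apply_eq, DC.four, Matrix.of_apply, if_pos]
      · rfl
      · exact ⟨fun i => rfl, fun j => rfl⟩
  · intro l' _ hl'
    refine Finset.sum_eq_zero fun g' _ => ?_
    rw [Matrix.blockDiagonal'_apply_ne M _ _ (Ne.symm hl'), zero_mul]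
  · intro h
    exact absurd (Finset.mem_univ _) h

private theorem prod_prod_sum {T : ι → ι → Type} [∀ i j, Fintype (T i j)]
    (f : ∀ i j, T i j → ℂ) : ∏ i, ∏ j, ∑ a, f i j a = ∑ w : ∀ i j, T i j, ∏ i, ∏ j, f i j (w i j) := by
  have h1 : ∀ i, ∏ j, ∑ a, f i j a = ∑ w : ∀ j, T i j, ∏ j, f i j (w j) := by
    intro i
    rw [Finset.prod_univ_sum, Fintype.piFinset_univ]
  simp only [h1]
  rw [Finset.prod_univ_sum, Fintype.piFinset_univ]

/-- PROOF. Entry `(k, x')`, `k = ⟨l, g⟩`, `x' = (p', q', z')`. Left side: `four k (act y y' x')`, that is `0` unless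
`(g (inl i)).1 = (L i).a (y i) (p' i)` and `(g (inr j)).1 = (R j).a (y' j) (q' j)` for all `i`, `j`, and then
`∏ i, ∏ j, ρ (l i j) (s * z' i j * s'⁻¹) ((g (inl i)).2 j) ((g (inr j)).2 i)` with `s = (L i).s (y i) (p' i) j`,
`s' = (R j).s (y' j) (q' j) i`; by `map_mul` each factor is
`∑ w, ∑ v, ρ s ((g (inl i)).2 j) w * ρ (z' i j) w v * ρ s'⁻¹ v ((g (inr j)).2 i)`; expand the product of the sums over
`(i, j)` into a sum over families `w`, `v`. Right side: sum over `k' = ⟨l, g'⟩` (`blockDiagonal'` forces the same `l`),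
`g' (inl i) = (p' i, w i)`, `g' (inr j) = (q' j, v j)` (the conditions of `four k' x'` force the first components),
the factors are those of `indMat` (`(dual ρ) s' ((g (inr j)).2 i) (v j i) = ρ s'⁻¹ (v j i) ((g (inr j)).2 i)`). -/
theorem DC.four_W (C : DC Y) (F : C.FF) (y : ∀ u, YY Y u) :
    C.four F * C.W y =
      (Matrix.blockDiagonal' fun l => kron fun u => C.rep F l u (y u)) * C.four F := by
  ext ⟨l, g⟩ ⟨p, q, z⟩
  rw [four_W_left, four_W_right]
  have hk : ∀ w, kron (fun u => C.rep F l u (y u)) g (mkIdx C F l p q w) =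
      (∏ i, if (g (.inl i)).1 = (C.L i).a (y (.inl i)) (p i) then
        ∏ j, (F i j).ρ (l i j) ((C.L i).s (y (.inl i)) (p i) j) ((g (.inl i)).2 j) (w.1 i j)
        else 0) *
      (∏ j, if (g (.inr j)).1 = (C.R j).a (y (.inr j)) (q j) then
        ∏ i, (F i j).ρ (l i j) ((C.R j).s (y (.inr j)) (q j) i)⁻¹ (w.2 j i) ((g (.inr j)).2 i)
        else 0) := by
    intro w
    rw [kron_apply, Fintype.prod_sum_type]
    rfl
  by_cases h : (∀ i, (g (.inl i)).1 = (C.L i).a (y (.inl i)) (p i)) ∧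
      (∀ j, (g (.inr j)).1 = (C.R j).a (y (.inr j)) (q j))
  · rw [DC.four, Matrix.of_apply]
    refine (if_pos h).trans ?_
    have h1 : ∀ i j, (F i j).ρ (l i j) ((C.L i).s (y (.inl i)) (p i) j * z i j *
        ((C.R j).s (y (.inr j)) (q j) i)⁻¹) ((g (.inl i)).2 j) ((g (.inr j)).2 i) =
        ∑ a : (F i j).I (l i j) × (F i j).I (l i j),
          (F i j).ρ (l i j) ((C.L i).s (y (.inl i)) (p i) j) ((g (.inl i)).2 j) a.1 *
          (F i j).ρ (l i j) (z i j) a.1 a.2 *
          (F i j).ρ (l i j) ((C.R j).s (y (.inr j)) (q j) i)⁻¹ a.2 ((g (.inr j)).2 i) := by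
      intro i j
      rw [map_mul, map_mul, Matrix.mul_apply, Fintype.sum_prod_type, Finset.sum_comm]
      refine Finset.sum_congr rfl fun b _ => ?_
      rw [Matrix.mul_apply, Finset.sum_mul]
    have h2 : ∏ i, ∏ j, (F i j).ρ (l i j) ((C.L i).s (y (.inl i)) (p i) j * z i j *
        ((C.R j).s (y (.inr j)) (q j) i)⁻¹) ((g (.inl i)).2 j) ((g (.inr j)).2 i) =
        ∑ w : ∀ i j, (F i j).I (l i j) × (F i j).I (l i j), ∏ i, ∏ j,
          ((F i j).ρ (l i j) ((C.L i).s (y (.inl i)) (p i) j) ((g (.inl i)).2 j) (w i j).1 *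
          (F i j).ρ (l i j) (z i j) (w i j).1 (w i j).2 *
          (F i j).ρ (l i j) ((C.R j).s (y (.inr j)) (q j) i)⁻¹ (w i j).2 ((g (.inr j)).2 i)) := by
      refine (Finset.prod_congr rfl fun i _ => Finset.prod_congr rfl fun j _ => h1 i j).trans ?_
      exact prod_prod_sum (T := fun i j => (F i j).I (l i j) × (F i j).I (l i j)) _
    refine h2.trans ?_
    refine Fintype.sum_equiv
      { toFun := fun w => (fun i j => (w i j).1, fun j i => (w i j).2)
        invFun := fun w i j => (w.1 i j, w.2 j i)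
        left_inv := fun w => rfl
        right_inv := fun w => rfl } _ _ fun w => ?_
    rw [hk]
    simp only [Equiv.coe_fn_mk]
    rw [Finset.prod_congr rfl fun i _ => if_pos (h.1 i),
      Finset.prod_congr rfl fun j _ => if_pos (h.2 j)]
    simp only [Finset.prod_mul_distrib]
    rw [Finset.prod_comm (s := Finset.univ) (t := Finset.univ) (f := fun j i =>
      (F i j).ρ (l i j) ((C.R j).s (y (.inr j)) (q j) i)⁻¹ (w i j).2 ((g (.inr j)).2 i))]
    ring
  · rw [DC.four, Matrix.of_apply]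
    refine (if_neg h).trans ?_
    symm
    refine Finset.sum_eq_zero fun w _ => ?_
    rw [hk]
    rw [not_and_or, not_forall, not_forall] at h
    rcases h with ⟨i, hi⟩ | ⟨j, hj⟩
    · exact mul_eq_zero_of_left (mul_eq_zero_of_left
        (Finset.prod_eq_zero (Finset.mem_univ i) (if_neg hi)) _) _
    · exact mul_eq_zero_of_left (mul_eq_zero_of_right _
        (Finset.prod_eq_zero (Finset.mem_univ j) (if_neg hj))) _

end MP0775d3.Sg
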