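import Pool.Agent.Lib.MP_0775d3_lc.SG.Four
import Pool.Agent.Lib.MP_0775d3_lc.SG.Inter

/-! Diagonalisation of the types on one set with coordinates. -/

set_option linter.unusedSectionVars false
set_option linter.unusedVariables false

namespace MP0775d3.Sg

open Matrix

variable {ι : Type} [Fintype ι] [DecidableEq ι] {Y : ι → Type} [∀ i, Group (Y i)]

/-- PROOF. `exists_fd` for all `Z i j`, `stage_two` for the representations `C.rep F l u`
(`card (C.P i × ∀ j, I) ≤ card (P i) * ∏ j, card (Z i j)` by `FD.card_le`); `Φ = Ψ * four`, `Φ' = four' * Ψ'`;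
`four * W y * four' = blockDiagonal' ..` by `DC.four_W`, `DC.four_mul`. -/
theorem DC.core [∀ i, Fintype (Y i)] [∀ i, DecidableEq (Y i)] (C : DC Y)
    (FY : ∀ u, FD (YY Y u)) (b : ℕ) (hZ : ∀ i j, Fintype.card (C.Z i j) ≤ b)
    (hP : ∀ i, Fintype.card (C.P i) * ∏ j, Fintype.card (C.Z i j) ≤ b)
    (hQ : ∀ j, Fintype.card (C.Q j) * ∏ i, Fintype.card (C.Z i j) ≤ b) :
    ∃ (J : Type) (_ : Fintype J) (_ : DecidableEq J) (Φ : Matrix J C.X ℂ) (Φ' : Matrix C.X J ℂ)
      (lab : J → ∀ u, (FY u).T), Φ * Φ' = 1 ∧ Φ' * Φ = 1 ∧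
      BoxProd b (Fintype.card ι * Fintype.card ι + 2 * Fintype.card ι) Φ ∧
      BoxProd b (Fintype.card ι * Fintype.card ι + 2 * Fintype.card ι) Φ' ∧
      ∀ t : ∀ u, (FY u).T, Φ * (∑ y : ∀ u, YY Y u, (∏ u, (FY u).e (t u) (y u)) • C.W y) * Φ' =
        Matrix.diagonal fun a => if lab a = t then 1 else 0 := by
  obtain ⟨F⟩ : Nonempty C.FF := ⟨fun i j => (exists_fd (C.Z i j)).some⟩
  have hb : ∀ (l : ∀ i j, (F i j).Λ) (u : ι ⊕ ι), Fintype.card (C.Idx F l u) ≤ b := by
    rintro l (i | j)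
    · refine le_trans ?_ (hP i)
      have h1 : Fintype.card (C.Idx F l (.inl i)) =
          Fintype.card (C.P i) * ∏ j, Fintype.card ((F i j).I (l i j)) := by
        rw [← Fintype.card_pi, ← Fintype.card_prod]
        rfl
      rw [h1]
      exact Nat.mul_le_mul_left _ (Finset.prod_le_prod' fun j _ => (F i j).card_le (l i j))
    · refine le_trans ?_ (hQ j)
      have h1 : Fintype.card (C.Idx F l (.inr j)) =
          Fintype.card (C.Q j) * ∏ i, Fintype.card ((F i j).I (l i j)) := by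
        rw [← Fintype.card_pi, ← Fintype.card_prod]
        rfl
      rw [h1]
      exact Nat.mul_le_mul_left _ (Finset.prod_le_prod' fun i _ => (F i j).card_le (l i j))
  obtain ⟨Ψ, Ψ', lab, h1, h2, h3, h4, h5⟩ := stage_two FY (fun l u => C.rep F l u) b hb
  rw [Fintype.card_sum] at h3 h4
  have hn1 : Fintype.card ι * Fintype.card ι + 2 * Fintype.card ι =
      (Fintype.card ι + Fintype.card ι) + Fintype.card ι * Fintype.card ι := by ring
  have hn2 : Fintype.card ι * Fintype.card ι + 2 * Fintype.card ι =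
      Fintype.card ι * Fintype.card ι + (Fintype.card ι + Fintype.card ι) := by ring
  refine ⟨C.J F, inferInstance, inferInstance, Ψ * C.four F, C.four' F * Ψ', lab, ?_, ?_, ?_, ?_,
    fun t => ?_⟩
  · calc Ψ * C.four F * (C.four' F * Ψ') = Ψ * (C.four F * C.four' F) * Ψ' := by
          simp only [Matrix.mul_assoc]
      _ = 1 := by rw [C.four_mul, Matrix.mul_one, h1]
  · calc C.four' F * Ψ' * (Ψ * C.four F) = C.four' F * (Ψ' * Ψ) * C.four F := by
          simp only [Matrix.mul_assoc]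
      _ = 1 := by rw [h2, Matrix.mul_one, C.four'_mul]
  · rw [hn1]
    exact h3.mul (C.four_box F b hZ)
  · rw [hn2]
    exact (C.four'_box F b hZ).mul h4
  · rw [← h5 t]
    have e1 : C.four F * (∑ y : ∀ u, YY Y u, (∏ u, (FY u).e (t u) (y u)) • C.W y) =
        (∑ y : ∀ u, YY Y u, (∏ u, (FY u).e (t u) (y u)) •
          Matrix.blockDiagonal' fun l => kron fun u => C.rep F l u (y u)) * C.four F := by
      rw [Matrix.mul_sum, Matrix.sum_mul]
      refine Finset.sum_congr rfl fun y _ => ?_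
      rw [Matrix.mul_smul, Matrix.smul_mul, C.four_W]
    calc Ψ * C.four F * (∑ y : ∀ u, YY Y u, (∏ u, (FY u).e (t u) (y u)) • C.W y) *
          (C.four' F * Ψ') =
        Ψ * (C.four F * (∑ y : ∀ u, YY Y u, (∏ u, (FY u).e (t u) (y u)) • C.W y)) *
          C.four' F * Ψ' := by simp only [Matrix.mul_assoc]
      _ = Ψ * ((∑ y : ∀ u, YY Y u, (∏ u, (FY u).e (t u) (y u)) •
          Matrix.blockDiagonal' fun l => kron fun u => C.rep F l u (y u)) *
            (C.four F * C.four' F)) * Ψ' := by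
          rw [e1]
          simp only [Matrix.mul_assoc]
      _ = _ := by rw [C.four_mul, Matrix.mul_one]

end MP0775d3.Sg
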