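import Pool.Agent.Lib.MP_0775d3_lc.SG.FdLem

/-! The number of indices of a given type. -/

set_option linter.unusedSectionVars false
set_option linter.unusedVariables false

namespace MP0775d3.Sg

open Matrix

/-- One of the two bounds. -/
private theorem half {G₁ G₂ : Type} [Group G₁] [Fintype G₁] [DecidableEq G₁] [Group G₂]
    [Fintype G₂] [DecidableEq G₂] (F₁ : FD G₁) (F₂ : FD G₂) (χ : G₁ → G₂ → ℂ) (M : ℕ)
    (h1 : ∀ y, χ y 1 = if y = 1 then (M : ℂ) else 0)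
    (c2 : ∀ g y y', χ y (g * y' * g⁻¹) = χ y y')
    (N : F₁.T → F₂.T → ℕ)
    (hN : ∀ t t', (N t t' : ℂ) = ∑ y, ∑ y', F₁.e t y * F₂.e t' y' * χ y y') (t : F₁.T)
    (t' : F₂.T) :
    Fintype.card G₁ * (Fintype.card (F₂.I t'.1) * N t t') ≤ Fintype.card (F₁.I t.1) * M := by
  obtain ⟨l', a'⟩ := t'
  have e1 : ∀ s : F₂.T, (N t s : ℂ) = ∑ y, F₁.e t y * ∑ y', F₂.e s y' * χ y y' := by
    intro s
    rw [hN]
    refine Finset.sum_congr rfl fun y _ => ?_
    rw [Finset.mul_sum]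
    exact Finset.sum_congr rfl fun y' _ => mul_assoc _ _ _
  have e2 : ∀ b, N t ⟨l', b⟩ = N t ⟨l', a'⟩ := by
    intro b
    have : (N t ⟨l', b⟩ : ℂ) = (N t ⟨l', a'⟩ : ℂ) := by
      rw [e1, e1]
      refine Finset.sum_congr rfl fun y _ => ?_
      rw [F₂.class_indep (χ y) (fun g h => c2 g y h) l' b a']
    exact_mod_cast this
  have e3 : Fintype.card (F₂.I l') * N t ⟨l', a'⟩ ≤ ∑ s : F₂.T, N t s := by
    rw [Fintype.sum_sigma]
    have h4 : ∑ b : F₂.I l', N t ⟨l', b⟩ = Fintype.card (F₂.I l') * N t ⟨l', a'⟩ := by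
      rw [Finset.sum_congr rfl fun b _ => e2 b, Finset.sum_const, smul_eq_mul, Finset.card_univ]
    rw [← h4]
    exact Finset.single_le_sum (f := fun l => ∑ b : F₂.I l, N t ⟨l, b⟩)
      (fun _ _ => Nat.zero_le _) (Finset.mem_univ l')
  have e4 : ((∑ s : F₂.T, N t s : ℕ) : ℂ) =
      (Fintype.card (F₁.I t.1) : ℂ) / Fintype.card G₁ * M := by
    rw [Nat.cast_sum]
    have h5 : ∀ y, ∑ s : F₂.T, F₁.e t y * ∑ y', F₂.e s y' * χ y y' = F₁.e t y * χ y 1 := by
      intro y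
      rw [← Finset.mul_sum, Finset.sum_comm]
      congr 1
      have h6 : ∀ y', ∑ s : F₂.T, F₂.e s y' * χ y y' = if y' = 1 then χ y 1 else 0 := by
        intro y'
        rw [← Finset.sum_mul, F₂.sum_e]
        split_ifs with h
        · rw [h, one_mul]
        · rw [zero_mul]
      rw [Finset.sum_congr rfl fun y' _ => h6 y', Finset.sum_ite_eq' Finset.univ (1 : G₂)]
      simp
    rw [Finset.sum_congr rfl fun s _ => e1 s, Finset.sum_comm,
      Finset.sum_congr rfl fun y _ => h5 y]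
    rw [← F₁.e_one t]
    have h7 : ∀ y, F₁.e t y * χ y 1 = if y = 1 then F₁.e t 1 * M else 0 := by
      intro y
      rw [h1]
      split_ifs with h
      · rw [h]
      · rw [mul_zero]
    rw [Finset.sum_congr rfl fun y _ => h7 y, Finset.sum_ite_eq' Finset.univ (1 : G₁)]
    simp
  have hG : (Fintype.card G₁ : ℂ) ≠ 0 := by
    have : Fintype.card G₁ ≠ 0 := Fintype.card_ne_zero
    exact_mod_cast this
  have e5 : Fintype.card G₁ * (∑ s : F₂.T, N t s) = Fintype.card (F₁.I t.1) * M := by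
    have : (Fintype.card G₁ : ℂ) * ((∑ s : F₂.T, N t s : ℕ) : ℂ) =
        (Fintype.card (F₁.I t.1) : ℂ) * M := by
      rw [e4]
      field_simp
    exact_mod_cast this
  rw [← e5]
  exact Nat.mul_le_mul_left _ e3

/-- PROOF. Let `t = ⟨l, a⟩`, `t' = ⟨l', a'⟩`, `d = card (I l)`, `d' = card (I l')`. By `FD.class_indep` (for `χ y ·`)
`N t ⟨l', b⟩ = N t t'` for all `b`, so `d' * N t t' ≤ ∑ t'', N t t''`, and this is
`∑ y, e t y * χ y 1 = e t 1 * M = d / card G₁ * M` by `FD.sum_e`, `FD.e_one`. Symmetrically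
`d * N t t' * card G₂ ≤ d' * M`. Multiply; `d, d' > 0`. -/
theorem count {G₁ G₂ : Type} [Group G₁] [Fintype G₁] [DecidableEq G₁] [Group G₂] [Fintype G₂]
    [DecidableEq G₂] (F₁ : FD G₁) (F₂ : FD G₂) (χ : G₁ → G₂ → ℂ) (M : ℕ)
    (h1 : ∀ y, χ y 1 = if y = 1 then (M : ℂ) else 0)
    (h2 : ∀ y, χ 1 y = if y = 1 then (M : ℂ) else 0)
    (c1 : ∀ g y y', χ (g * y * g⁻¹) y' = χ y y') (c2 : ∀ g y y', χ y (g * y' * g⁻¹) = χ y y')
    (N : F₁.T → F₂.T → ℕ)
    (hN : ∀ t t', (N t t' : ℂ) = ∑ y, ∑ y', F₁.e t y * F₂.e t' y' * χ y y') (t : F₁.T)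
    (t' : F₂.T) :
    N t t' * N t t' * (Fintype.card G₁ * Fintype.card G₂) ≤ M * M := by
  have a1 := half F₁ F₂ χ M h1 c2 N hN t t'
  have a2 := half F₂ F₁ (fun y' y => χ y y') M h2 (fun g y y' => c1 g y' y) (fun s' s => N s s')
    (fun s' s => by
      rw [hN, Finset.sum_comm]
      refine Finset.sum_congr rfl fun y' _ => Finset.sum_congr rfl fun y _ => ?_
      ring) t' t
  have b1 : 0 < Fintype.card (F₁.I t.1) := Fintype.card_pos_iff.2 ⟨t.2⟩
  have b2 : 0 < Fintype.card (F₂.I t'.1) := Fintype.card_pos_iff.2 ⟨t'.2⟩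
  have a3 := Nat.mul_le_mul a1 a2
  have a4 : (N t t' * N t t' * (Fintype.card G₁ * Fintype.card G₂)) *
      (Fintype.card (F₁.I t.1) * Fintype.card (F₂.I t'.1)) ≤
      (M * M) * (Fintype.card (F₁.I t.1) * Fintype.card (F₂.I t'.1)) := by
    calc _ = Fintype.card G₁ * (Fintype.card (F₂.I t'.1) * N t t') *
          (Fintype.card G₂ * (Fintype.card (F₁.I t.1) * N t t')) := by ring
      _ ≤ _ := a3
      _ = _ := by ring
  exact Nat.le_of_mul_le_mul_right a4 (Nat.mul_pos b1 b2)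

end MP0775d3.Sg
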