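import Pool.Agent.Lib.MP_0775d3_lc.SG.Pt

/-! A cover of a group by sets with coordinates. -/

set_option linter.unusedSectionVars false
set_option linter.unusedVariables false

namespace MP0775d3.Sg

open Matrix

variable {ι : Type} [Fintype ι] [DecidableEq ι] {Y : ι → Type} [∀ i, Group (Y i)] {G : Type}
  [Group G]

/-- The action by left and right multiplication. -/
@[reducible] private def lrAct (κ : (∀ i, Y i) →* G) : MulAction ((∀ i, Y i) × (∀ i, Y i)) G where
  smul q g := κ q.1 * g * (κ q.2)⁻¹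
  one_smul g := by
    change κ 1 * g * (κ 1)⁻¹ = g
    rw [map_one, inv_one, one_mul, mul_one]
  mul_smul a b g := by
    change κ (a.1 * b.1) * g * (κ (a.2 * b.2))⁻¹ = κ a.1 * (κ b.1 * g * (κ b.2)⁻¹) * (κ a.2)⁻¹
    rw [map_mul, map_mul, _root_.mul_inv_rev]
    group

private theorem card_X (C : DC Y) : Fintype.card C.X =
    (∏ i, Fintype.card (C.P i)) * ((∏ j, Fintype.card (C.Q j)) *
      ∏ i, ∏ j, Fintype.card (C.Z i j)) := by
  simp only [Fintype.card_prod, Fintype.card_pi]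

private theorem card_X_mul [∀ i, Finite (Y i)] (C : DC Y)
    (hP : ∀ i, Fintype.card (C.P i) * ∏ j, Fintype.card (C.Z i j) = Nat.card (Y i))
    (hQ : ∀ j, Fintype.card (C.Q j) * ∏ i, Fintype.card (C.Z i j) = Nat.card (Y j)) :
    Fintype.card C.X * ∏ i, ∏ j, Fintype.card (C.Z i j) =
      Nat.card ((∀ i, Y i) × (∀ i, Y i)) := by
  have h1 : (∏ i, Fintype.card (C.P i)) * ∏ i, ∏ j, Fintype.card (C.Z i j) = ∏ i, Nat.card (Y i) := by
    rw [← Finset.prod_mul_distrib]
    exact Finset.prod_congr rfl fun i _ => hP i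
  have h2 : (∏ j, Fintype.card (C.Q j)) * ∏ i, ∏ j, Fintype.card (C.Z i j) = ∏ i, Nat.card (Y i) := by
    rw [Finset.prod_comm, ← Finset.prod_mul_distrib]
    exact Finset.prod_congr rfl fun i _ => hQ i
  rw [card_X, Nat.card_prod, Nat.card_pi, ← h1]
  rw [h1]
  nth_rewrite 1 [← h1]
  rw [← h2]
  ring

private theorem orbit_bound [∀ i, Finite (Y i)] [Finite G] (κ : (∀ i, Y i) →* G) (k : ℕ)
    [MulAction ((∀ i, Y i) × (∀ i, Y i)) G]
    (hact : ∀ (q : (∀ i, Y i) × (∀ i, Y i)) (g : G), q • g = κ q.1 * g * (κ q.2)⁻¹) (g : G)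
    (p : PT Y κ g) (hp : p.Full k) (C : DC Y)
    (hZ : ∀ i j, Fintype.card (C.Z i j) = Nat.card (p.Z i j))
    (hP : ∀ i, Fintype.card (C.P i) * ∏ j, Fintype.card (C.Z i j) = Nat.card (Y i))
    (hQ : ∀ j, Fintype.card (C.Q j) * ∏ i, Fintype.card (C.Z i j) = Nat.card (Y j)) :
    Fintype.card C.X ≤ k * Nat.card (MulAction.orbit ((∀ i, Y i) × (∀ i, Y i)) g) := by
  have h1 := Nat.card_congr (MulAction.orbitProdStabilizerEquivGroup
    ((∀ i, Y i) × (∀ i, Y i)) g)
  rw [Nat.card_prod, ← card_X_mul C hP hQ] at h1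
  have h2 : Nat.card (MulAction.stabilizer ((∀ i, Y i) × (∀ i, Y i)) g) ≤
      k * ∏ i, ∏ j, Fintype.card (C.Z i j) := by
    have h3 : ∏ i, ∏ j, Fintype.card (C.Z i j) = ∏ i, ∏ j, Nat.card (p.Z i j) :=
      Finset.prod_congr rfl fun i _ => Finset.prod_congr rfl fun j _ => hZ i j
    rw [h3]
    refine le_trans (le_of_eq ?_) hp
    refine Nat.card_congr (Equiv.subtypeEquivRight fun q => ?_)
    rw [MulAction.mem_stabilizer_iff, hact, mul_inv_eq_iff_eq_mul]
  have hz : 0 < ∏ i, ∏ j, Fintype.card (C.Z i j) :=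
    Finset.prod_pos fun i _ => Finset.prod_pos fun j _ => Fintype.card_pos
  refine Nat.le_of_mul_le_mul_right ?_ hz
  calc Fintype.card C.X * ∏ i, ∏ j, Fintype.card (C.Z i j)
      = Nat.card (MulAction.orbit ((∀ i, Y i) × (∀ i, Y i)) g) *
        Nat.card (MulAction.stabilizer ((∀ i, Y i) × (∀ i, Y i)) g) := h1.symm
    _ ≤ Nat.card (MulAction.orbit ((∀ i, Y i) × (∀ i, Y i)) g) *
        (k * ∏ i, ∏ j, Fintype.card (C.Z i j)) := Nat.mul_le_mul_left _ h2
    _ = k * Nat.card (MulAction.orbit ((∀ i, Y i) × (∀ i, Y i)) g) *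
        ∏ i, ∏ j, Fintype.card (C.Z i j) := by ring

/-- PROOF. `D` is the set of orbits of `(∏ Y) × (∏ Y)` on `G` by `(y, y') • g = κ y * g * (κ y')⁻¹`, `g_d` a
representative (`MulAction.selfEquivSigmaOrbits`), `C d` from `PT.exists_dc` at `g_d`, `π ⟨d, x⟩ = π_d x`. Cardinality:
`card X_d * ∏ i, ∏ j, card (Z i j) = (∏ i, card (Y i)) ^ 2` (products of the identities for `P`, `Q`), the stabiliser of
`g_d` has at most `k * ∏ i, ∏ j, card (Z i j)` elements (`PT.Full`), so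
`card X_d ≤ k * card (orbit)` (`MulAction.card_orbit_mul_card_stabilizer_eq_card_group`); sum over `d`. If `Y i` has
elements `card (Z i j) ≤ card (Y i)` as `card (P i) ≥ 1`, the other factors of the product are `≥ 1`. -/
theorem cover [∀ i, Finite (Y i)] [Finite G] (κ : (∀ i, Y i) →* G) (k : ℕ)
    (h : ∀ g, ∃ p : PT Y κ g, p.Full k) :
    ∃ (D : Type) (_ : Fintype D) (_ : DecidableEq D) (C : D → DC Y) (π : (Σ d, (C d).X) → G),
      Function.Surjective π ∧ (∀ y y' x, π (actS C y y' x) = κ y * π x * (κ y')⁻¹) ∧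
      Fintype.card (Σ d, (C d).X) ≤ k * Nat.card G ∧
      (∀ d i j, Fintype.card ((C d).Z i j) ≤ Nat.card (Y i)) ∧
      (∀ d i, Fintype.card ((C d).P i) * ∏ j, Fintype.card ((C d).Z i j) ≤ Nat.card (Y i)) ∧
      (∀ d j, Fintype.card ((C d).Q j) * ∏ i, Fintype.card ((C d).Z i j) ≤ Nat.card (Y j)) := by
  letI := lrAct κ
  classical
  let A := (∀ i, Y i) × (∀ i, Y i)
  let D := MulAction.orbitRel.Quotient A G
  letI : Fintype D := Fintype.ofFinite D
  have hex : ∀ d : D, ∃ (p : PT Y κ d.out) (C : DC Y) (π : C.X → G), p.Full k ∧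
      (∀ y y' x, π (C.act y y' x) = κ y * π x * (κ y')⁻¹) ∧
      (∀ y y', ∃ x, π x = κ y * d.out * (κ y')⁻¹) ∧
      (∀ i j, Fintype.card (C.Z i j) = Nat.card (p.Z i j)) ∧
      (∀ i, Fintype.card (C.P i) * ∏ j, Fintype.card (C.Z i j) = Nat.card (Y i)) ∧
      (∀ j, Fintype.card (C.Q j) * ∏ i, Fintype.card (C.Z i j) = Nat.card (Y j)) := by
    intro d
    obtain ⟨p, hp⟩ := h d.out
    obtain ⟨C, π, h1, h2, h3, h4, h5⟩ := p.exists_dc
    exact ⟨p, C, π, hp, h1, h2, h3, h4, h5⟩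
  choose p C π hp h1 h2 h3 h4 h5 using hex
  refine ⟨D, inferInstance, inferInstance, C, fun x => π x.1 x.2, ?_, ?_, ?_, ?_, ?_, ?_⟩
  · intro g
    have hg : g ∈ MulAction.orbit A (Quotient.mk (MulAction.orbitRel A G) g).out := by
      have := Quotient.mk_out (s := MulAction.orbitRel A G) g
      exact (MulAction.orbitRel A G).symm this
    obtain ⟨q, hq⟩ := hg
    obtain ⟨x, hx⟩ := h2 (Quotient.mk (MulAction.orbitRel A G) g) q.1 q.2
    exact ⟨⟨Quotient.mk (MulAction.orbitRel A G) g, x⟩, hx.trans hq⟩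
  · intro y y' x
    exact h1 x.1 y y' x.2
  · rw [Fintype.card_sigma]
    have hG : Nat.card G = ∑ d : D, Nat.card (MulAction.orbit A d.out) := by
      rw [← Nat.card_sigma]
      exact Nat.card_congr (MulAction.selfEquivSigmaOrbits A G)
    rw [hG, Finset.mul_sum]
    exact Finset.sum_le_sum fun d _ => orbit_bound κ k (fun _ _ => rfl) d.out (p d) (hp d) (C d) (h3 d) (h4 d) (h5 d)
  · intro d i j
    have hpos : 0 < Nat.card (Y i) := Nat.card_pos
    refine Nat.le_of_dvd hpos ?_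
    rw [← h4 d i]
    exact Dvd.dvd.mul_left (Finset.dvd_prod_of_mem (fun j => Fintype.card ((C d).Z i j))
      (Finset.mem_univ j)) _
  · intro d i
    exact (h4 d i).le
  · intro d j
    exact (h5 d j).le

end MP0775d3.Sg
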