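import Mathlib

/-! Induced representations as matrices. -/

set_option linter.unusedSectionVars false
set_option linter.unusedVariables false

namespace MP0775d3.Sg

open Matrix

/-- An action of `Y` on `P` with a cocycle in `∏ Z j`: `a y p` is the image of `p`. -/
structure Coc (Y : Type) [Group Y] (P : Type) {J : Type} (Z : J → Type) [∀ j, Group (Z j)] where
  a : Y → P → P
  s : Y → P → ∀ j, Z j
  a_one : ∀ p, a 1 p = p
  a_mul : ∀ y y' p, a (y * y') p = a y (a y' p)
  s_mul : ∀ y y' p, s (y * y') p = s y (a y' p) * s y' p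
  free : ∀ y p, a y p = p → s y p = 1 → y = 1

variable {Y : Type} [Group Y] {P : Type} {J : Type} {Z : J → Type} [∀ j, Group (Z j)]

theorem Coc.s_one (C : Coc Y P Z) (p : P) : C.s 1 p = 1 := by
  have h := C.s_mul 1 1 p
  rw [one_mul, C.a_one] at h
  exact (mul_eq_left (a := C.s 1 p)).1 h.symm

/-- The dual representation. -/
noncomputable def dual {G : Type} [Group G] {m : Type} [Fintype m] [DecidableEq m]
    (ρ : G →* Matrix m m ℂ) : G →* Matrix m m ℂ where
  toFun g := (ρ g⁻¹)ᵀ
  map_one' := by simp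
  map_mul' g h := by rw [_root_.mul_inv_rev, map_mul, Matrix.transpose_mul]

variable [Fintype J] [Fintype P] [DecidableEq P] {I : J → Type} [∀ j, Fintype (I j)]
  [∀ j, DecidableEq (I j)]

/-- The representation of `Y` induced from representations of the `Z j`. -/
noncomputable def indMat (C : Coc Y P Z) (ρ : ∀ j, Z j →* Matrix (I j) (I j) ℂ) (y : Y) :
    Matrix (P × ∀ j, I j) (P × ∀ j, I j) ℂ :=
  Matrix.of fun x x' => if x.1 = C.a y x'.1 then ∏ j, ρ j (C.s y x'.1 j) (x.2 j) (x'.2 j) else 0

theorem indMat_one [DecidableEq J] (C : Coc Y P Z) (ρ : ∀ j, Z j →* Matrix (I j) (I j) ℂ) :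
    indMat C ρ 1 = 1 := by
  ext x x'
  have h : ∀ j, ρ j (C.s 1 x'.1 j) = 1 := fun j => by rw [C.s_one, Pi.one_apply, map_one]
  simp only [indMat, Matrix.of_apply, C.a_one, h, Matrix.one_apply]
  rw [Finset.prod_ite_zero]
  simp only [Finset.mem_univ, forall_const, Finset.prod_const_one]
  rw [← ite_and]
  exact if_congr (by rw [Prod.ext_iff, funext_iff]) rfl rfl

/-- PROOF. `(indMat y * indMat y') x x'` is a sum over `x'' = (a y' x'.1, w)`; `Finset.prod_univ_sum`. -/
theorem indMat_mul [DecidableEq J] (C : Coc Y P Z) (ρ : ∀ j, Z j →* Matrix (I j) (I j) ℂ)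
    (y y' : Y) : indMat C ρ (y * y') = indMat C ρ y * indMat C ρ y' := by
  ext x x'
  rw [Matrix.mul_apply, Fintype.sum_prod_type]
  simp only [indMat, Matrix.of_apply, ite_mul, mul_ite, zero_mul, mul_zero, C.a_mul]
  rw [Finset.sum_eq_single (C.a y' x'.1)]
  · simp only [if_true]
    by_cases h : x.1 = C.a y (C.a y' x'.1)
    · simp only [if_pos h]
      have h1 : ∀ j, ρ j (C.s (y * y') x'.1 j) (x.2 j) (x'.2 j) =
          ∑ w, ρ j (C.s y (C.a y' x'.1) j) (x.2 j) w * ρ j (C.s y' x'.1 j) w (x'.2 j) := by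
        intro j
        rw [C.s_mul, Pi.mul_apply, map_mul, Matrix.mul_apply]
      simp only [h1, ← Finset.prod_mul_distrib]
      rw [Finset.prod_univ_sum, Fintype.piFinset_univ]
    · simp only [if_neg h, Finset.sum_const_zero]
  · intro p _ hp
    simp only [if_neg hp, Finset.sum_const_zero]
  · intro h
    exact absurd (Finset.mem_univ _) h

/-- The induced representation. -/
noncomputable def indRep [DecidableEq J] (C : Coc Y P Z)
    (ρ : ∀ j, Z j →* Matrix (I j) (I j) ℂ) : Y →* Matrix (P × ∀ j, I j) (P × ∀ j, I j) ℂ where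
  toFun := indMat C ρ
  map_one' := indMat_one C ρ
  map_mul' := indMat_mul C ρ

end MP0775d3.Sg
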