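import Pool.Agent.Lib.MP_0775d3_lc.SG.StageTwo
import Pool.Agent.Lib.MP_0775d3_lc.SG.Ind

/-! A set with two commuting actions of a product of groups, in coordinates. -/

set_option linter.unusedSectionVars false
set_option linter.unusedVariables false

namespace MP0775d3.Sg

open Matrix

/-- The coordinates: `P i`, `Q j` and groups `Z i j`; `Y i` acts on `P i` with a cocycle in `∏ j, Z i j` (left) and on
`Q i` with a cocycle in `∏ j, Z j i` (right). -/
structure DC {ι : Type} (Y : ι → Type) [∀ i, Group (Y i)] where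
  P : ι → Type
  Q : ι → Type
  Z : ι → ι → Type
  [gZ : ∀ i j, Group (Z i j)]
  [fP : ∀ i, Fintype (P i)]
  [fQ : ∀ i, Fintype (Q i)]
  [fZ : ∀ i j, Fintype (Z i j)]
  [dP : ∀ i, DecidableEq (P i)]
  [dQ : ∀ i, DecidableEq (Q i)]
  [dZ : ∀ i j, DecidableEq (Z i j)]
  L : ∀ i, Coc (Y i) (P i) (fun j => Z i j)
  R : ∀ j, Coc (Y j) (Q j) (fun i => Z i j)

attribute [instance] DC.gZ DC.fP DC.fQ DC.fZ DC.dP DC.dQ DC.dZ

variable {ι : Type} [Fintype ι] [DecidableEq ι] {Y : ι → Type} [∀ i, Group (Y i)]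

/-- The set with the two actions. -/
abbrev DC.X (C : DC Y) : Type := (∀ i, C.P i) × (∀ j, C.Q j) × (∀ i j, C.Z i j)

/-- The two actions together. -/
def DC.act (C : DC Y) (y y' : ∀ i, Y i) (x : C.X) : C.X :=
  (fun i => (C.L i).a (y i) (x.1 i), fun j => (C.R j).a (y' j) (x.2.1 j),
    fun i j => (C.L i).s (y i) (x.1 i) j * x.2.2 i j * ((C.R j).s (y' j) (x.2.1 j) i)⁻¹)

theorem DC.act_one (C : DC Y) (x : C.X) : C.act 1 1 x = x := by
  obtain ⟨p, q, z⟩ := x
  refine Prod.ext (funext fun i => ?_) (Prod.ext (funext fun j => ?_) (funext fun i => funext fun j => ?_))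
  · exact (C.L i).a_one (p i)
  · exact (C.R j).a_one (q j)
  · show (C.L i).s 1 (p i) j * z i j * ((C.R j).s 1 (q j) i)⁻¹ = z i j
    rw [(C.L i).s_one, (C.R j).s_one]
    simp

theorem DC.act_mul (C : DC Y) (y y' z z' : ∀ i, Y i) (x : C.X) :
    C.act (y * z) (y' * z') x = C.act y y' (C.act z z' x) := by
  obtain ⟨p, q, w⟩ := x
  refine Prod.ext (funext fun i => ?_) (Prod.ext (funext fun j => ?_) (funext fun i => funext fun j => ?_))
  · exact (C.L i).a_mul _ _ _
  · exact (C.R j).a_mul _ _ _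
  · show (C.L i).s (y i * z i) (p i) j * w i j * ((C.R j).s (y' j * z' j) (q j) i)⁻¹ =
      (C.L i).s (y i) ((C.L i).a (z i) (p i)) j *
        ((C.L i).s (z i) (p i) j * w i j * ((C.R j).s (z' j) (q j) i)⁻¹) *
        ((C.R j).s (y' j) ((C.R j).a (z' j) (q j)) i)⁻¹
    rw [(C.L i).s_mul, (C.R j).s_mul, Pi.mul_apply, Pi.mul_apply, _root_.mul_inv_rev]
    simp only [mul_assoc]

/-- PROOF. `Coc.free`. -/
theorem DC.free_left (C : DC Y) (y : ∀ i, Y i) (x : C.X) (h : C.act y 1 x = x) : y = 1 := by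
  obtain ⟨p, q, z⟩ := x
  have h1 := congrArg Prod.fst h
  have h2 := congrArg (fun x : C.X => x.2.2) h
  funext i
  refine (C.L i).free (y i) (p i) (congrFun h1 i) (funext fun j => ?_)
  have h3 : (C.L i).s (y i) (p i) j * z i j * ((C.R j).s 1 (q j) i)⁻¹ = z i j :=
    congrFun (congrFun h2 i) j
  rw [(C.R j).s_one, Pi.one_apply, inv_one, mul_one] at h3
  exact mul_eq_right.1 h3

theorem DC.free_right (C : DC Y) (y : ∀ i, Y i) (x : C.X) (h : C.act 1 y x = x) : y = 1 := by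
  obtain ⟨p, q, z⟩ := x
  have h1 := congrArg (fun x : C.X => x.2.1) h
  have h2 := congrArg (fun x : C.X => x.2.2) h
  funext j
  refine (C.R j).free (y j) (q j) (congrFun h1 j) (funext fun i => ?_)
  have h3 : (C.L i).s 1 (p i) j * z i j * ((C.R j).s (y j) (q j) i)⁻¹ = z i j :=
    congrFun (congrFun h2 i) j
  rw [(C.L i).s_one, Pi.one_apply, one_mul] at h3
  exact inv_eq_one.1 (mul_eq_left.1 h3)

/-- The groups acting: `Y i` from the left and `Y i` from the right. -/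
def YY (Y : ι → Type) : ι ⊕ ι → Type
  | .inl i => Y i
  | .inr i => Y i

instance YY.group : ∀ u, Group (YY Y u)
  | .inl i => inferInstanceAs (Group (Y i))
  | .inr i => inferInstanceAs (Group (Y i))

instance YY.fintype [∀ i, Fintype (Y i)] : ∀ u, Fintype (YY Y u)
  | .inl i => inferInstanceAs (Fintype (Y i))
  | .inr i => inferInstanceAs (Fintype (Y i))

instance YY.dec [∀ i, DecidableEq (Y i)] : ∀ u, DecidableEq (YY Y u)
  | .inl i => inferInstanceAs (DecidableEq (Y i))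
  | .inr i => inferInstanceAs (DecidableEq (Y i))

/-- The permutation matrix of an element. -/
noncomputable def DC.W (C : DC Y) (y : ∀ u, YY Y u) : Matrix C.X C.X ℂ :=
  Matrix.of fun x x' => if x = C.act (fun i => y (.inl i)) (fun i => y (.inr i)) x' then 1 else 0

/-- Fourier data for the groups `Z i j`. -/
abbrev DC.FF (C : DC Y) : Type 1 := ∀ i j, FD (C.Z i j)

/-- The coordinates after the Fourier transform, for a given family of blocks. -/
def DC.Idx (C : DC Y) (F : C.FF) (l : ∀ i j, (F i j).Λ) : ι ⊕ ι → Type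
  | .inl i => C.P i × ∀ j, (F i j).I (l i j)
  | .inr j => C.Q j × ∀ i, (F i j).I (l i j)

instance DC.Idx.fintype (C : DC Y) (F : C.FF) (l : ∀ i j, (F i j).Λ) : ∀ u, Fintype (C.Idx F l u)
  | .inl i => inferInstanceAs (Fintype (C.P i × ∀ j, (F i j).I (l i j)))
  | .inr j => inferInstanceAs (Fintype (C.Q j × ∀ i, (F i j).I (l i j)))

instance DC.Idx.dec (C : DC Y) (F : C.FF) (l : ∀ i j, (F i j).Λ) :
    ∀ u, DecidableEq (C.Idx F l u)
  | .inl i => inferInstanceAs (DecidableEq (C.P i × ∀ j, (F i j).I (l i j)))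
  | .inr j => inferInstanceAs (DecidableEq (C.Q j × ∀ i, (F i j).I (l i j)))

/-- The index set after the Fourier transform. -/
abbrev DC.J (C : DC Y) (F : C.FF) : Type := Σ l : (∀ i j, (F i j).Λ), ∀ u, C.Idx F l u

/-- The representation of the group `YY Y u` on the coordinate `u`. -/
noncomputable def DC.rep (C : DC Y) (F : C.FF) (l : ∀ i j, (F i j).Λ) :
    ∀ u, YY Y u →* Matrix (C.Idx F l u) (C.Idx F l u) ℂ
  | .inl i => indRep (C.L i) fun j => (F i j).ρ (l i j)
  | .inr j => indRep (C.R j) fun i => dual ((F i j).ρ (l i j))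

/-- The Fourier matrix. -/
noncomputable def DC.four (C : DC Y) (F : C.FF) : Matrix (C.J F) C.X ℂ :=
  Matrix.of fun k x =>
    if (∀ i, (k.2 (.inl i)).1 = x.1 i) ∧ (∀ j, (k.2 (.inr j)).1 = x.2.1 j) then
      ∏ i, ∏ j, (F i j).ρ (k.1 i j) (x.2.2 i j) ((k.2 (.inl i)).2 j) ((k.2 (.inr j)).2 i)
    else 0

/-- Its inverse. -/
noncomputable def DC.four' (C : DC Y) (F : C.FF) : Matrix C.X (C.J F) ℂ :=
  Matrix.of fun x k =>
    if (∀ i, (k.2 (.inl i)).1 = x.1 i) ∧ (∀ j, (k.2 (.inr j)).1 = x.2.1 j) then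
      ∏ i, ∏ j, (F i j).u (k.1 i j) ((k.2 (.inl i)).2 j) ((k.2 (.inr j)).2 i) (x.2.2 i j)
    else 0

/-- Regrouping of the coordinates. -/
def DC.regroup (C : DC Y) (F : C.FF) : C.J F ≃ ((∀ i, C.P i) × (∀ j, C.Q j)) ×
    ∀ u : ι × ι, Σ l : (F u.1 u.2).Λ, (F u.1 u.2).I l × (F u.1 u.2).I l where
  toFun k := ((fun i => (k.2 (.inl i)).1, fun j => (k.2 (.inr j)).1),
    fun u => ⟨k.1 u.1 u.2, (k.2 (.inl u.1)).2 u.2, (k.2 (.inr u.2)).2 u.1⟩)
  invFun m := ⟨fun i j => (m.2 (i, j)).1, fun u => match u with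
    | .inl i => (m.1.1 i, fun j => (m.2 (i, j)).2.1)
    | .inr j => (m.1.2 j, fun i => (m.2 (i, j)).2.2)⟩
  left_inv k := by
    obtain ⟨l, g⟩ := k
    refine Sigma.ext rfl (heq_of_eq (funext fun u => ?_))
    cases u <;> rfl
  right_inv m := rfl

end MP0775d3.Sg
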