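import Mathlib

/-! Fourier data of a finite group: a complete system of irreducible complex representations, with the orthogonality
relations of their coefficients. -/

set_option linter.unusedSectionVars false
set_option linter.unusedVariables false

namespace MP0775d3.Sg

open Matrix

/-- Irreducible representations `ρ l` with index sets `I l`, Schur's orthogonality relations and the completeness
relation (Fourier inversion). -/
structure FD (H : Type) [Group H] [Fintype H] [DecidableEq H] where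
  Λ : Type
  I : Λ → Type
  [fΛ : Fintype Λ]
  [dΛ : DecidableEq Λ]
  [fI : ∀ l, Fintype (I l)]
  [dI : ∀ l, DecidableEq (I l)]
  ρ : ∀ l, H →* Matrix (I l) (I l) ℂ
  orth : ∀ x x' : Σ l, I l × I l,
    ∑ h : H, ρ x.1 h x.2.1 x.2.2 *
      ((Fintype.card (I x'.1) : ℂ) / Fintype.card H * ρ x'.1 h⁻¹ x'.2.2 x'.2.1) =
      if x = x' then 1 else 0
  complete : ∀ h h' : H,
    ∑ x : Σ l, I l × I l, ρ x.1 h x.2.1 x.2.2 *
      ((Fintype.card (I x.1) : ℂ) / Fintype.card H * ρ x.1 h'⁻¹ x.2.2 x.2.1) =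
      if h = h' then 1 else 0

attribute [instance] FD.fΛ FD.dΛ FD.fI FD.dI

variable {H : Type} [Group H] [Fintype H] [DecidableEq H]

/-- The matrix unit `(a, b)` of the block `l` as a function on the group. -/
noncomputable def FD.u (F : FD H) (l : F.Λ) (a b : F.I l) (h : H) : ℂ :=
  (Fintype.card (F.I l) : ℂ) / Fintype.card H * F.ρ l h⁻¹ b a

/-- Types: a block and a diagonal position. -/
abbrev FD.T (F : FD H) : Type := Σ l, F.I l

/-- The diagonal matrix unit of type `t` as a function on the group. -/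
noncomputable def FD.e (F : FD H) (t : F.T) (h : H) : ℂ := F.u t.1 t.2 t.2 h

section aux

variable {n : ℕ} {d : Fin n → ℕ}

/-- the matrix unit `x` -/
private def mu (x : Σ l : Fin n, Fin (d l) × Fin (d l)) :
    Π l : Fin n, Matrix (Fin (d l)) (Fin (d l)) ℂ :=
  Pi.single x.1 (Matrix.single x.2.1 x.2.2 (1 : ℂ))

private theorem mu_apply (x : Σ l : Fin n, Fin (d l) × Fin (d l)) (l : Fin n) (a b : Fin (d l)) :
    mu x l a b = if x = ⟨l, (a, b)⟩ then 1 else 0 := by
  obtain ⟨l', a', b'⟩ := x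
  unfold mu
  by_cases hl : l' = l
  · subst hl
    rw [Pi.single_eq_same, Matrix.single_apply]
    by_cases h : a' = a ∧ b' = b
    · obtain ⟨rfl, rfl⟩ := h
      rw [if_pos ⟨rfl, rfl⟩, if_pos rfl]
    · rw [if_neg h, if_neg]
      intro h2
      apply h
      have h3 := eq_of_heq (Sigma.mk.inj h2).2
      exact ⟨congrArg Prod.fst h3, congrArg Prod.snd h3⟩
  · rw [Pi.single_eq_of_ne (Ne.symm hl), if_neg]
    · rfl
    · intro h2
      exact hl (Sigma.mk.inj h2).1

private theorem eq_sum_mu (y : Π l : Fin n, Matrix (Fin (d l)) (Fin (d l)) ℂ) :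
    y = ∑ x : Σ l : Fin n, Fin (d l) × Fin (d l), y x.1 x.2.1 x.2.2 • mu x := by
  funext l
  ext a b
  rw [Finset.sum_apply, Matrix.sum_apply]
  have h1 : ∀ x : Σ l : Fin n, Fin (d l) × Fin (d l),
      (y x.1 x.2.1 x.2.2 • mu x) l a b =
        if (⟨l, (a, b)⟩ : Σ l : Fin n, Fin (d l) × Fin (d l)) = x then y x.1 x.2.1 x.2.2 else 0 := by
    intro x
    change y x.1 x.2.1 x.2.2 * mu x l a b = _
    rw [mu_apply]
    by_cases h : x = ⟨l, (a, b)⟩
    · rw [if_pos h, if_pos h.symm, mul_one]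
    · rw [if_neg h, if_neg (fun h2 => h h2.symm), mul_zero]
  rw [Finset.sum_congr rfl fun x _ => h1 x, Finset.sum_ite_eq, if_pos (Finset.mem_univ _)]

private theorem mu_mul (l : Fin n) (a b : Fin (d l))
    (y : Π l : Fin n, Matrix (Fin (d l)) (Fin (d l)) ℂ) :
    mu ⟨l, (a, b)⟩ * y = ∑ c, y l b c • mu ⟨l, (a, c)⟩ := by
  funext l'
  by_cases hl : l' = l
  · subst hl
    ext a' b'
    rw [Finset.sum_apply, Matrix.sum_apply]
    change (mu ⟨l', (a, b)⟩ l' * y l') a' b' = ∑ c, y l' b c * mu ⟨l', (a, c)⟩ l' a' b'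
    rw [Matrix.mul_apply]
    simp only [mu_apply, Sigma.mk.injEq, heq_eq_eq, true_and, Prod.mk.injEq]
    by_cases ha : a = a'
    · simp [ha]
    · simp [ha]
  · ext a' b'
    rw [Finset.sum_apply, Matrix.sum_apply]
    change (mu ⟨l, (a, b)⟩ l' * y l') a' b' = ∑ c, y l b c * mu ⟨l, (a, c)⟩ l' a' b'
    rw [Matrix.mul_apply]
    have h1 : ∀ c c', mu ⟨l, (a, c)⟩ l' a' c' = 0 := by
      intro c c'
      rw [mu_apply, if_neg]
      intro h2
      exact hl (Sigma.mk.inj h2).1.symm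
    rw [Finset.sum_eq_zero fun c _ => by rw [h1, zero_mul],
      Finset.sum_eq_zero fun c _ => by rw [h1, mul_zero]]

end aux

private theorem coeff_one_comm (x y : MonoidAlgebra ℂ H) : (x * y).coeff 1 = (y * x).coeff 1 := by
  rw [MonoidAlgebra.coeff_mul, MonoidAlgebra.coeff_mul, Finsupp.sum_comm]
  refine Finsupp.sum_congr fun a _ => Finsupp.sum_congr fun b _ => ?_
  by_cases h : b * a = 1
  · rw [if_pos h, if_pos (mul_eq_one_comm.1 h), mul_comm]
  · rw [if_neg h, if_neg fun h2 => h (mul_eq_one_comm.1 h2)]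

private theorem eq_sum_of (x : MonoidAlgebra ℂ H) :
    x = ∑ h, x.coeff h • MonoidAlgebra.of ℂ H h := by
  ext h
  rw [MonoidAlgebra.coeff_sum, Finsupp.finsetSum_apply]
  have h1 : ∀ g, (x.coeff g • MonoidAlgebra.of ℂ H g).coeff h = if h = g then x.coeff g else 0 := by
    intro g
    rw [MonoidAlgebra.coeff_smul_apply, MonoidAlgebra.of_apply, MonoidAlgebra.coeff_single, Finsupp.single_apply,
      smul_eq_mul]
    by_cases hg : g = h
    · rw [if_pos hg, if_pos hg.symm, mul_one]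
    · rw [if_neg hg, if_neg fun h2 => hg h2.symm, mul_zero]
  rw [Finset.sum_congr rfl fun g _ => h1 g, Finset.sum_ite_eq, if_pos (Finset.mem_univ _)]

/-- PROOF. Let `φ : MonoidAlgebra ℂ H ≃ₐ ∏ l, M_(d l)(ℂ)`
(`IsSemisimpleRing.exists_algEquiv_pi_matrix_of_isAlgClosed` and Maschke), `Λ = Fin n`, `I l = Fin (d l)`,
`ρ l h = φ (of h) l`, `e_(l,a,b) = φ.symm` of the matrix unit. From `φ (φ.symm M) = M`:
`∑ h, e_(l,a,b) h * ρ l' h a' b'` is `1` if `(l,a,b) = (l',a',b')` and `0` otherwise; from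
`φ.symm (φ (of h)) = of h`: `∑ (l,a,b), ρ l h a b * e_(l,a,b) h' = if h = h' then 1 else 0`. It remains to show that
`e_(l,a,b) h = d l / card H * ρ l h⁻¹ b a`: the functional coefficient at `1` is central, so for `x` with
`φ x = M` in the block `l` it is `c l * trace M` (matrix units: `e_(l,a,b) 1 = 0` for `a ≠ b` and `e_(l,a,a) 1` does
not depend on `a`); apply this to `x = e_(l,a,b) * of h⁻¹`, so `e_(l,a,b) h = c l * ρ l h⁻¹ b a`; finally
`d l ^ 2 = ∑ a b h, ρ l h a b * e_(l,a,b) h = c l * ∑ h, trace (ρ l h * ρ l h⁻¹) = c l * card H * d l`. -/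
theorem exists_fd (H : Type) [Group H] [Fintype H] [DecidableEq H] : Nonempty (FD H) := by
  obtain ⟨n, d, hd, ⟨φ⟩⟩ :=
    IsSemisimpleRing.exists_algEquiv_pi_matrix_of_isAlgClosed ℂ (MonoidAlgebra ℂ H)
  obtain ⟨ρ, hρ⟩ : ∃ ρ : ∀ l, H →* Matrix (Fin (d l)) (Fin (d l)) ℂ,
      ∀ l h, ρ l h = φ (MonoidAlgebra.of ℂ H h) l :=
    ⟨fun l => ⟨⟨fun h => φ (MonoidAlgebra.of ℂ H h) l, by
        rw [map_one, map_one]
        rfl⟩, fun x y => by
        change φ (MonoidAlgebra.of ℂ H (x * y)) l =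
          φ (MonoidAlgebra.of ℂ H x) l * φ (MonoidAlgebra.of ℂ H y) l
        rw [map_mul, map_mul]
        rfl⟩, fun _ _ => rfl⟩
  obtain ⟨E, hE⟩ : ∃ E : (Σ l : Fin n, Fin (d l) × Fin (d l)) → MonoidAlgebra ℂ H,
      ∀ x, E x = φ.symm (mu x) := ⟨_, fun _ => rfl⟩
  have hφE : ∀ x, φ (E x) = mu x := fun x => by rw [hE, AlgEquiv.apply_symm_apply]
  -- orthogonality
  have hor : ∀ x x' : Σ l : Fin n, Fin (d l) × Fin (d l),
      ∑ h : H, ρ x.1 h x.2.1 x.2.2 * (E x').coeff h = if x = x' then 1 else 0 := by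
    intro x x'
    have h1 : φ (E x') x.1 x.2.1 x.2.2 = if x = x' then 1 else 0 := by
      rw [hφE, mu_apply]
      by_cases h : x = x'
      · rw [if_pos h, if_pos h.symm]
      · rw [if_neg h, if_neg fun h2 => h h2.symm]
    rw [← h1]
    conv_rhs => rw [eq_sum_of (E x')]
    rw [map_sum, Finset.sum_apply, Matrix.sum_apply]
    refine Finset.sum_congr rfl fun h _ => ?_
    rw [map_smul, hρ, mul_comm]
    rfl
  -- completeness
  have hco : ∀ h h' : H, ∑ x : Σ l : Fin n, Fin (d l) × Fin (d l),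
      ρ x.1 h x.2.1 x.2.2 * (E x).coeff h' = if h = h' then 1 else 0 := by
    intro h h'
    have h1 : (MonoidAlgebra.of ℂ H h).coeff h' = if h = h' then 1 else 0 := by
      rw [MonoidAlgebra.of_apply, MonoidAlgebra.coeff_single, Finsupp.single_apply]
    rw [← h1]
    have h2 : MonoidAlgebra.of ℂ H h =
        ∑ x : Σ l : Fin n, Fin (d l) × Fin (d l), ρ x.1 h x.2.1 x.2.2 • E x := by
      apply φ.injective
      rw [map_sum]
      conv_lhs => rw [eq_sum_mu (φ (MonoidAlgebra.of ℂ H h))]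
      refine Finset.sum_congr rfl fun x _ => ?_
      rw [map_smul, hφE, hρ]
    rw [h2, MonoidAlgebra.coeff_sum, Finsupp.finsetSum_apply]
    refine Finset.sum_congr rfl fun x _ => ?_
    rw [MonoidAlgebra.coeff_smul_apply, smul_eq_mul]
  -- the coefficients of the matrix units
  have hc0 : ∀ (l : Fin n) (a c : Fin (d l)), c ≠ a → (E ⟨l, (a, c)⟩).coeff 1 = 0 := by
    intro l a c hca
    have h1 : E ⟨l, (a, c)⟩ = E ⟨l, (a, a)⟩ * E ⟨l, (a, c)⟩ := by
      apply φ.injective
      rw [map_mul, hφE, hφE, mu_mul, Finset.sum_eq_single c]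
      · rw [mu_apply, if_pos rfl, one_smul]
      · intro b _ hb
        rw [mu_apply, if_neg, zero_smul]
        intro h2
        have h3 := eq_of_heq (Sigma.mk.inj h2).2
        exact hb (congrArg Prod.snd h3).symm
      · intro h2
        exact absurd (Finset.mem_univ _) h2
    have h2 : E ⟨l, (a, c)⟩ * E ⟨l, (a, a)⟩ = 0 := by
      apply φ.injective
      rw [map_mul, hφE, hφE, mu_mul, map_zero]
      refine Finset.sum_eq_zero fun b _ => ?_
      rw [mu_apply, if_neg, zero_smul]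
      intro h2
      have h3 := eq_of_heq (Sigma.mk.inj h2).2
      exact hca (congrArg Prod.fst h3).symm
    rw [h1, coeff_one_comm, h2]
    rfl
  have hc1 : ∀ (l : Fin n) (a b : Fin (d l)) (h : H),
      (E ⟨l, (a, b)⟩).coeff h = ρ l h⁻¹ b a * (E ⟨l, (a, a)⟩).coeff 1 := by
    intro l a b h
    have h1 : (E ⟨l, (a, b)⟩ * MonoidAlgebra.of ℂ H h⁻¹).coeff 1 = (E ⟨l, (a, b)⟩).coeff h := by
      rw [MonoidAlgebra.of_apply, MonoidAlgebra.coeff_mul_single_apply, one_mul, inv_inv, mul_one]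
    have h2 : E ⟨l, (a, b)⟩ * MonoidAlgebra.of ℂ H h⁻¹ = ∑ c, ρ l h⁻¹ b c • E ⟨l, (a, c)⟩ := by
      apply φ.injective
      rw [map_mul, hφE, mu_mul, map_sum]
      refine Finset.sum_congr rfl fun c _ => ?_
      rw [map_smul, hφE, hρ]
    rw [← h1, h2, MonoidAlgebra.coeff_sum, Finsupp.finsetSum_apply, Finset.sum_eq_single a]
    · rw [MonoidAlgebra.coeff_smul_apply, smul_eq_mul]
    · intro c _ hca
      rw [MonoidAlgebra.coeff_smul_apply, hc0 l a c hca, smul_zero]
    · intro h2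
      exact absurd (Finset.mem_univ _) h2
  have hH : (Fintype.card H : ℂ) ≠ 0 := Nat.cast_ne_zero.2 Fintype.card_ne_zero
  have hc2 : ∀ (l : Fin n) (a : Fin (d l)),
      (E ⟨l, (a, a)⟩).coeff 1 = (d l : ℂ) / Fintype.card H := by
    intro l a
    have h1 : ∑ b : Fin (d l), ∑ h : H, ρ l h a b * (E ⟨l, (a, b)⟩).coeff h = d l := by
      rw [Finset.sum_congr rfl fun b _ => by rw [hor ⟨l, (a, b)⟩ ⟨l, (a, b)⟩, if_pos rfl]]
      rw [Finset.sum_const, Finset.card_univ, Fintype.card_fin, nsmul_eq_mul, mul_one]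
    rw [Finset.sum_comm] at h1
    have h2 : ∀ h : H, ∑ b : Fin (d l), ρ l h a b * (E ⟨l, (a, b)⟩).coeff h =
        (E ⟨l, (a, a)⟩).coeff 1 := by
      intro h
      have h3 : (ρ l h * ρ l h⁻¹) a a = 1 := by
        rw [← map_mul, mul_inv_cancel, map_one, Matrix.one_apply_eq]
      rw [Matrix.mul_apply] at h3
      calc ∑ b : Fin (d l), ρ l h a b * (E ⟨l, (a, b)⟩).coeff h
          = ∑ b : Fin (d l), (ρ l h a b * ρ l h⁻¹ b a) * (E ⟨l, (a, a)⟩).coeff 1 :=
            Finset.sum_congr rfl fun b _ => by rw [hc1 l a b h, mul_assoc]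
        _ = _ := by rw [← Finset.sum_mul, h3, one_mul]
    rw [Finset.sum_congr rfl fun h _ => h2 h, Finset.sum_const, Finset.card_univ,
      nsmul_eq_mul] at h1
    rw [eq_div_iff hH, mul_comm]
    exact h1
  have hcE : ∀ (x : Σ l : Fin n, Fin (d l) × Fin (d l)) (h : H),
      (Fintype.card (Fin (d x.1)) : ℂ) / Fintype.card H * ρ x.1 h⁻¹ x.2.2 x.2.1 =
        (E x).coeff h := by
    rintro ⟨l, a, b⟩ h
    rw [hc1, hc2, Fintype.card_fin, mul_comm]
  exact ⟨{ Λ := Fin n, I := fun l => Fin (d l), ρ := ρ,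
           orth := fun x x' => by
             rw [← hor x x']
             exact Finset.sum_congr rfl fun h _ => by rw [hcE],
           complete := fun h h' => by
             rw [← hco h h']
             exact Finset.sum_congr rfl fun x _ => by rw [hcE] }⟩

end MP0775d3.Sg
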