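import Pool.Agent.Lib.MP_0775d3_lc.SG.Fd

/-! Consequences of the orthogonality relations. -/

set_option linter.unusedSectionVars false
set_option linter.unusedVariables false

namespace MP0775d3.Sg

open Matrix

variable {H : Type} [Group H] [Fintype H] [DecidableEq H]

/-- The Fourier matrix of a group. -/
noncomputable def FD.four (F : FD H) : Matrix (Σ l, F.I l × F.I l) H ℂ :=
  Matrix.of fun x h => F.ρ x.1 h x.2.1 x.2.2

/-- Its inverse. -/
noncomputable def FD.four' (F : FD H) : Matrix H (Σ l, F.I l × F.I l) ℂ :=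
  Matrix.of fun h x => F.u x.1 x.2.1 x.2.2 h

theorem FD.four_mul (F : FD H) : F.four * F.four' = 1 := by
  ext x x'
  rw [Matrix.mul_apply, Matrix.one_apply]
  exact F.orth x x'

theorem FD.four'_mul (F : FD H) : F.four' * F.four = 1 := by
  ext h h'
  rw [Matrix.mul_apply, Matrix.one_apply]
  have h1 := F.complete h' h
  rw [if_congr (eq_comm : h' = h ↔ h = h') rfl rfl] at h1
  rw [← h1]
  exact Finset.sum_congr rfl fun x _ => mul_comm _ _

/-- PROOF. `FD.four`, `FD.four'` are inverse to each other (rank or trace of `1`). -/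
theorem FD.card_sigma (F : FD H) : Fintype.card (Σ l, F.I l × F.I l) = Fintype.card H := by
  have h1 := Matrix.trace_mul_comm F.four F.four'
  rw [F.four_mul, F.four'_mul, Matrix.trace_one, Matrix.trace_one] at h1
  exact_mod_cast h1

theorem FD.card_le (F : FD H) (l : F.Λ) : Fintype.card (F.I l) ≤ Fintype.card H := by
  rw [← F.card_sigma]
  refine Fintype.card_le_of_injective
    (fun a : F.I l => (⟨l, (a, a)⟩ : Σ l, F.I l × F.I l)) fun a b hab => ?_
  have h1 := eq_of_heq (Sigma.mk.inj_iff.1 hab).2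
  exact (Prod.mk.inj h1).1

/-- PROOF. `complete` for `h = 1`. -/
theorem FD.sum_e (F : FD H) (h : H) : ∑ t : F.T, F.e t h = if h = 1 then 1 else 0 := by
  have h1 := F.complete 1 h
  rw [if_congr (eq_comm : (1 : H) = h ↔ h = 1) rfl rfl] at h1
  rw [← h1, Fintype.sum_sigma, Fintype.sum_sigma]
  refine Finset.sum_congr rfl fun l _ => ?_
  rw [Fintype.sum_prod_type]
  refine Finset.sum_congr rfl fun a _ => ?_
  rw [Finset.sum_eq_single a]
  · simp only [map_one, Matrix.one_apply_eq, one_mul]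
    rfl
  · intro b _ hb
    simp only [map_one, Matrix.one_apply_ne (Ne.symm hb), zero_mul]
  · intro h2
    exact absurd (Finset.mem_univ _) h2

theorem FD.e_one (F : FD H) (t : F.T) :
    F.e t 1 = (Fintype.card (F.I t.1) : ℂ) / Fintype.card H := by
  unfold FD.e FD.u
  rw [inv_one, map_one, Matrix.one_apply_eq, mul_one]

private theorem fdLem_conv (F : FD H) (l l' : F.Λ) (a b : F.I l) (c d : F.I l') (g : H) :
    ∑ h : H, F.u l a b h * F.u l' c d (h⁻¹ * g) =
      ∑ k : F.I l', (Fintype.card (F.I l') : ℂ) / Fintype.card H * F.ρ l' g⁻¹ d k *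
        if (⟨l', (k, c)⟩ : Σ l, F.I l × F.I l) = ⟨l, (a, b)⟩ then 1 else 0 := by
  have h1 : ∀ h : H, F.u l a b h * F.u l' c d (h⁻¹ * g) =
      ∑ k : F.I l', (Fintype.card (F.I l') : ℂ) / Fintype.card H * F.ρ l' g⁻¹ d k *
        (F.ρ l' h k c * ((Fintype.card (F.I l) : ℂ) / Fintype.card H * F.ρ l h⁻¹ b a)) := by
    intro h
    unfold FD.u
    rw [_root_.mul_inv_rev, inv_inv, map_mul, Matrix.mul_apply, Finset.mul_sum, Finset.mul_sum]
    refine Finset.sum_congr rfl fun k _ => ?_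
    ring
  rw [Finset.sum_congr rfl fun h _ => h1 h, Finset.sum_comm]
  refine Finset.sum_congr rfl fun k _ => ?_
  rw [← Finset.mul_sum]
  congr 1
  exact F.orth ⟨l', (k, c)⟩ ⟨l, (a, b)⟩

private theorem fdLem_sum {M : Type} [AddCommMonoid M] (Q : H → H → H → M) :
    ∑ g, ∑ h, Q h (h⁻¹ * g) g = ∑ h, ∑ m, Q h m (h * m) := by
  rw [Finset.sum_comm]
  refine Finset.sum_congr rfl fun h _ => ?_
  refine (Fintype.sum_equiv (Equiv.mulLeft h) (fun m => Q h m (h * m))
    (fun g => Q h (h⁻¹ * g) g) fun m => ?_).symm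
  rw [Equiv.coe_mulLeft, inv_mul_cancel_left]

/-- Convolution of matrix units. PROOF. `ρ l (g⁻¹ * h) = ρ l g⁻¹ * ρ l h`, `orth`. -/
theorem FD.conv (F : FD H) (l : F.Λ) (a b c d : F.I l) (g : H) :
    ∑ h : H, F.u l a b h * F.u l c d (h⁻¹ * g) = if b = c then F.u l a d g else 0 := by
  rw [fdLem_conv, Finset.sum_eq_single a]
  · by_cases hbc : b = c
    · subst hbc
      rw [if_pos rfl, if_pos rfl, mul_one]
      rfl
    · rw [if_neg hbc, if_neg, mul_zero]
      intro h1
      exact hbc (Prod.mk.inj (eq_of_heq (Sigma.mk.inj_iff.1 h1).2)).2.symm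
  · intro k _ hk
    rw [if_neg, mul_zero]
    intro h1
    exact hk (Prod.mk.inj (eq_of_heq (Sigma.mk.inj_iff.1 h1).2)).1
  · intro h1
    exact absurd (Finset.mem_univ _) h1

/-- The diagonal units are orthogonal idempotents for the convolution. -/
theorem FD.conv_e (F : FD H) (t t' : F.T) (g : H) :
    ∑ h : H, F.e t h * F.e t' (h⁻¹ * g) = if t = t' then F.e t g else 0 := by
  by_cases htt : t = t'
  · subst htt
    rw [if_pos rfl]
    have h1 := F.conv t.1 t.2 t.2 t.2 t.2 g
    rw [if_pos rfl] at h1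
    exact h1
  · rw [if_neg htt]
    have h1 := fdLem_conv F t.1 t'.1 t.2 t.2 t'.2 t'.2 g
    refine Eq.trans h1 (Finset.sum_eq_zero fun k _ => ?_)
    rw [if_neg, mul_zero]
    intro h2
    apply htt
    have h3 : (fun x : Σ l, F.I l × F.I l => (⟨x.1, x.2.2⟩ : F.T)) ⟨t'.1, (k, t'.2)⟩ =
      (fun x : Σ l, F.I l × F.I l => (⟨x.1, x.2.2⟩ : F.T)) ⟨t.1, (t.2, t.2)⟩ := by rw [h2]
    exact h3.symm

/-- In a representation the diagonal units give orthogonal idempotents. PROOF. `conv_e`. -/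
theorem FD.idem (F : FD H) {m : Type} [Fintype m] [DecidableEq m] (R : H →* Matrix m m ℂ)
    (t t' : F.T) : (∑ h, F.e t h • R h) * (∑ h, F.e t' h • R h) =
      if t = t' then ∑ h, F.e t h • R h else 0 := by
  have h1 : (∑ h, F.e t h • R h) * (∑ h, F.e t' h • R h) =
      ∑ h, ∑ k, (F.e t h * F.e t' k) • R (h * k) := by
    rw [Finset.sum_mul_sum]
    refine Finset.sum_congr rfl fun h _ => Finset.sum_congr rfl fun k _ => ?_
    rw [smul_mul_smul_comm, map_mul]
  rw [h1, ← fdLem_sum fun h k g => (F.e t h * F.e t' k) • R g]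
  simp_rw [← Finset.sum_smul, F.conv_e t t']
  by_cases htt : t = t'
  · simp only [if_pos htt]
  · simp only [if_neg htt, zero_smul, Finset.sum_const_zero]

/-- PROOF. `sum_e`. -/
theorem FD.idem_sum (F : FD H) {m : Type} [Fintype m] [DecidableEq m] (R : H →* Matrix m m ℂ) :
    ∑ t : F.T, ∑ h, F.e t h • R h = 1 := by
  rw [Finset.sum_comm]
  simp_rw [← Finset.sum_smul, F.sum_e]
  rw [Finset.sum_eq_single 1]
  · rw [if_pos rfl, one_smul, map_one]
  · intro b _ hb
    rw [if_neg hb, zero_smul]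
  · intro h
    exact absurd (Finset.mem_univ _) h

/-- PROOF. `e_(l,a) = u_(a,b) * u_(b,a)` and `e_(l,b) = u_(b,a) * u_(a,b)` (convolution, `conv`), and
`χ (g * h) = χ (h * g)`. -/
theorem FD.class_indep (F : FD H) (χ : H → ℂ) (hχ : ∀ g h, χ (g * h * g⁻¹) = χ h) (l : F.Λ)
    (a b : F.I l) : ∑ h, F.e ⟨l, a⟩ h * χ h = ∑ h, F.e ⟨l, b⟩ h * χ h := by
  have key : ∀ a b : F.I l, ∑ h, F.e ⟨l, a⟩ h * χ h =
      ∑ k, ∑ m, F.u l a b k * F.u l b a m * χ (k * m) := by
    intro a b
    rw [← fdLem_sum fun k m h => F.u l a b k * F.u l b a m * χ h]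
    refine Finset.sum_congr rfl fun h _ => ?_
    have h1 := F.conv l a b b a h
    rw [if_pos rfl] at h1
    rw [← Finset.sum_mul, h1]
    rfl
  rw [key a b, key b a, Finset.sum_comm]
  refine Finset.sum_congr rfl fun m _ => Finset.sum_congr rfl fun k _ => ?_
  have h1 := hχ m (k * m)
  have h2 : m * (k * m) * m⁻¹ = m * k := by group
  rw [h2] at h1
  rw [h1]
  ring

end MP0775d3.Sg
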