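import Mathlib

/-! Kronecker products of families of matrices. -/

set_option linter.unusedSectionVars false
set_option linter.unusedVariables false

namespace MP0775d3.Sg

open Matrix

/-- The Kronecker product of a family of matrices. -/
def kron {U : Type} [Fintype U] {I I' : U → Type} (M : ∀ u, Matrix (I u) (I' u) ℂ) :
    Matrix (∀ u, I u) (∀ u, I' u) ℂ := Matrix.of fun x x' => ∏ u, M u (x u) (x' u)

theorem kron_apply {U : Type} [Fintype U] {I I' : U → Type} (M : ∀ u, Matrix (I u) (I' u) ℂ)
    (x : ∀ u, I u) (x' : ∀ u, I' u) : kron M x x' = ∏ u, M u (x u) (x' u) := rfl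

/-- PROOF. `Finset.prod_univ_sum`, `Fintype.piFinset_univ`. -/
theorem kron_mul {U : Type} [Fintype U] [DecidableEq U] {I I' I'' : U → Type}
    [∀ u, Fintype (I' u)] (M : ∀ u, Matrix (I u) (I' u) ℂ) (N : ∀ u, Matrix (I' u) (I'' u) ℂ) :
    kron M * kron N = kron fun u => M u * N u := by
  ext x x'
  rw [Matrix.mul_apply, kron_apply]
  simp only [kron_apply, Matrix.mul_apply, ← Finset.prod_mul_distrib]
  rw [Finset.prod_univ_sum, Fintype.piFinset_univ]

theorem kron_one {U : Type} [Fintype U] [DecidableEq U] {I : U → Type} [∀ u, Fintype (I u)]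
    [∀ u, DecidableEq (I u)] : kron (fun u => (1 : Matrix (I u) (I u) ℂ)) = 1 := by
  ext x x'
  rw [kron_apply, Matrix.one_apply]
  by_cases h : x = x'
  · subst h
    rw [if_pos rfl]
    exact Finset.prod_eq_one fun u _ => Matrix.one_apply_eq (x u)
  · rw [if_neg h]
    obtain ⟨u, hu⟩ := Function.ne_iff.1 h
    exact Finset.prod_eq_zero (Finset.mem_univ u) (Matrix.one_apply_ne hu)

end MP0775d3.Sg
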