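import Pool.Agent.Lib.MP_0775d3_lc.SG.FdLem
import Pool.Agent.Lib.MP_0775d3_lc.SG.Kron

/-! Fourier data of a product of groups. -/

set_option linter.unusedSectionVars false
set_option linter.unusedVariables false

namespace MP0775d3.Sg

open Matrix

variable {ι : Type} [Fintype ι] [DecidableEq ι] {Y : ι → Type} [∀ i, Group (Y i)]
  [∀ i, Fintype (Y i)] [∀ i, DecidableEq (Y i)]

/-- families of pairs of positions in blocks -/
private def fpEquiv (F : ∀ i, FD (Y i)) :
    (Σ l : (∀ i, (F i).Λ), (∀ i, (F i).I (l i)) × (∀ i, (F i).I (l i))) ≃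
      ∀ i, Σ l, (F i).I l × (F i).I l where
  toFun x := fun i => ⟨x.1 i, x.2.1 i, x.2.2 i⟩
  invFun f := ⟨fun i => (f i).1, fun i => (f i).2.1, fun i => (f i).2.2⟩
  left_inv _ := rfl
  right_inv _ := rfl

/-- families of types -/
private def fpT (F : ∀ i, FD (Y i)) :
    (∀ i, Σ l, (F i).I l) ≃ Σ l : (∀ i, (F i).Λ), ∀ i, (F i).I (l i) where
  toFun t := ⟨fun i => (t i).1, fun i => (t i).2⟩
  invFun x := fun i => ⟨x.1 i, x.2 i⟩
  left_inv _ := rfl
  right_inv _ := rfl

private theorem fp_ite (P : ι → Prop) [∀ i, Decidable (P i)] (Q : Prop) [Decidable Q]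
    (h : Q ↔ ∀ i, P i) : (∏ i, if P i then (1 : ℂ) else 0) = if Q then 1 else 0 := by
  by_cases hQ : Q
  · rw [if_pos hQ]
    exact Finset.prod_eq_one fun i _ => if_pos (h.1 hQ i)
  · rw [if_neg hQ]
    have h1 : ¬ ∀ i, P i := fun h2 => hQ (h.2 h2)
    push Not at h1
    obtain ⟨i, hi⟩ := h1
    exact Finset.prod_eq_zero (Finset.mem_univ i) (if_neg hi)

private theorem fp_term (F : ∀ i, FD (Y i)) (l l' : ∀ i, (F i).Λ) (a b : ∀ i, (F i).I (l i))
    (c d : ∀ i, (F i).I (l' i)) (h h' : ∀ i, Y i) :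
    (∏ i, (F i).ρ (l i) (h i) (a i) (b i)) *
      (((Fintype.card (∀ i, (F i).I (l' i)) : ℕ) : ℂ) / ((Fintype.card (∀ i, Y i) : ℕ) : ℂ) *
        ∏ i, (F i).ρ (l' i) (h' i) (c i) (d i)) =
      ∏ i, ((F i).ρ (l i) (h i) (a i) (b i) *
        ((Fintype.card ((F i).I (l' i)) : ℂ) / Fintype.card (Y i) *
          (F i).ρ (l' i) (h' i) (c i) (d i))) := by
  rw [Fintype.card_pi, Fintype.card_pi, Nat.cast_prod, Nat.cast_prod, ← Finset.prod_div_distrib,
    ← Finset.prod_mul_distrib, ← Finset.prod_mul_distrib]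

/-- the representations -/
private noncomputable def fpRho (F : ∀ i, FD (Y i)) (l : ∀ i, (F i).Λ) :
    (∀ i, Y i) →* Matrix (∀ i, (F i).I (l i)) (∀ i, (F i).I (l i)) ℂ where
  toFun h := kron fun i => (F i).ρ (l i) (h i)
  map_one' := by
    have h1 : (fun i => (F i).ρ (l i) ((1 : ∀ i, Y i) i)) =
        fun i => (1 : Matrix ((F i).I (l i)) ((F i).I (l i)) ℂ) := by
      funext i
      rw [Pi.one_apply, map_one]
    rw [h1, kron_one]
  map_mul' g h := by
    rw [kron_mul]
    have h1 : (fun i => (F i).ρ (l i) ((g * h) i)) =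
        fun i => (F i).ρ (l i) (g i) * (F i).ρ (l i) (h i) := by
      funext i
      rw [Pi.mul_apply, map_mul]
    rw [h1]

private theorem fpRho_apply (F : ∀ i, FD (Y i)) (l : ∀ i, (F i).Λ) (h : ∀ i, Y i)
    (a b : ∀ i, (F i).I (l i)) :
    fpRho F l h a b = ∏ i, (F i).ρ (l i) (h i) (a i) (b i) := rfl

/-- The product: blocks are families of blocks, representations are Kronecker products.
PROOF of the relations: the sums over `Σ l, I l × I l` and over `∀ i, Y i` are products of sums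
(`Finset.prod_univ_sum`; the index set of the blocks is equivalent to
`∀ i, Σ l, (F i).I l × (F i).I l`), the constants are products (`Fintype.card_pi`). -/
theorem exists_pi (F : ∀ i, FD (Y i)) : ∃ (E : FD (∀ i, Y i)) (τ : (∀ i, (F i).T) ≃ E.T),
    (∀ t y, E.e (τ t) y = ∏ i, (F i).e (t i) (y i)) := by
  let E : FD (∀ i, Y i) :=
    { Λ := ∀ i, (F i).Λ
      I := fun l => ∀ i, (F i).I (l i)
      ρ := fpRho F
      orth := by
        intro x x'
        have h1 : ∀ h : ∀ i, Y i, fpRho F x.1 h x.2.1 x.2.2 *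
            (((Fintype.card (∀ i, (F i).I (x'.1 i)) : ℕ) : ℂ) /
              ((Fintype.card (∀ i, Y i) : ℕ) : ℂ) * fpRho F x'.1 h⁻¹ x'.2.2 x'.2.1) =
            ∏ i, ((F i).ρ (x.1 i) (h i) (x.2.1 i) (x.2.2 i) *
              ((Fintype.card ((F i).I (x'.1 i)) : ℂ) / Fintype.card (Y i) *
                (F i).ρ (x'.1 i) (h i)⁻¹ (x'.2.2 i) (x'.2.1 i))) := by
          intro h
          rw [fpRho_apply, fpRho_apply, fp_term]
          rfl
        rw [Finset.sum_congr rfl fun h _ => h1 h]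
        have h2 := Finset.prod_univ_sum (fun i => (Finset.univ : Finset (Y i)))
          (fun i (h : Y i) => (F i).ρ (x.1 i) h (x.2.1 i) (x.2.2 i) *
              ((Fintype.card ((F i).I (x'.1 i)) : ℂ) / Fintype.card (Y i) *
                (F i).ρ (x'.1 i) h⁻¹ (x'.2.2 i) (x'.2.1 i)))
        rw [Fintype.piFinset_univ] at h2
        rw [← h2]
        rw [Finset.prod_congr rfl fun i _ => (F i).orth ⟨x.1 i, x.2.1 i, x.2.2 i⟩
          ⟨x'.1 i, x'.2.1 i, x'.2.2 i⟩]
        refine fp_ite _ _ ⟨?_, ?_⟩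
        · rintro rfl i
          rfl
        · intro h
          exact (fpEquiv F).injective (funext h)
      complete := by
        intro h h'
        have h1 : ∀ x : (Σ l : (∀ i, (F i).Λ), (∀ i, (F i).I (l i)) × (∀ i, (F i).I (l i))),
            fpRho F x.1 h x.2.1 x.2.2 *
            (((Fintype.card (∀ i, (F i).I (x.1 i)) : ℕ) : ℂ) /
              ((Fintype.card (∀ i, Y i) : ℕ) : ℂ) * fpRho F x.1 h'⁻¹ x.2.2 x.2.1) =
            ∏ i, ((F i).ρ (fpEquiv F x i).1 (h i) (fpEquiv F x i).2.1 (fpEquiv F x i).2.2 *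
              ((Fintype.card ((F i).I (fpEquiv F x i).1) : ℂ) / Fintype.card (Y i) *
                (F i).ρ (fpEquiv F x i).1 (h' i)⁻¹ (fpEquiv F x i).2.2
                  (fpEquiv F x i).2.1)) := by
          intro x
          rw [fpRho_apply, fpRho_apply, fp_term]
          rfl
        rw [Finset.sum_congr rfl fun x _ => h1 x]
        rw [(fpEquiv F).sum_comp (fun f => ∏ i, ((F i).ρ (f i).1 (h i) (f i).2.1 (f i).2.2 *
              ((Fintype.card ((F i).I (f i).1) : ℂ) / Fintype.card (Y i) *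
                (F i).ρ (f i).1 (h' i)⁻¹ (f i).2.2 (f i).2.1)))]
        have h2 := Finset.prod_univ_sum
          (fun i => (Finset.univ : Finset (Σ l, (F i).I l × (F i).I l)))
          (fun i x => (F i).ρ x.1 (h i) x.2.1 x.2.2 *
              ((Fintype.card ((F i).I x.1) : ℂ) / Fintype.card (Y i) *
                (F i).ρ x.1 (h' i)⁻¹ x.2.2 x.2.1))
        rw [Fintype.piFinset_univ] at h2
        rw [← h2]
        rw [Finset.prod_congr rfl fun i _ => (F i).complete (h i) (h' i)]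
        exact fp_ite _ _ funext_iff }
  refine ⟨E, fpT F, fun t y => ?_⟩
  change (((Fintype.card (∀ i, (F i).I (t i).1) : ℕ) : ℂ) / ((Fintype.card (∀ i, Y i) : ℕ) : ℂ) *
    fpRho F (fun i => (t i).1) y⁻¹ (fun i => (t i).2) (fun i => (t i).2)) =
      ∏ i, ((Fintype.card ((F i).I (t i).1) : ℂ) / Fintype.card (Y i) *
        (F i).ρ (t i).1 (y i)⁻¹ (t i).2 (t i).2)
  rw [fpRho_apply, Fintype.card_pi, Fintype.card_pi, Nat.cast_prod, Nat.cast_prod,
    ← Finset.prod_div_distrib, ← Finset.prod_mul_distrib]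
  rfl

end MP0775d3.Sg
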