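import Pool.Agent.Lib.MP_0775d3_lc.SG.Dc

/-! The Fourier transform in the coordinates `Z i j`. -/

set_option linter.unusedSectionVars false
set_option linter.unusedVariables false

namespace MP0775d3.Sg

open Matrix

variable {ι : Type} [Fintype ι] [DecidableEq ι] {Y : ι → Type} [∀ i, Group (Y i)]

/-- The coordinates of `X`, regrouped. -/
private def fourEqX (C : DC Y) : C.X ≃
    Σ _ : ((∀ i, C.P i) × (∀ j, C.Q j)), ∀ u : ι × ι, C.Z u.1 u.2 where
  toFun x := ⟨(x.1, x.2.1), fun u => x.2.2 u.1 u.2⟩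
  invFun m := (m.1.1, m.1.2, fun i j => m.2 (i, j))
  left_inv _ := rfl
  right_inv _ := rfl

/-- The coordinates of `J`, regrouped. -/
private def fourEqJ (C : DC Y) (F : C.FF) : C.J F ≃
    Σ _ : ((∀ i, C.P i) × (∀ j, C.Q j)),
      ∀ u : ι × ι, Σ l : (F u.1 u.2).Λ, (F u.1 u.2).I l × (F u.1 u.2).I l :=
  (C.regroup F).trans (Equiv.sigmaEquivProd _ _).symm

private theorem four_eq_aux (C : DC Y) (F : C.FF) : C.four F =
    (Matrix.blockDiagonal' fun _ : ((∀ i, C.P i) × (∀ j, C.Q j)) =>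
      kron fun u : ι × ι => (F u.1 u.2).four).submatrix (fourEqJ C F) (fourEqX C) := by
  ext k x
  rw [Matrix.submatrix_apply]
  have hk : fourEqJ C F k = ⟨(fun i => (k.2 (.inl i)).1, fun j => (k.2 (.inr j)).1),
    fun u => ⟨k.1 u.1 u.2, (k.2 (.inl u.1)).2 u.2, (k.2 (.inr u.2)).2 u.1⟩⟩ := rfl
  have hx : fourEqX C x = ⟨(x.1, x.2.1), fun u => x.2.2 u.1 u.2⟩ := rfl
  rw [hk, hx]
  by_cases h : (∀ i, (k.2 (.inl i)).1 = x.1 i) ∧ (∀ j, (k.2 (.inr j)).1 = x.2.1 j)
  · have h' : ((fun i => (k.2 (.inl i)).1, fun j => (k.2 (.inr j)).1) :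
        (∀ i, C.P i) × (∀ j, C.Q j)) = (x.1, x.2.1) := Prod.ext (funext h.1) (funext h.2)
    rw [h', Matrix.blockDiagonal'_apply_eq, kron_apply, Fintype.prod_prod_type]
    exact if_pos h
  · have h' : ((fun i => (k.2 (.inl i)).1, fun j => (k.2 (.inr j)).1) :
        (∀ i, C.P i) × (∀ j, C.Q j)) ≠ (x.1, x.2.1) := fun e =>
      h ⟨fun i => congrFun (congrArg Prod.fst e) i, fun j => congrFun (congrArg Prod.snd e) j⟩
    rw [Matrix.blockDiagonal'_apply_ne _ _ _ h']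
    exact if_neg h

private theorem four'_eq_aux (C : DC Y) (F : C.FF) : C.four' F =
    (Matrix.blockDiagonal' fun _ : ((∀ i, C.P i) × (∀ j, C.Q j)) =>
      kron fun u : ι × ι => (F u.1 u.2).four').submatrix (fourEqX C) (fourEqJ C F) := by
  ext x k
  rw [Matrix.submatrix_apply]
  have hk : fourEqJ C F k = ⟨(fun i => (k.2 (.inl i)).1, fun j => (k.2 (.inr j)).1),
    fun u => ⟨k.1 u.1 u.2, (k.2 (.inl u.1)).2 u.2, (k.2 (.inr u.2)).2 u.1⟩⟩ := rfl
  have hx : fourEqX C x = ⟨(x.1, x.2.1), fun u => x.2.2 u.1 u.2⟩ := rfl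
  rw [hk, hx]
  by_cases h : (∀ i, (k.2 (.inl i)).1 = x.1 i) ∧ (∀ j, (k.2 (.inr j)).1 = x.2.1 j)
  · have h' : ((fun i => (k.2 (.inl i)).1, fun j => (k.2 (.inr j)).1) :
        (∀ i, C.P i) × (∀ j, C.Q j)) = (x.1, x.2.1) := Prod.ext (funext h.1) (funext h.2)
    rw [h', Matrix.blockDiagonal'_apply_eq, kron_apply, Fintype.prod_prod_type]
    exact if_pos h
  · have h' : (x.1, x.2.1) ≠ ((fun i => (k.2 (.inl i)).1, fun j => (k.2 (.inr j)).1) :
        (∀ i, C.P i) × (∀ j, C.Q j)) := fun e =>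
      h ⟨fun i => (congrFun (congrArg Prod.fst e) i).symm,
        fun j => (congrFun (congrArg Prod.snd e) j).symm⟩
    rw [Matrix.blockDiagonal'_apply_ne _ _ _ h']
    exact if_neg h

/-- PROOF of the four statements. With `DC.regroup` (and `Equiv.prodAssoc`, `Equiv.piProd`-like regrouping
`(∀ i j, Z i j) ≃ ∀ u : ι × ι, Z u.1 u.2` on the side of `X`), `four` is the submatrix of the block diagonal matrix
(index `(∀ i, P i) × (∀ j, Q j)`) of the Kronecker product over `u : ι × ι` of the matrices `(F u.1 u.2).four`; same for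
`four'`. `kron_mul`, `FD.four_mul`, `BoxProd.kron`, `BoxProd.blockDiagonal'`, `BoxProd.reindex`, `FD.card_sigma`. -/
theorem DC.four_mul (C : DC Y) (F : C.FF) : C.four F * C.four' F = 1 := by
  rw [four_eq_aux, four'_eq_aux, Matrix.submatrix_mul_equiv, ← Matrix.blockDiagonal'_mul]
  simp only [kron_mul, FD.four_mul, kron_one]
  rw [show (fun _ : ((∀ i, C.P i) × (∀ j, C.Q j)) => (1 : Matrix
    (∀ u : ι × ι, Σ l : (F u.1 u.2).Λ, (F u.1 u.2).I l × (F u.1 u.2).I l) _ ℂ)) = 1 from rfl,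
    Matrix.blockDiagonal'_one, Matrix.submatrix_one_equiv]

theorem DC.four'_mul (C : DC Y) (F : C.FF) : C.four' F * C.four F = 1 := by
  rw [four_eq_aux, four'_eq_aux, Matrix.submatrix_mul_equiv, ← Matrix.blockDiagonal'_mul]
  simp only [kron_mul, FD.four'_mul, kron_one]
  rw [show (fun _ : ((∀ i, C.P i) × (∀ j, C.Q j)) => (1 : Matrix
    (∀ u : ι × ι, C.Z u.1 u.2) _ ℂ)) = 1 from rfl,
    Matrix.blockDiagonal'_one, Matrix.submatrix_one_equiv]

theorem DC.four_box (C : DC Y) (F : C.FF) (b : ℕ) (hb : ∀ i j, Fintype.card (C.Z i j) ≤ b) :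
    BoxProd b (Fintype.card ι * Fintype.card ι) (C.four F) := by
  rw [four_eq_aux, ← Fintype.card_prod]
  refine BoxProd.reindex (BoxProd.blockDiagonal' fun _ => BoxProd.kron _ ?_ ?_) _ _
  · intro u
    exact (F u.1 u.2).card_sigma
  · intro u
    rw [(F u.1 u.2).card_sigma]
    exact hb u.1 u.2

theorem DC.four'_box (C : DC Y) (F : C.FF) (b : ℕ) (hb : ∀ i j, Fintype.card (C.Z i j) ≤ b) :
    BoxProd b (Fintype.card ι * Fintype.card ι) (C.four' F) := by
  rw [four'_eq_aux, ← Fintype.card_prod]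
  refine BoxProd.reindex (BoxProd.blockDiagonal' fun _ => BoxProd.kron _ ?_ ?_) _ _
  · intro u
    exact (F u.1 u.2).card_sigma.symm
  · intro u
    exact hb u.1 u.2

end MP0775d3.Sg
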