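import Pool.Agent.Lib.MP_0775d3_lc.SG.Section
import Pool.Agent.Lib.MP_0775d3_lc.Cf.CalcB

/-! Type data give simultaneous factorisations of the matrices of class functions. -/

set_option linter.unusedSectionVars false
set_option linter.unusedVariables false

namespace MP0775d3.Sg

open Matrix MP0775d3.Sl2 MP0775d3.Cf

private theorem gd_ncard {X L : Type} {r : X → L} {l : L} {b : ℕ}
    (h : Nat.card {x // r x = l} ≤ b) : (({x | r x = l} : Set X).ncard : ℝ) ≤ b := by
  have h1 : ({x | r x = l} : Set X).ncard = Nat.card {x // r x = l} := by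
    rw [← Nat.card_coe_set_eq]
    rfl
  rw [h1]
  exact_mod_cast h

private theorem gd_blk {X X' : Type} {b : ℕ} {M : Matrix X X' ℂ} (h : IsBox b M) :
    Blk (b : ℝ) M := by
  obtain ⟨L, r, c, h1, h2, h3⟩ := h
  exact ⟨L, r, c, fun l => gd_ncard (h1 l), fun l => gd_ncard (h2 l), h3⟩

/-- PROOF. Induction on `t`: for a product of `t` boxes and a permutation; all index sets have the same number of elements,
so all factors can be reindexed to `X` (or to `Fin (card X)`); the permutation is one more factor. -/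
theorem BoxProd.bx {X X' : Type} [Fintype X] [Fintype X'] {b t : ℕ} (hb : 1 ≤ b)
    {M : Matrix X X' ℂ} (h : BoxProd b t M) : Bx (Fintype.card X : ℝ) (b : ℝ) (t + 1) M := by
  classical
  have hb' : (1 : ℝ) ≤ b := by exact_mod_cast hb
  induction t generalizing X with
  | zero =>
    obtain ⟨e, he⟩ := h
    refine ⟨X, inferInstance, inferInstance, fun _ => 1, id, e.symm, le_rfl,
      fun _ => blk_one hb', Function.injective_id, e.symm.injective, ?_⟩
    ext x x'
    rw [he, Matrix.submatrix_apply]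
    have h1 : (List.ofFn fun _ : Fin (0 + 1) => (1 : Matrix X X ℂ)).prod = 1 := by simp
    rw [h1, Matrix.one_apply]
    by_cases hx : e x = x'
    · rw [if_pos hx, if_pos]
      rw [← hx, Equiv.symm_apply_apply]
      rfl
    · rw [if_neg hx, if_neg]
      intro h2
      apply hx
      rw [show x = e.symm x' from h2, Equiv.apply_symm_apply]
  | succ t ih =>
    obtain ⟨Z, fZ, A, B, hZ, hA, hB, rfl⟩ := h
    obtain ⟨Y, fY, dY, N, f, g, hY, hN, hf, hg, hBN⟩ := ih hB
    have hY' : Fintype.card Y ≤ Fintype.card Z := by exact_mod_cast hY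
    have hcY : Fintype.card Z = Fintype.card Y :=
      le_antisymm (Fintype.card_le_of_injective f hf) hY'
    have hfb : Function.Bijective f :=
      (Fintype.bijective_iff_injective_and_card f).2 ⟨hf, hcY⟩
    obtain ⟨e⟩ : Nonempty (X ≃ Y) := ⟨Fintype.equivOfCardEq (by rw [← hZ, hcY])⟩
    obtain ⟨φ, hφ⟩ : ∃ φ : Z ≃ Y, ∀ z, φ z = f z := ⟨Equiv.ofBijective f hfb, fun _ => rfl⟩
    refine ⟨Y, fY, dY, Fin.cons (A.submatrix e.symm φ.symm) N, e, g, ?_, fun j => ?_,
      e.injective, hg, ?_⟩
    · rw [← hcY, hZ]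
    · refine Fin.cases ?_ (fun j => ?_) j
      · rw [Fin.cons_zero]
        exact (gd_blk hA).submatrix e.symm.injective φ.symm.injective
      · rw [Fin.cons_succ]
        exact hN j
    · ext x x'
      rw [List.ofFn_succ, List.prod_cons, Fin.cons_zero, Matrix.submatrix_apply]
      simp only [Fin.cons_succ]
      rw [Matrix.mul_apply, Matrix.mul_apply, ← Equiv.sum_comp φ]
      refine Finset.sum_congr rfl fun z _ => ?_
      rw [Matrix.submatrix_apply, Equiv.symm_apply_apply, Equiv.symm_apply_apply, hBN,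
        Matrix.submatrix_apply, hφ]

/-- PROOF. `σ : T → X` a section of `π`; `U = Φ'.submatrix σ id`, `U' = Φ.submatrix id σ`, labels `τ`, `τ`, and
`B = Φ * (groupMat f).submatrix π π * Φ'` (`groupMat f` is invariant as `f` is a class function; `Φ' * Φ = 1`). -/
theorem TypeData.gd {T : Type} [Group T] {N q b t : ℕ} (hb : 1 ≤ b) (h : TypeData T N q b t) :
    GD (N : ℝ) (b : ℝ) (q : ℝ) (t + 1) T := by
  classical
  obtain ⟨X, J, L, fX, fJ, Φ, Φ', π, τ, hπ, hN, hτ, hΦ, hB, hB', hK⟩ := h
  obtain ⟨σ, hσ⟩ := hπ.hasRightInverse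
  have hb' : (1 : ℝ) ≤ b := by exact_mod_cast hb
  have hN' : (Fintype.card X : ℝ) ≤ N := by exact_mod_cast hN
  have hJ' : (Fintype.card J : ℝ) ≤ N := by
    rw [hB.card_eq]
    exact hN'
  refine ⟨J, fJ, inferInstance, Φ'.submatrix σ id, Φ.submatrix id σ, L, τ, τ,
    ((hB'.bx hb).mono hN' le_rfl le_rfl hb').submatrix hσ.injective Function.injective_id,
    ((hB.bx hb).mono hJ' le_rfl le_rfl hb').submatrix Function.injective_id hσ.injective,
    fun l => gd_ncard (hτ l), fun l => gd_ncard (hτ l), fun f hf => ?_⟩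
  have hinv : ∀ a b x y : T, groupMat f (a * x * b) (a * y * b) = groupMat f x y := by
    intro a b x y
    rw [groupMat, Matrix.of_apply, Matrix.of_apply]
    have h1 : a * x * b * (a * y * b)⁻¹ = a * (x * y⁻¹) * a⁻¹ := by group
    rw [h1, hf]
  refine ⟨Φ * (groupMat f).submatrix π π * Φ', hK _ hinv, ?_⟩
  have h1 : Φ' * (Φ * (groupMat f).submatrix π π * Φ') * Φ = (groupMat f).submatrix π π := by
    rw [← Matrix.mul_assoc, ← Matrix.mul_assoc, hΦ, Matrix.one_mul, Matrix.mul_assoc, hΦ,
      Matrix.mul_one]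
  have h2 : Φ'.submatrix σ id * (Φ * (groupMat f).submatrix π π * Φ') * Φ.submatrix id σ =
      (Φ' * (Φ * (groupMat f).submatrix π π * Φ') * Φ).submatrix σ σ := by
    ext x y
    simp only [Matrix.submatrix_apply, Matrix.mul_apply, id]
  rw [h2, h1]
  ext x y
  rw [Matrix.submatrix_apply, Matrix.submatrix_apply, hσ, hσ]

end MP0775d3.Sg
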