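import Mathlib

/-! Simultaneous diagonalisation of a complete system of orthogonal idempotents. -/

set_option linter.unusedSectionVars false
set_option linter.unusedVariables false

namespace MP0775d3.Sg

open Matrix

/-- PROOF. The ranges of the `E t` form an internal direct sum of `I → ℂ` (`DirectSum.IsInternal`, or
`Submodule`-independence by hand); take a basis of each range and collect them
(`DirectSum.IsInternal.collectedBasis`); its index set has as many elements as `I`, choose an equivalence. `Ψ'` is the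
matrix with these vectors as columns, `Ψ` its inverse. -/
theorem exists_diag {I T : Type} [Fintype I] [DecidableEq I] [Fintype T] [DecidableEq T]
    (E : T → Matrix I I ℂ) (h1 : ∀ t t', E t * E t' = if t = t' then E t else 0)
    (h2 : ∑ t, E t = 1) : ∃ (Ψ Ψ' : Matrix I I ℂ) (lab : I → T), Ψ * Ψ' = 1 ∧ Ψ' * Ψ = 1 ∧
      ∀ t, Ψ * E t * Ψ' = Matrix.diagonal fun a => if lab a = t then 1 else 0 := by
  classical
  have hsum : ∀ x : I → ℂ, ∑ t, E t *ᵥ x = x := by
    intro x
    rw [← Matrix.sum_mulVec, h2, Matrix.one_mulVec]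
  obtain ⟨A, hAd⟩ : ∃ A : T → Submodule ℂ (I → ℂ),
      ∀ t, A t = LinearMap.range (Matrix.mulVecLin (E t)) := ⟨_, fun _ => rfl⟩
  have hA : ∀ t (x : I → ℂ), x ∈ A t → ∀ s, E s *ᵥ x = if s = t then x else 0 := by
    intro t x hx s
    rw [hAd] at hx
    obtain ⟨y, rfl⟩ := hx
    rw [Matrix.mulVecLin_apply, Matrix.mulVec_mulVec, h1]
    by_cases h : s = t
    · rw [if_pos h, if_pos h, h]
    · rw [if_neg h, if_neg h, Matrix.zero_mulVec]
  have hind : iSupIndep A := by
    rw [iSupIndep_iff_finsetSum_eq_zero_imp_eq_zero]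
    intro s v hv h0 i hi
    have h3 : E i *ᵥ ∑ t ∈ s, v t = v i := by
      rw [Matrix.mulVec_sum, Finset.sum_eq_single i]
      · rw [hA i (v i) (hv i hi), if_pos rfl]
      · intro t ht hne
        rw [hA t (v t) (hv t ht), if_neg hne.symm]
      · intro h
        exact absurd hi h
    rw [← h3, h0, Matrix.mulVec_zero]
  have htop : iSup A = ⊤ := by
    rw [eq_top_iff]
    intro x _
    rw [← hsum x]
    refine Submodule.sum_mem _ fun t _ => Submodule.mem_iSup_of_mem t ?_
    rw [hAd]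
    exact ⟨x, rfl⟩
  have hint := DirectSum.isInternal_submodule_of_iSupIndep_of_iSup_eq_top hind htop
  obtain ⟨b, hb⟩ : ∃ b : Module.Basis (Σ t, Fin (Module.finrank ℂ (A t))) ℂ (I → ℂ),
      ∀ a, b a ∈ A a.1 :=
    ⟨hint.collectedBasis fun t => Module.finBasis ℂ (A t), fun a => hint.collectedBasis_mem _ a⟩
  obtain ⟨e⟩ : Nonempty ((Σ t, Fin (Module.finrank ℂ (A t))) ≃ I) :=
    ⟨b.indexEquiv (Pi.basisFun ℂ I)⟩
  obtain ⟨b', hb'⟩ : ∃ b' : Module.Basis I ℂ (I → ℂ), ∀ a, b' a ∈ A (e.symm a).1 :=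
    ⟨b.reindex e, fun a => by
      rw [Module.Basis.reindex_apply]
      exact hb _⟩
  refine ⟨b'.toMatrix (Pi.basisFun ℂ I), (Pi.basisFun ℂ I).toMatrix b', fun a => (e.symm a).1,
    b'.toMatrix_mul_toMatrix_flip _, Module.Basis.toMatrix_mul_toMatrix_flip _ _, fun t => ?_⟩
  have h5 : E t * (Pi.basisFun ℂ I).toMatrix b' = (Pi.basisFun ℂ I).toMatrix b' *
      Matrix.diagonal fun a => if (e.symm a).1 = t then (1 : ℂ) else 0 := by
    ext i a
    rw [Matrix.mul_diagonal]
    have h6 : (E t * (Pi.basisFun ℂ I).toMatrix b') i a = (E t *ᵥ b' a) i := rfl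
    have h7 : (Pi.basisFun ℂ I).toMatrix b' i a = b' a i := rfl
    rw [h6, h7, hA _ _ (hb' a) t]
    by_cases h : t = (e.symm a).1
    · rw [if_pos h, if_pos h.symm, mul_one]
    · rw [if_neg h, if_neg (fun h' => h h'.symm), mul_zero]
      rfl
  rw [Matrix.mul_assoc, h5, ← Matrix.mul_assoc, Module.Basis.toMatrix_mul_toMatrix_flip,
    Matrix.one_mul]

end MP0775d3.Sg
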