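import Pool.Agent.Lib.MP_0775d3_lc.SG.Types

/-! Intersections of product type. -/

set_option linter.unusedSectionVars false
set_option linter.unusedVariables false

namespace MP0775d3.Sg

open Matrix

variable {ι : Type} [Fintype ι] [DecidableEq ι]

/-- A group of product type (almost) equal to the intersection of `κ (Y)` and `g κ (Y) g⁻¹`. -/
structure PT (Y : ι → Type) [∀ i, Group (Y i)] {G : Type} [Group G] (κ : (∀ i, Y i) →* G)
    (g : G) where
  Z : ι → ι → Type
  [gZ : ∀ i j, Group (Z i j)]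
  [fZ : ∀ i j, Finite (Z i j)]
  θ : ∀ i, (∀ j, Z i j) →* Y i
  θ' : ∀ j, (∀ i, Z i j) →* Y j
  inj : ∀ i, Function.Injective (θ i)
  inj' : ∀ j, Function.Injective (θ' j)
  conj : ∀ z : ∀ i j, Z i j, κ (fun i => θ i (z i)) * g = g * κ (fun j => θ' j fun i => z i j)

attribute [instance] PT.gZ PT.fZ

variable {Y : ι → Type} [∀ i, Group (Y i)] {G : Type} [Group G] {κ : (∀ i, Y i) →* G} {g : G}

/-- The index is at most `k`. -/
def PT.Full (p : PT Y κ g) (k : ℕ) : Prop :=
  Nat.card {q : (∀ i, Y i) × (∀ i, Y i) // κ q.1 * g = g * κ q.2} ≤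
    k * ∏ i, ∏ j, Nat.card (p.Z i j)

private theorem pt_out {Y : Type} [Group Y] {H : Subgroup Y} (p : Y ⧸ H) :
    ((Quotient.out p : Y) : Y ⧸ H) = p := QuotientGroup.out_eq' p

/-- One factor. -/
private theorem pt_coc {Y : Type} [Group Y] {J : Type} {Z : J → Type} [∀ j, Group (Z j)]
    (θ : (∀ j, Z j) →* Y) (hθ : Function.Injective θ) :
    ∃ C : Coc Y (Y ⧸ θ.range) Z,
      ∀ y p, y * Quotient.out p = Quotient.out (C.a y p) * θ (C.s y p) := by
  have hex : ∀ (y : Y) (p : Y ⧸ θ.range), ∃ z : ∀ j, Z j,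
      θ z = (Quotient.out (y • p) : Y)⁻¹ * (y * Quotient.out p) := by
    intro y p
    have h1 : ((Quotient.out (y • p) : Y) : Y ⧸ θ.range) =
        ((y * Quotient.out p : Y) : Y ⧸ θ.range) := by
      rw [pt_out]
      conv_lhs => rw [← pt_out p]
      rfl
    exact MonoidHom.mem_range.1 (QuotientGroup.eq.1 h1)
  choose s hs using hex
  refine ⟨⟨fun y p => y • p, s, fun p => one_smul _ p, fun y y' p => mul_smul y y' p, ?_, ?_⟩, ?_⟩
  · intro y y' p
    apply hθ
    rw [map_mul, hs, hs, hs, mul_smul]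
    group
  · intro y (p : Y ⧸ θ.range) h1 h2
    have h3 := hs y p
    have h1' : y • p = p := h1
    rw [h2, map_one, h1'] at h3
    have h4 : y * Quotient.out p = Quotient.out p := (inv_mul_eq_one.1 h3.symm).symm
    exact mul_eq_right.1 h4
  · intro y (p : Y ⧸ θ.range)
    show y * Quotient.out p = Quotient.out (y • p) * θ (s y p)
    rw [hs, mul_inv_cancel_left]

private theorem pt_dec {Y : Type} [Group Y] {J : Type} {Z : J → Type} [∀ j, Group (Z j)]
    (θ : (∀ j, Z j) →* Y) (y : Y) : ∃ z, y = Quotient.out (y : Y ⧸ θ.range) * θ z := by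
  have h1 : ((Quotient.out (y : Y ⧸ θ.range) : Y) : Y ⧸ θ.range) = (y : Y ⧸ θ.range) := pt_out _
  obtain ⟨z, hz⟩ := MonoidHom.mem_range.1 (QuotientGroup.eq.1 h1)
  exact ⟨z, by rw [hz, mul_inv_cancel_left]⟩

private theorem pt_card {Y : Type} [Group Y] [Finite Y] {J : Type} [Fintype J] {Z : J → Type}
    [∀ j, Group (Z j)] [∀ j, Finite (Z j)] (θ : (∀ j, Z j) →* Y) (hθ : Function.Injective θ) :
    Nat.card (Y ⧸ θ.range) * ∏ j, Nat.card (Z j) = Nat.card Y := by
  rw [Subgroup.card_eq_card_quotient_mul_card_subgroup θ.range]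
  congr 1
  rw [← Nat.card_pi]
  exact Nat.card_congr (MonoidHom.ofInjective hθ).toEquiv

/-- Coordinates on (a cover of) the double coset of `g`. PROOF. `P i = Y i ⧸ (θ i).range`,
`Q j = Y j ⧸ (θ' j).range`, representatives `out` (`Quotient.out`), `a y p = y • p`, and `s y p` is the element with
`y * out p = out (y • p) * θ i (s y p)`. Put
`π (p, q, z) = κ (out p) * κ (θ z) * g * (κ (out q))⁻¹`. Equivariance:
`κ (θ (s * z * s'⁻¹)) * g = κ (θ s) * κ (θ z) * g * (κ (θ' s'))⁻¹` by `conj`. For the second claim write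
`y i = out * θ i (z i)`, `y' j = out * θ' j (z' j)` and use `conj` again: `π (p, q, z * z'⁻¹)`. Cardinalities:
`Subgroup.card_eq_card_quotient_mul_card_subgroup`, `card (θ i).range = ∏ j, card (Z i j)`. -/
theorem PT.exists_dc [∀ i, Finite (Y i)] (p : PT Y κ g) : ∃ (C : DC Y) (π : C.X → G),
    (∀ y y' x, π (C.act y y' x) = κ y * π x * (κ y')⁻¹) ∧
    (∀ y y', ∃ x, π x = κ y * g * (κ y')⁻¹) ∧
    (∀ i j, Fintype.card (C.Z i j) = Nat.card (p.Z i j)) ∧
    (∀ i, Fintype.card (C.P i) * ∏ j, Fintype.card (C.Z i j) = Nat.card (Y i)) ∧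
    (∀ j, Fintype.card (C.Q j) * ∏ i, Fintype.card (C.Z i j) = Nat.card (Y j)) := by
  classical
  choose CL hL using fun i => pt_coc (p.θ i) (p.inj i)
  choose CR hR using fun j => pt_coc (p.θ' j) (p.inj' j)
  have hfP : ∀ i, Fintype (Y i ⧸ (p.θ i).range) := fun i => Fintype.ofFinite _
  have hfQ : ∀ i, Fintype (Y i ⧸ (p.θ' i).range) := fun i => Fintype.ofFinite _
  have hfZ : ∀ i j, Fintype (p.Z i j) := fun i j => Fintype.ofFinite _
  let C : DC Y :=
    { P := fun i => Y i ⧸ (p.θ i).range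
      Q := fun j => Y j ⧸ (p.θ' j).range
      Z := p.Z
      gZ := p.gZ
      fP := hfP
      fQ := hfQ
      fZ := hfZ
      dP := fun i => Classical.decEq _
      dQ := fun i => Classical.decEq _
      dZ := fun i j => Classical.decEq _
      L := CL
      R := CR }
  let π : C.X → G := fun x => κ (fun i => Quotient.out (x.1 i)) *
    κ (fun i => p.θ i (x.2.2 i)) * g * (κ (fun j => Quotient.out (x.2.1 j)))⁻¹
  have hinv : ∀ w : ∀ i j, p.Z i j, κ (fun i => p.θ i (w i)⁻¹) * g =
      g * (κ (fun j => p.θ' j fun i => w i j))⁻¹ := by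
    intro w
    have h1 := p.conj (fun i => (w i)⁻¹)
    rw [h1]
    congr 1
    rw [← map_inv]
    congr 1
    funext j
    rw [Pi.inv_apply, ← map_inv]
    rfl
  refine ⟨C, π, ?_, ?_, fun i j => Nat.card_eq_fintype_card.symm, fun i => ?_, fun j => ?_⟩
  · rintro y y' ⟨a, b, z⟩
    have e1 : (fun i => Quotient.out ((CL i).a (y i) (a i)) * p.θ i ((CL i).s (y i) (a i))) =
        y * fun i => Quotient.out (a i) := by
      funext i
      rw [Pi.mul_apply]
      exact (hL i (y i) (a i)).symm
    have e2 : (fun j => Quotient.out ((CR j).a (y' j) (b j)) * p.θ' j ((CR j).s (y' j) (b j))) =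
        y' * fun j => Quotient.out (b j) := by
      funext j
      rw [Pi.mul_apply]
      exact (hR j (y' j) (b j)).symm
    have e1' := congrArg κ e1
    have e2' := congrArg κ e2
    rw [map_mul] at e1' e2'
    have e3 : κ (fun i => Quotient.out ((CL i).a (y i) (a i)) * p.θ i ((CL i).s (y i) (a i))) =
        κ (fun i => Quotient.out ((CL i).a (y i) (a i))) *
          κ (fun i => p.θ i ((CL i).s (y i) (a i))) := map_mul κ _ _
    have e4 : κ (fun j => Quotient.out ((CR j).a (y' j) (b j)) *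
        p.θ' j ((CR j).s (y' j) (b j))) =
        κ (fun j => Quotient.out ((CR j).a (y' j) (b j))) *
          κ (fun j => p.θ' j ((CR j).s (y' j) (b j))) := map_mul κ _ _
    rw [e3] at e1'
    rw [e4] at e2'
    have e5 : (fun i => p.θ i fun j => (CL i).s (y i) (a i) j * z i j *
        ((CR j).s (y' j) (b j) i)⁻¹) =
        (fun i => p.θ i ((CL i).s (y i) (a i))) * (fun i => p.θ i (z i)) *
          (fun i => p.θ i (fun j => (CR j).s (y' j) (b j) i)⁻¹) := by
      funext i
      rw [Pi.mul_apply, Pi.mul_apply, ← map_mul, ← map_mul]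
      rfl
    have e6 := hinv fun i j => (CR j).s (y' j) (b j) i
    show κ (fun i => Quotient.out ((CL i).a (y i) (a i))) *
      κ (fun i => p.θ i fun j => (CL i).s (y i) (a i) j * z i j *
        ((CR j).s (y' j) (b j) i)⁻¹) * g *
      (κ (fun j => Quotient.out ((CR j).a (y' j) (b j))))⁻¹ =
      κ y * (κ (fun i => Quotient.out (a i)) * κ (fun i => p.θ i (z i)) * g *
        (κ (fun j => Quotient.out (b j)))⁻¹) * (κ y')⁻¹
    rw [e5, map_mul, map_mul]
    have e7 : (κ (fun j => p.θ' j fun i => (CR j).s (y' j) (b j) i))⁻¹ *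
        (κ (fun j => Quotient.out ((CR j).a (y' j) (b j))))⁻¹ =
        (κ (fun j => Quotient.out (b j)))⁻¹ * (κ y')⁻¹ := by
      rw [← _root_.mul_inv_rev, ← _root_.mul_inv_rev, ← e2']
    calc κ (fun i => Quotient.out ((CL i).a (y i) (a i))) *
          (κ (fun i => p.θ i ((CL i).s (y i) (a i))) * κ (fun i => p.θ i (z i)) *
            κ (fun i => p.θ i (fun j => (CR j).s (y' j) (b j) i)⁻¹)) * g *
          (κ (fun j => Quotient.out ((CR j).a (y' j) (b j))))⁻¹
        = (κ (fun i => Quotient.out ((CL i).a (y i) (a i))) *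
            κ (fun i => p.θ i ((CL i).s (y i) (a i)))) * κ (fun i => p.θ i (z i)) *
            (κ (fun i => p.θ i (fun j => (CR j).s (y' j) (b j) i)⁻¹) * g) *
            (κ (fun j => Quotient.out ((CR j).a (y' j) (b j))))⁻¹ := by
          simp only [mul_assoc]
      _ = κ y * κ (fun i => Quotient.out (a i)) * κ (fun i => p.θ i (z i)) * g *
            ((κ (fun j => p.θ' j fun i => (CR j).s (y' j) (b j) i))⁻¹ *
            (κ (fun j => Quotient.out ((CR j).a (y' j) (b j))))⁻¹) := by
          rw [e1', e6]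
          simp only [mul_assoc]
      _ = _ := by
          rw [e7]
          simp only [mul_assoc]
  · intro y y'
    choose z hz using fun i => pt_dec (p.θ i) (y i)
    choose z' hz' using fun j => pt_dec (p.θ' j) (y' j)
    refine ⟨(fun i => (y i : Y i ⧸ (p.θ i).range), fun j => (y' j : Y j ⧸ (p.θ' j).range),
      fun i j => z i j * (z' j i)⁻¹), ?_⟩
    have e1 : y = (fun i => Quotient.out (y i : Y i ⧸ (p.θ i).range)) *
        fun i => p.θ i (z i) := funext hz
    have e2 : y' = (fun j => Quotient.out (y' j : Y j ⧸ (p.θ' j).range)) *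
        fun j => p.θ' j (z' j) := funext hz'
    have e1' := congrArg κ e1
    have e2' := congrArg κ e2
    rw [map_mul] at e1' e2'
    have e5 : (fun i => p.θ i fun j => z i j * (z' j i)⁻¹) =
        (fun i => p.θ i (z i)) * (fun i => p.θ i (fun j => z' j i)⁻¹) := by
      funext i
      rw [Pi.mul_apply, ← map_mul]
      rfl
    have e6 := hinv fun i j => z' j i
    show κ (fun i => Quotient.out (y i : Y i ⧸ (p.θ i).range)) *
      κ (fun i => p.θ i fun j => z i j * (z' j i)⁻¹) * g *
      (κ (fun j => Quotient.out (y' j : Y j ⧸ (p.θ' j).range)))⁻¹ = κ y * g * (κ y')⁻¹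
    rw [e5, map_mul, e1', e2', _root_.mul_inv_rev]
    calc κ (fun i => Quotient.out (y i : Y i ⧸ (p.θ i).range)) *
          (κ (fun i => p.θ i (z i)) * κ (fun i => p.θ i (fun j => z' j i)⁻¹)) * g *
          (κ (fun j => Quotient.out (y' j : Y j ⧸ (p.θ' j).range)))⁻¹
        = κ (fun i => Quotient.out (y i : Y i ⧸ (p.θ i).range)) * κ (fun i => p.θ i (z i)) *
            (κ (fun i => p.θ i (fun j => z' j i)⁻¹) * g) *
            (κ (fun j => Quotient.out (y' j : Y j ⧸ (p.θ' j).range)))⁻¹ := by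
          simp only [mul_assoc]
      _ = _ := by
          rw [e6]
          simp only [mul_assoc]
  · rw [← pt_card (p.θ i) (p.inj i), Nat.card_eq_fintype_card]
    congr 1
    exact Finset.prod_congr rfl fun j _ => Nat.card_eq_fintype_card.symm
  · rw [← pt_card (p.θ' j) (p.inj' j), Nat.card_eq_fintype_card]
    congr 1
    exact Finset.prod_congr rfl fun i _ => Nat.card_eq_fintype_card.symm

end MP0775d3.Sg
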