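import Pool.Agent.Lib.MP_0775d3_lc.SG.Pt

/-! Restriction to a subgroup. -/

set_option linter.unusedSectionVars false
set_option linter.unusedVariables false

namespace MP0775d3.Sg

open Matrix

variable {ι : Type} [Fintype ι] [DecidableEq ι] {Y : ι → Type} [∀ i, Group (Y i)] {G : Type}
  [Group G]

private theorem rs_index {A : Type} [Group A] [Finite G] (U : Subgroup G) (f : A →* G) :
    (U.comap f).index ≤ U.index := by
  rw [Subgroup.index_comap, ← Subgroup.relIndex_top_right]
  refine Subgroup.relIndex_le_of_le_right le_top ?_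
  rw [Subgroup.relIndex_top_right]
  exact Subgroup.index_ne_zero_of_finite

private theorem rs_card {A : Type} [Group A] [Finite A] [Finite G] (U : Subgroup G) (f : A →* G) :
    Nat.card A ≤ U.index * Nat.card (U.comap f) := by
  rw [← Subgroup.index_mul_card (U.comap f)]
  exact Nat.mul_le_mul_right _ (rs_index U f)

/-- The inclusion of a product of subgroups. -/
private def rsIncl {I : Type} {A : I → Type} [∀ i, Group (A i)] (S : ∀ i, Subgroup (A i)) :
    (∀ i, S i) →* (∀ i, A i) where
  toFun y := fun i => (y i : A i)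
  map_one' := rfl
  map_mul' _ _ := rfl

/-- the part of the coordinate `i` that is mapped to `U` -/
private abbrev rsSub {I : Type} [DecidableEq I] {A : I → Type} [∀ i, Group (A i)]
    (f : (∀ i, A i) →* G) (U : Subgroup G) (i : I) : Subgroup (A i) :=
  U.comap (f.comp (MonoidHom.mulSingle A i))

private theorem rs_mem {I : Type} [Finite I] [DecidableEq I] {A : I → Type} [∀ i, Group (A i)]
    (f : (∀ i, A i) →* G) (U : Subgroup G) (y : ∀ i, A i)
    (hy : ∀ i, f (Pi.mulSingle i (y i)) ∈ U) : f y ∈ U := by
  have h := Subgroup.pi_mem_of_mulSingle_mem (H := U.comap f) y (fun i => hy i)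
  exact h

/-- PROOF. `Y' i = {y : Y i | κ (Pi.mulSingle i y) ∈ U}` (a subgroup of index at most `U.index`), `κ'` is the
restriction of `κ` (`Subgroup.pi_mem_of_mulSingle_mem`). For `g : U` with `p` at `g` put
`Z' i j = {z : Z i j | κ (Pi.mulSingle i (θ i (Pi.mulSingle j z))) ∈ U}`, of index at most `U.index` in `Z i j`;
`θ i` maps `∏ j, Z' i j` to `Y' i`; `θ' j` maps `∏ i, Z' i j` to `Y' j`, since by `conj` (for the family that is `z` at
`(i, j)` and `1` elsewhere) `κ (Pi.mulSingle j (θ' j (Pi.mulSingle i z))) = g⁻¹ * κ (..) * g ∈ U`. `Full`: the pairs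
`(y, y')` for `κ'` inject into those for `κ`. -/
theorem restrict [∀ i, Finite (Y i)] [Finite G] (κ : (∀ i, Y i) →* G) (k : ℕ)
    (h : ∀ g, ∃ p : PT Y κ g, p.Full k) (U : Subgroup G) :
    ∃ (Y' : ι → Type) (_ : ∀ i, Group (Y' i)) (_ : ∀ i, Finite (Y' i))
      (κ' : (∀ i, Y' i) →* U),
      (∀ g, ∃ p : PT Y' κ' g, p.Full (k * U.index ^ (Fintype.card ι * Fintype.card ι))) ∧
      (∀ i, Nat.card (Y' i) ≤ Nat.card (Y i)) ∧
      (∀ i, Nat.card (Y i) ≤ U.index * Nat.card (Y' i)) := by
  have hκ : ∀ y : (∀ i, rsSub κ U i), κ (fun i => (y i : Y i)) ∈ U := by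
    intro y
    refine rs_mem κ U _ (fun i => ?_)
    exact (y i).2
  obtain ⟨κ', hκ'⟩ : ∃ κ' : (∀ i, rsSub κ U i) →* U, ∀ y, ((κ' y : U) : G) =
      κ (fun i => (y i : Y i)) :=
    ⟨(κ.comp (rsIncl (rsSub κ U))).codRestrict U hκ, fun y => rfl⟩
  refine ⟨fun i => rsSub κ U i, fun i => inferInstance, fun i => inferInstance, κ', ?_, ?_, ?_⟩
  · intro g
    obtain ⟨p, hp⟩ := h (g : G)
    -- the subgroups
    obtain ⟨S, hS⟩ : ∃ S : ∀ i j, Subgroup (p.Z i j), ∀ i j, S i j =
        U.comap (((κ.comp (MonoidHom.mulSingle Y i)).comp (p.θ i)).comp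
          (MonoidHom.mulSingle (p.Z i) j)) := ⟨_, fun i j => rfl⟩
    have hSm : ∀ i j (z : p.Z i j), z ∈ S i j ↔
        κ (Pi.mulSingle i (p.θ i (Pi.mulSingle j z))) ∈ U := by
      intro i j z
      rw [hS]
      rfl
    have h1 : ∀ i (z : ∀ j, S i j), p.θ i (fun j => (z j : p.Z i j)) ∈ rsSub κ U i := by
      intro i z
      refine rs_mem ((κ.comp (MonoidHom.mulSingle Y i)).comp (p.θ i)) U _ (fun j => ?_)
      exact (hSm i j _).1 (z j).2
    have h2 : ∀ i j (z : p.Z i j), z ∈ S i j →
        κ (Pi.mulSingle j (p.θ' j (Pi.mulSingle i z))) ∈ U := by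
      intro i j z hz
      have h3 := p.conj (Pi.mulSingle i (Pi.mulSingle j z))
      have e1 : (fun i' => p.θ i' ((Pi.mulSingle i (Pi.mulSingle j z) : ∀ i j, p.Z i j) i')) =
          Pi.mulSingle i (p.θ i (Pi.mulSingle j z)) := by
        funext i'
        by_cases hi : i' = i
        · subst hi
          rw [Pi.mulSingle_eq_same, Pi.mulSingle_eq_same]
        · rw [Pi.mulSingle_eq_of_ne hi, Pi.mulSingle_eq_of_ne hi, map_one]
      have e2 : (fun j' => p.θ' j' fun i' =>
          (Pi.mulSingle i (Pi.mulSingle j z) : ∀ i j, p.Z i j) i' j') =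
          Pi.mulSingle j (p.θ' j (Pi.mulSingle i z)) := by
        funext j'
        by_cases hj : j' = j
        · subst hj
          rw [Pi.mulSingle_eq_same]
          congr 1
          funext i'
          by_cases hi : i' = i
          · subst hi
            rw [Pi.mulSingle_eq_same, Pi.mulSingle_eq_same, Pi.mulSingle_eq_same]
          · rw [Pi.mulSingle_eq_of_ne hi, Pi.mulSingle_eq_of_ne hi]
            rfl
        · rw [Pi.mulSingle_eq_of_ne hj]
          have e3 : (fun i' => (Pi.mulSingle i (Pi.mulSingle j z) : ∀ i j, p.Z i j) i' j') =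
              1 := by
            funext i'
            by_cases hi : i' = i
            · subst hi
              rw [Pi.mulSingle_eq_same, Pi.mulSingle_eq_of_ne hj]
              rfl
            · rw [Pi.mulSingle_eq_of_ne hi]
              rfl
          rw [e3, map_one]
      rw [e1, e2] at h3
      have h4 : κ (Pi.mulSingle j (p.θ' j (Pi.mulSingle i z))) =
          (g : G)⁻¹ * κ (Pi.mulSingle i (p.θ i (Pi.mulSingle j z))) * (g : G) := by
        rw [mul_assoc, h3, inv_mul_cancel_left]
      rw [h4]
      exact U.mul_mem (U.mul_mem (U.inv_mem g.2) ((hSm i j z).1 hz)) g.2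
    have h5 : ∀ j (z : ∀ i, S i j), p.θ' j (fun i => (z i : p.Z i j)) ∈ rsSub κ U j := by
      intro j z
      refine rs_mem ((κ.comp (MonoidHom.mulSingle Y j)).comp (p.θ' j)) U _ (fun i => ?_)
      exact h2 i j _ (z i).2
    refine ⟨{ Z := fun i j => S i j
              gZ := fun i j => inferInstance
              fZ := fun i j => inferInstance
              θ := fun i => ((p.θ i).comp (rsIncl (S i))).codRestrict (rsSub κ U i) (h1 i)
              θ' := fun j => ((p.θ' j).comp (rsIncl (fun i => S i j))).codRestrict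
                (rsSub κ U j) (h5 j)
              inj := ?_
              inj' := ?_
              conj := ?_ }, ?_⟩
    · intro i z z' hz
      have h6 : p.θ i (fun j => (z j : p.Z i j)) = p.θ i (fun j => (z' j : p.Z i j)) :=
        congrArg Subtype.val hz
      have h7 := p.inj i h6
      funext j
      exact Subtype.ext (congrFun h7 j)
    · intro j z z' hz
      have h6 : p.θ' j (fun i => (z i : p.Z i j)) = p.θ' j (fun i => (z' i : p.Z i j)) :=
        congrArg Subtype.val hz
      have h7 := p.inj' j h6
      funext i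
      exact Subtype.ext (congrFun h7 i)
    · intro z
      apply Subtype.ext
      rw [Subgroup.coe_mul, Subgroup.coe_mul, hκ', hκ']
      exact p.conj (fun i j => (z i j : p.Z i j))
    · unfold PT.Full at hp ⊢
      have h8 : Nat.card {q : (∀ i, rsSub κ U i) × (∀ i, rsSub κ U i) //
          κ' q.1 * g = g * κ' q.2} ≤
          Nat.card {q : (∀ i, Y i) × (∀ i, Y i) // κ q.1 * (g : G) = g * κ q.2} := by
        refine Nat.card_le_card_of_injective (fun q => ⟨(fun i => ((q.1.1 i : _) : Y i),
          fun i => ((q.1.2 i : _) : Y i)), ?_⟩) ?_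
        · have h9 := congrArg Subtype.val q.2
          rw [Subgroup.coe_mul, Subgroup.coe_mul, hκ', hκ'] at h9
          exact h9
        · intro q q' hqq
          have h10 := congrArg Subtype.val hqq
          have h11 := congrArg Prod.fst h10
          have h12 := congrArg Prod.snd h10
          refine Subtype.ext (Prod.ext ?_ ?_)
          · funext i
            exact Subtype.ext (congrFun h11 i)
          · funext i
            exact Subtype.ext (congrFun h12 i)
      refine h8.trans (hp.trans ?_)
      rw [mul_assoc]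
      refine Nat.mul_le_mul_left _ ?_
      have h13 : U.index ^ (Fintype.card ι * Fintype.card ι) * ∏ i, ∏ j, Nat.card (S i j) =
          ∏ i, ∏ j, (U.index * Nat.card (S i j)) := by
        simp only [Finset.prod_mul_distrib, Finset.prod_const, Finset.card_univ]
        rw [← pow_mul]
      rw [h13]
      refine Finset.prod_le_prod' fun i _ => Finset.prod_le_prod' fun j _ => ?_
      rw [hS]
      exact rs_card U _
  · intro i
    exact Nat.card_le_card_of_injective _ Subtype.val_injective
  · intro i
    exact rs_card U _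

end MP0775d3.Sg
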