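import Pool.Agent.Lib.MP_0775d3_lc.SG.Cover
import Pool.Agent.Lib.MP_0775d3_lc.SG.Restrict

/-! Invariant kernels on sections of a group. -/

set_option linter.unusedSectionVars false
set_option linter.unusedVariables false

namespace MP0775d3.Sg

open Matrix

variable {ι : Type} [Fintype ι] [DecidableEq ι] {Y : ι → Type} [∀ i, Group (Y i)] {G : Type}
  [Group G]

/-- Data for the matrices `K` on `T` with `K (a x b) (a y b) = K x y`: a cover `X` of `T` with at most `N` elements,
matrices `Φ`, `Φ'` inverse to each other that are products of `t` box matrices, such that the cover of `K` becomes zero off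
classes of size at most `q`. -/
def TypeData (T : Type) [Group T] (N q b t : ℕ) : Prop :=
  ∃ (X J L : Type) (_ : Fintype X) (_ : Fintype J) (Φ : Matrix J X ℂ) (Φ' : Matrix X J ℂ)
    (π : X → T) (τ : J → L), Function.Surjective π ∧ Fintype.card X ≤ N ∧
      (∀ l, Nat.card {a // τ a = l} ≤ q) ∧
      (∀ (_ : DecidableEq X), Φ' * Φ = 1) ∧ BoxProd b t Φ ∧ BoxProd b t Φ' ∧
      ∀ K : Matrix T T ℂ, (∀ a b x y, K (a * x * b) (a * y * b) = K x y) →
        ∀ i j, (Φ * K.submatrix π π * Φ') i j ≠ 0 → τ i = τ j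

/-- PROOF. `restrict` gives `Y'`, `κ'` for `U`, `cover` for these with `k = U.index ^ (r * r)`, `types` with
`Fintype.card (Y' i) ≤ b`; compose `π` with `φ`. Fibres:
`card * ∏ card (Y' i) ≤ U.index ^ (r * r) * card U` and `∏ card (Y i) ≤ U.index ^ r * ∏ card (Y' i)`, hence
`card * ∏ card (Y i) ≤ U.index ^ (r * r + r) * card U ≤ q * ∏ card (Y i)`. -/
theorem section_types [∀ i, Finite (Y i)] [Finite G] (κ : (∀ i, Y i) →* G)
    (h : ∀ g, ∃ p : PT Y κ g, p.Full 1) (b q : ℕ) (hb : ∀ i, Nat.card (Y i) ≤ b)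
    (U : Subgroup G) {T : Type} [Group T] (φ : U →* T) (hφ : Function.Surjective φ)
    (hq : U.index ^ (Fintype.card ι * Fintype.card ι + Fintype.card ι) * Nat.card U ≤
      q * ∏ i, Nat.card (Y i)) :
    TypeData T (U.index ^ (Fintype.card ι * Fintype.card ι) * Nat.card U) q b
      (Fintype.card ι * Fintype.card ι + 2 * Fintype.card ι) := by
  classical
  obtain ⟨Y', gY', fY', κ', h', hc1, hc2⟩ := restrict κ 1 h U
  rw [one_mul] at h'
  obtain ⟨D, fD, dD, C, π, hπ, hact, hcard, hZ, hP, hQ⟩ := cover κ' _ h'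
  have ftY' : ∀ i, Fintype (Y' i) := fun i => Fintype.ofFinite (Y' i)
  have hb' : ∀ i, Nat.card (Y' i) ≤ b := fun i => (hc1 i).trans (hb i)
  obtain ⟨J, L, fJ, Φ, Φ', τ, hΦ, hB, hB', hτ, hK⟩ := types C b
    (fun d i j => (hZ d i j).trans (hb' i)) (fun d i => (hP d i).trans (hb' i))
    (fun d j => (hQ d j).trans (hb' j))
  refine ⟨Σ d, (C d).X, J, L, inferInstance, fJ, Φ, Φ', fun x => φ (π x), τ,
    hφ.comp hπ, hcard, fun l => ?_, fun dec => ?_, hB, hB', fun K hKinv => ?_⟩
  · have h1 : ∏ i, Nat.card (Y i) ≤ U.index ^ Fintype.card ι * ∏ i, Fintype.card (Y' i) := by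
      calc ∏ i, Nat.card (Y i) ≤ ∏ i, (U.index * Fintype.card (Y' i)) := by
            refine Finset.prod_le_prod' fun i _ => ?_
            rw [← Nat.card_eq_fintype_card]
            exact hc2 i
        _ = U.index ^ Fintype.card ι * ∏ i, Fintype.card (Y' i) := by
            rw [Finset.prod_mul_distrib, Finset.prod_const, Finset.card_univ]
    have h2 : 0 < ∏ i, Nat.card (Y i) := Finset.prod_pos fun i _ => Nat.card_pos
    refine Nat.le_of_mul_le_mul_right ?_ h2
    calc Nat.card {a // τ a = l} * ∏ i, Nat.card (Y i)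
        ≤ Nat.card {a // τ a = l} * (U.index ^ Fintype.card ι * ∏ i, Fintype.card (Y' i)) :=
          Nat.mul_le_mul_left _ h1
      _ = U.index ^ Fintype.card ι * (Nat.card {a // τ a = l} * ∏ i, Fintype.card (Y' i)) := by
          ring
      _ ≤ U.index ^ Fintype.card ι * (U.index ^ (Fintype.card ι * Fintype.card ι) *
            Nat.card U) := Nat.mul_le_mul_left _ ((hτ l).trans hcard)
      _ = U.index ^ (Fintype.card ι * Fintype.card ι + Fintype.card ι) * Nat.card U := by
          ring
      _ ≤ q * ∏ i, Nat.card (Y i) := hq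
  · obtain rfl : dec = fun a b => instDecidableEqSigma a b := Subsingleton.elim _ _
    exact hΦ
  · refine hK _ fun y y' x x' => ?_
    rw [Matrix.submatrix_apply, Matrix.submatrix_apply, hact, hact, map_mul, map_mul, map_mul,
      map_mul]
    exact hKinv _ _ _ _

end MP0775d3.Sg
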