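import Pool.Agent.Lib.MP_0775d3_lc.SG.BoxKron
import Pool.Agent.Lib.MP_0775d3_lc.SG.Idem
import Pool.Agent.Lib.MP_0775d3_lc.SG.FdLem

/-! Diagonalisation of the types when every group acts on its own coordinate. -/

set_option linter.unusedSectionVars false
set_option linter.unusedVariables false

namespace MP0775d3.Sg

open Matrix

private theorem kron_diagonal_s2 {U : Type} [Fintype U] [DecidableEq U] {I : U → Type}
    [∀ u, Fintype (I u)] [∀ u, DecidableEq (I u)] (d : ∀ u, I u → ℂ) :
    kron (fun u => Matrix.diagonal (d u)) = Matrix.diagonal fun x => ∏ u, d u (x u) := by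
  ext x x'
  rw [kron_apply]
  by_cases h : x = x'
  · subst h
    rw [Matrix.diagonal_apply_eq]
    exact Finset.prod_congr rfl fun u _ => Matrix.diagonal_apply_eq _ _
  · rw [Matrix.diagonal_apply_ne _ h]
    obtain ⟨u, hu⟩ : ∃ u, x u ≠ x' u := by
      by_contra hcon
      push Not at hcon
      exact h (funext hcon)
    exact Finset.prod_eq_zero (Finset.mem_univ u) (Matrix.diagonal_apply_ne _ hu)

private theorem kron_sum_s2 {U : Type} [Fintype U] [DecidableEq U] {H : U → Type}
    [∀ u, Fintype (H u)] {I : U → Type} [∀ u, Fintype (I u)] (e : ∀ u, H u → ℂ)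
    (M : ∀ u, H u → Matrix (I u) (I u) ℂ) :
    ∑ y : ∀ u, H u, (∏ u, e u (y u)) • kron (fun u => M u (y u)) =
      kron fun u => ∑ h, e u h • M u h := by
  ext x x'
  rw [kron_apply, Matrix.sum_apply]
  simp only [Matrix.smul_apply, Matrix.sum_apply, kron_apply, smul_eq_mul]
  rw [Finset.prod_univ_sum, Fintype.piFinset_univ]
  exact Finset.sum_congr rfl fun y _ => Finset.prod_mul_distrib.symm

private theorem block_sum_s2 {D Y : Type} [Fintype D] [DecidableEq D] [Fintype Y] {V : D → Type}
    [∀ d, Fintype (V d)] (c : Y → ℂ) (M : Y → ∀ d, Matrix (V d) (V d) ℂ) :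
    ∑ y, c y • Matrix.blockDiagonal' (M y) = Matrix.blockDiagonal' fun d => ∑ y, c y • M y d := by
  ext ⟨d, x⟩ ⟨d', x'⟩
  rw [Matrix.sum_apply]
  by_cases h : d = d'
  · subst h
    simp only [Matrix.smul_apply, Matrix.blockDiagonal'_apply_eq, Matrix.sum_apply]
  · simp only [Matrix.smul_apply, Matrix.blockDiagonal'_apply_ne _ _ _ h, smul_zero,
      Finset.sum_const_zero]

/-- PROOF. For fixed `l` and `u` the matrices `E t = ∑ h, (F u).e t h • R l u h` are orthogonal idempotents with sum
`1` (`FD.idem`, `FD.idem_sum`), so `exists_diag` gives `ψ l u`, `ψ' l u`, `lab l u`. `Ψ` is the block diagonal matrix of the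
Kronecker products of the `ψ l u`, same for `Ψ'`, `lab a u = lab a.1 u (a.2 u)`. `BoxProd.kron`,
`BoxProd.blockDiagonal'`. The sum over `y` of the products is the block diagonal matrix of the Kronecker products of the
sums (`Finset.prod_univ_sum`, `kron_mul`). -/
theorem stage_two {U : Type} [Fintype U] [DecidableEq U] {H : U → Type} [∀ u, Group (H u)]
    [∀ u, Fintype (H u)] [∀ u, DecidableEq (H u)] (F : ∀ u, FD (H u)) {Δ : Type} [Fintype Δ]
    [DecidableEq Δ] {I : Δ → U → Type} [∀ l u, Fintype (I l u)] [∀ l u, DecidableEq (I l u)]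
    (R : ∀ l u, H u →* Matrix (I l u) (I l u) ℂ) (b : ℕ) (hb : ∀ l u, Fintype.card (I l u) ≤ b) :
    ∃ (Ψ Ψ' : Matrix (Σ l, ∀ u, I l u) (Σ l, ∀ u, I l u) ℂ)
      (lab : (Σ l, ∀ u, I l u) → ∀ u, (F u).T),
      Ψ * Ψ' = 1 ∧ Ψ' * Ψ = 1 ∧ BoxProd b (Fintype.card U) Ψ ∧ BoxProd b (Fintype.card U) Ψ' ∧
      ∀ t : ∀ u, (F u).T,
        Ψ * (∑ y : ∀ u, H u, (∏ u, (F u).e (t u) (y u)) •
          Matrix.blockDiagonal' fun l => kron fun u => R l u (y u)) * Ψ' =
        Matrix.diagonal fun a => if lab a = t then 1 else 0 := by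
  have hex := fun l u => exists_diag (fun t : (F u).T => ∑ h, (F u).e t h • R l u h)
    (fun t t' => (F u).idem (R l u) t t') ((F u).idem_sum (R l u))
  choose ψ ψ' lab p1 p2 p3 using hex
  refine ⟨Matrix.blockDiagonal' fun l => kron fun u => ψ l u,
    Matrix.blockDiagonal' fun l => kron fun u => ψ' l u, fun a u => lab a.1 u (a.2 u),
    ?_, ?_, ?_, ?_, ?_⟩
  · rw [← Matrix.blockDiagonal'_mul]
    simp only [kron_mul, p1, kron_one]
    exact Matrix.blockDiagonal'_one
  · rw [← Matrix.blockDiagonal'_mul]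
    simp only [kron_mul, p2, kron_one]
    exact Matrix.blockDiagonal'_one
  · exact BoxProd.blockDiagonal' fun l => BoxProd.kron _ (fun u => rfl) (fun u => hb l u)
  · exact BoxProd.blockDiagonal' fun l => BoxProd.kron _ (fun u => rfl) (fun u => hb l u)
  · intro t
    rw [block_sum_s2]
    simp only [kron_sum_s2 (fun u => (F u).e (t u)) (fun u h => R _ u h)]
    rw [← Matrix.blockDiagonal'_mul, ← Matrix.blockDiagonal'_mul]
    simp only [kron_mul, p3, kron_diagonal_s2]
    rw [Matrix.blockDiagonal'_diagonal]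
    congr 1
    funext a
    rw [Finset.prod_ite_zero]
    simp only [Finset.mem_univ, true_implies, Finset.prod_const_one, funext_iff]

end MP0775d3.Sg
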