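import Pool.Agent.Lib.MP_0775d3_lc.SG.Dc
import Pool.Agent.Lib.MP_0775d3_lc.SG.Count
import Pool.Agent.Lib.MP_0775d3_lc.SG.FdPi

/-! The number of indices of a given type, from traces. -/

set_option linter.unusedSectionVars false
set_option linter.unusedVariables false

namespace MP0775d3.Sg

open Matrix

variable {ι : Type} [Fintype ι] [DecidableEq ι] {Y : ι → Type} [∀ i, Group (Y i)] {D : Type}

/-- The two actions on the union. -/
def actS (C : D → DC Y) (y y' : ∀ i, Y i) (x : Σ d, (C d).X) : Σ d, (C d).X :=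
  ⟨x.1, (C x.1).act y y' x.2⟩

/-- The permutation matrix of an element on the union. -/
noncomputable def WS [DecidableEq D] (C : D → DC Y) (y : ∀ u, YY Y u) :
    Matrix (Σ d, (C d).X) (Σ d, (C d).X) ℂ := Matrix.blockDiagonal' fun d => (C d).W y

theorem WS_apply [DecidableEq D] (C : D → DC Y) (y : ∀ u, YY Y u) (x x' : Σ d, (C d).X) :
    WS C y x x' =
      if x = actS C (fun i => y (.inl i)) (fun i => y (.inr i)) x' then 1 else 0 := by
  obtain ⟨d, x⟩ := x
  obtain ⟨d', x'⟩ := x'
  by_cases h : d = d'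
  · subst h
    unfold WS
    rw [Matrix.blockDiagonal'_apply_eq]
    unfold DC.W
    rw [Matrix.of_apply]
    refine if_congr ?_ rfl rfl
    constructor
    · intro h
      rw [h]
      rfl
    · intro h
      exact eq_of_heq (Sigma.mk.inj h).2
  · unfold WS
    rw [Matrix.blockDiagonal'_apply_ne _ _ _ h, if_neg]
    intro h'
    exact h (congrArg Sigma.fst h')

theorem actS_one (C : D → DC Y) (x : Σ d, (C d).X) : actS C 1 1 x = x := by
  obtain ⟨d, x⟩ := x
  exact congrArg (Sigma.mk d) ((C d).act_one x)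

theorem actS_mul (C : D → DC Y) (y y' z z' : ∀ i, Y i) (x : Σ d, (C d).X) :
    actS C (y * z) (y' * z') x = actS C y y' (actS C z z' x) := by
  obtain ⟨d, x⟩ := x
  exact congrArg (Sigma.mk d) ((C d).act_mul y y' z z' x)

/-- the number of fixed points -/
private noncomputable def tcF [Fintype D] [DecidableEq D] (C : D → DC Y) (y y' : ∀ i, Y i) : ℂ :=
  ∑ x : Σ d, (C d).X, if x = actS C y y' x then 1 else 0

private theorem tc_trace [Fintype D] [DecidableEq D] (C : D → DC Y) (y : ∀ u, YY Y u) :
    Matrix.trace (WS C y) = tcF C (fun i => y (.inl i)) (fun i => y (.inr i)) := by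
  unfold Matrix.trace tcF
  refine Finset.sum_congr rfl fun x _ => ?_
  rw [Matrix.diag_apply, WS_apply]

private theorem tc_conj [Fintype D] [DecidableEq D] (C : D → DC Y) (g g' y y' : ∀ i, Y i) :
    tcF C (g * y * g⁻¹) (g' * y' * g'⁻¹) = tcF C y y' := by
  unfold tcF
  obtain ⟨e, he⟩ : ∃ e : (Σ d, (C d).X) ≃ (Σ d, (C d).X), ∀ x, e x = actS C g g' x :=
    ⟨{ toFun := actS C g g'
       invFun := actS C g⁻¹ g'⁻¹
       left_inv := fun x => by rw [← actS_mul, inv_mul_cancel, inv_mul_cancel, actS_one]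
       right_inv := fun x => by rw [← actS_mul, mul_inv_cancel, mul_inv_cancel, actS_one] },
      fun x => rfl⟩
  rw [← e.sum_comp]
  refine Finset.sum_congr rfl fun x _ => ?_
  have h1 : actS C (g * y * g⁻¹) (g' * y' * g'⁻¹) (e x) = e (actS C y y' x) := by
    rw [he, he, ← actS_mul, ← actS_mul, inv_mul_cancel_right, inv_mul_cancel_right]
  rw [h1]
  exact if_congr e.injective.eq_iff rfl rfl

private theorem tc_one [Fintype D] [DecidableEq D] (C : D → DC Y) :
    tcF C 1 1 = (Fintype.card (Σ d, (C d).X) : ℂ) := by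
  unfold tcF
  rw [Finset.sum_congr rfl fun x _ => if_pos (actS_one C x).symm, Finset.sum_const,
    Finset.card_univ, nsmul_eq_mul, mul_one]

private theorem tc_left [∀ i, DecidableEq (Y i)] [Fintype D] [DecidableEq D] (C : D → DC Y)
    (y : ∀ i, Y i) : tcF C y 1 = if y = 1 then (Fintype.card (Σ d, (C d).X) : ℂ) else 0 := by
  by_cases hy : y = 1
  · rw [if_pos hy, hy, tc_one]
  · rw [if_neg hy]
    unfold tcF
    refine Finset.sum_eq_zero fun x _ => if_neg fun h => hy ?_
    obtain ⟨d, x⟩ := x
    exact (C d).free_left y x (eq_of_heq (Sigma.mk.inj h).2).symm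

private theorem tc_right [∀ i, DecidableEq (Y i)] [Fintype D] [DecidableEq D] (C : D → DC Y)
    (y : ∀ i, Y i) : tcF C 1 y = if y = 1 then (Fintype.card (Σ d, (C d).X) : ℂ) else 0 := by
  by_cases hy : y = 1
  · rw [if_pos hy, hy, tc_one]
  · rw [if_neg hy]
    unfold tcF
    refine Finset.sum_eq_zero fun x _ => if_neg fun h => hy ?_
    obtain ⟨d, x⟩ := x
    exact (C d).free_right y x (eq_of_heq (Sigma.mk.inj h).2).symm

/-- families over the two copies are pairs of families -/
private def tcE (Y : ι → Type) : (∀ u, YY Y u) ≃ (∀ i, Y i) × (∀ i, Y i) where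
  toFun y := (fun i => y (.inl i), fun i => y (.inr i))
  invFun p := fun u => match u with
    | .inl i => p.1 i
    | .inr i => p.2 i
  left_inv y := by
    funext u
    cases u <;> rfl
  right_inv p := rfl

/-- PROOF. The trace of `WS C y` is the number `χ` of fixed points of `actS` (`WS_apply`), a class function of
`(y_left, y_right)` (`actS_mul`); it is `0` if one of the two is `1` and the other is not
(`DC.free_left`, `DC.free_right`) and `card (Σ d, X)` if both are `1`. Rewrite the sum over `∀ u, YY Y u` as a sum over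
pairs (`Equiv.sumPiEquivProdPi`; `Fintype.prod_sum_type` for the product of the `e`), `exists_pi` for the two families of
`Y i`, and apply `count` with `M = card (Σ d, X)`; take square roots. -/
theorem types_count [∀ i, Fintype (Y i)] [∀ i, DecidableEq (Y i)] [Fintype D] [DecidableEq D]
    (C : D → DC Y) (FY : ∀ u, FD (YY Y u)) (N : (∀ u, (FY u).T) → ℕ)
    (hN : ∀ t, (N t : ℂ) =
      ∑ y : ∀ u, YY Y u, (∏ u, (FY u).e (t u) (y u)) * Matrix.trace (WS C y))
    (t : ∀ u, (FY u).T) :
    N t * ∏ i, Fintype.card (Y i) ≤ Fintype.card (Σ d, (C d).X) := by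
  obtain ⟨F₁, hF₁⟩ : ∃ F₁ : ∀ i, FD (Y i), F₁ = fun i => FY (.inl i) := ⟨_, rfl⟩
  obtain ⟨F₂, hF₂⟩ : ∃ F₂ : ∀ i, FD (Y i), F₂ = fun i => FY (.inr i) := ⟨_, rfl⟩
  subst hF₁
  subst hF₂
  obtain ⟨E₁, τ₁, h₁⟩ := exists_pi fun i => (FY (.inl i) : FD (Y i))
  obtain ⟨E₂, τ₂, h₂⟩ := exists_pi fun i => (FY (.inr i) : FD (Y i))
  have key := count E₁ E₂ (tcF C) (Fintype.card (Σ d, (C d).X)) (tc_left C) (tc_right C)
    (fun g y y' => by
      have h := tc_conj C g 1 y y'
      rwa [one_mul, inv_one, mul_one] at h)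
    (fun g y y' => by
      have h := tc_conj C 1 g y y'
      rwa [one_mul, inv_one, mul_one] at h)
    (fun s s' => N fun u => match u with
      | .inl i => τ₁.symm s i
      | .inr i => τ₂.symm s' i)
    (fun s s' => by
      rw [hN, ← (tcE Y).symm.sum_comp, Fintype.sum_prod_type]
      refine Finset.sum_congr rfl fun y _ => Finset.sum_congr rfl fun y' _ => ?_
      rw [tc_trace, Fintype.prod_sum_type]
      have e1 := h₁ (τ₁.symm s) y
      have e2 := h₂ (τ₂.symm s') y'
      rw [Equiv.apply_symm_apply] at e1 e2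
      rw [e1, e2]
      rfl)
    (τ₁ fun i => t (.inl i)) (τ₂ fun i => t (.inr i))
  have e3 : (fun u => match u with
      | .inl i => τ₁.symm (τ₁ fun i => t (.inl i)) i
      | .inr i => τ₂.symm (τ₂ fun i => t (.inr i)) i : ∀ u, (FY u).T) = t := by
    funext u
    cases u with
    | inl i => exact congrFun (τ₁.symm_apply_apply fun i => t (.inl i)) i
    | inr i => exact congrFun (τ₂.symm_apply_apply fun i => t (.inr i)) i
  have key' : N t * N t * (Fintype.card (∀ i, Y i) * Fintype.card (∀ i, Y i)) ≤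
      Fintype.card (Σ d, (C d).X) * Fintype.card (Σ d, (C d).X) := by
    refine le_trans (le_of_eq ?_) key
    rw [e3]
    rfl
  rw [Fintype.card_pi] at key'
  refine Nat.mul_self_le_mul_self_iff.1 (le_trans (le_of_eq ?_) key')
  ring

end MP0775d3.Sg
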