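import Pool.Agent.Lib.MP_0775d3_lc.SG.Core
import Pool.Agent.Lib.MP_0775d3_lc.SG.TypesCount

/-! Invariant kernels on a union of sets with coordinates. -/

set_option linter.unusedSectionVars false
set_option linter.unusedVariables false

namespace MP0775d3.Sg

open Matrix

variable {ι : Type} [Fintype ι] [DecidableEq ι] {Y : ι → Type} [∀ i, Group (Y i)] {D : Type}

private theorem sum_smul_blockDiagonal' {A D : Type} [Fintype A] [DecidableEq D] {V V' : D → Type}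
    (c : A → ℂ) (M : A → ∀ d, Matrix (V d) (V' d) ℂ) :
    ∑ y, c y • Matrix.blockDiagonal' (M y) = Matrix.blockDiagonal' fun d => ∑ y, c y • M y d := by
  ext ⟨d, x⟩ ⟨d', x'⟩
  rw [Matrix.sum_apply]
  simp only [Matrix.smul_apply]
  by_cases h : d = d'
  · subst h
    rw [Matrix.blockDiagonal'_apply_eq, Matrix.sum_apply]
    refine Finset.sum_congr rfl fun y _ => ?_
    rw [Matrix.blockDiagonal'_apply_eq, Matrix.smul_apply]
  · rw [Matrix.blockDiagonal'_apply_ne _ _ _ h]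
    refine Finset.sum_eq_zero fun y _ => ?_
    rw [Matrix.blockDiagonal'_apply_ne _ _ _ h, smul_zero]

private theorem comm_WS [Fintype D] [DecidableEq D] (C : D → DC Y)
    (K : Matrix (Σ d, (C d).X) (Σ d, (C d).X) ℂ)
    (hK : ∀ y y' x x', K (actS C y y' x) (actS C y y' x') = K x x') (y : ∀ u, YY Y u) :
    K * WS C y = WS C y * K := by
  classical
  obtain ⟨yl, hyl⟩ : ∃ yl : ∀ i, Y i, yl = fun i => y (.inl i) := ⟨_, rfl⟩
  obtain ⟨yr, hyr⟩ : ∃ yr : ∀ i, Y i, yr = fun i => y (.inr i) := ⟨_, rfl⟩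
  have hW : ∀ x x' : Σ d, (C d).X, WS C y x x' = if x = actS C yl yr x' then 1 else 0 := by
    intro x x'
    rw [WS_apply, hyl, hyr]
  have hinv : ∀ x : Σ d, (C d).X, actS C yl yr (actS C yl⁻¹ yr⁻¹ x) = x := by
    intro x
    rw [← actS_mul, mul_inv_cancel, mul_inv_cancel, actS_one]
  have hinv' : ∀ x : Σ d, (C d).X, actS C yl⁻¹ yr⁻¹ (actS C yl yr x) = x := by
    intro x
    rw [← actS_mul, inv_mul_cancel, inv_mul_cancel, actS_one]
  ext x x''
  rw [Matrix.mul_apply, Matrix.mul_apply]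
  simp only [hW]
  rw [Finset.sum_eq_single (actS C yl yr x''), Finset.sum_eq_single (actS C yl⁻¹ yr⁻¹ x)]
  · rw [if_pos rfl, if_pos (hinv x).symm, mul_one, one_mul,
      ← hK yl yr (actS C yl⁻¹ yr⁻¹ x) x'', hinv]
  · intro z _ hz
    rw [if_neg, zero_mul]
    intro h
    exact hz (by rw [h, hinv'])
  · intro h
    exact absurd (Finset.mem_univ _) h
  · intro z _ hz
    rw [if_neg hz, mul_zero]
  · intro h
    exact absurd (Finset.mem_univ _) h

/-- PROOF. `exists_fd` for the `YY Y u`, `DC.core` for every `C d`; `J = Σ d, J d`, `Φ = blockDiagonal' Φ_d`,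
`τ ⟨d, a⟩ = lab d a`. The matrix `E t = ∑ y, (∏ u, e (t u) (y u)) • WS C y` satisfies `Φ * E t * Φ' = diagonal [τ = t]`.
(1) `K` commutes with `WS C y` (`WS_apply`, invariance, `actS_mul`), so `Φ * K * Φ'` commutes with all
`diagonal [τ = t]`. (2) The number of `a` with `τ a = t` is the trace of `E t`: `types_count`. -/
theorem types [∀ i, Fintype (Y i)] [∀ i, DecidableEq (Y i)] [Fintype D] [DecidableEq D]
    (C : D → DC Y) (b : ℕ) (hZ : ∀ d i j, Fintype.card ((C d).Z i j) ≤ b)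
    (hP : ∀ d i, Fintype.card ((C d).P i) * ∏ j, Fintype.card ((C d).Z i j) ≤ b)
    (hQ : ∀ d j, Fintype.card ((C d).Q j) * ∏ i, Fintype.card ((C d).Z i j) ≤ b) :
    ∃ (J L : Type) (_ : Fintype J) (Φ : Matrix J (Σ d, (C d).X) ℂ)
      (Φ' : Matrix (Σ d, (C d).X) J ℂ) (τ : J → L), Φ' * Φ = 1 ∧
      BoxProd b (Fintype.card ι * Fintype.card ι + 2 * Fintype.card ι) Φ ∧
      BoxProd b (Fintype.card ι * Fintype.card ι + 2 * Fintype.card ι) Φ' ∧
      (∀ l, Nat.card {a // τ a = l} * ∏ i, Fintype.card (Y i) ≤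
        Fintype.card (Σ d, (C d).X)) ∧
      ∀ K : Matrix (Σ d, (C d).X) (Σ d, (C d).X) ℂ,
        (∀ y y' x x', K (actS C y y' x) (actS C y y' x') = K x x') →
        ∀ a a', (Φ * K * Φ') a a' ≠ 0 → τ a = τ a' := by
  classical
  obtain ⟨FY⟩ : Nonempty (∀ u, FD (YY Y u)) := ⟨fun u => Classical.choice (exists_fd _)⟩
  choose J fJ dJ Φd Φd' lab h1 h2 h3 h4 h5 using fun d =>
    (C d).core FY b (hZ d) (hP d) (hQ d)
  obtain ⟨Φ, hΦ⟩ : ∃ Φ : Matrix (Σ d, J d) (Σ d, (C d).X) ℂ, Φ = Matrix.blockDiagonal' Φd :=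
    ⟨_, rfl⟩
  obtain ⟨Φ', hΦ'⟩ : ∃ Φ' : Matrix (Σ d, (C d).X) (Σ d, J d) ℂ, Φ' = Matrix.blockDiagonal' Φd' :=
    ⟨_, rfl⟩
  obtain ⟨τ, hτ⟩ : ∃ τ : (Σ d, J d) → ∀ u, (FY u).T, τ = fun a => lab a.1 a.2 := ⟨_, rfl⟩
  have hΦΦ : Φ' * Φ = 1 := by
    rw [hΦ, hΦ', ← Matrix.blockDiagonal'_mul, ← Matrix.blockDiagonal'_one]
    congr 1
    funext d
    exact h2 d
  have hE : ∀ t : ∀ u, (FY u).T,
      Φ * (∑ y : ∀ u, YY Y u, (∏ u, (FY u).e (t u) (y u)) • WS C y) * Φ' =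
        Matrix.diagonal fun a => if τ a = t then 1 else 0 := by
    intro t
    have e1 : (∑ y : ∀ u, YY Y u, (∏ u, (FY u).e (t u) (y u)) • WS C y) =
        Matrix.blockDiagonal' fun d =>
          ∑ y : ∀ u, YY Y u, (∏ u, (FY u).e (t u) (y u)) • (C d).W y :=
      sum_smul_blockDiagonal' (fun y : ∀ u, YY Y u => ∏ u, (FY u).e (t u) (y u))
        (fun y d => (C d).W y)
    rw [e1, hΦ, hΦ', ← Matrix.blockDiagonal'_mul, ← Matrix.blockDiagonal'_mul]
    have e2 : (fun d => Φd d * (∑ y : ∀ u, YY Y u, (∏ u, (FY u).e (t u) (y u)) • (C d).W y) *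
        Φd' d) = fun d => Matrix.diagonal fun a => if lab d a = t then (1 : ℂ) else 0 := by
      funext d
      exact h5 d t
    rw [e2, Matrix.blockDiagonal'_diagonal, hτ]
  refine ⟨Σ d, J d, ∀ u, (FY u).T, inferInstance, Φ, Φ', τ, hΦΦ, ?_, ?_, ?_, ?_⟩
  · rw [hΦ]
    exact BoxProd.blockDiagonal' h3
  · rw [hΦ']
    exact BoxProd.blockDiagonal' h4
  · intro t
    refine types_count C FY (fun t => Nat.card {a // τ a = t}) ?_ t
    intro t
    have e1 : Matrix.trace (∑ y : ∀ u, YY Y u, (∏ u, (FY u).e (t u) (y u)) • WS C y) =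
        ∑ y : ∀ u, YY Y u, (∏ u, (FY u).e (t u) (y u)) * Matrix.trace (WS C y) := by
      rw [Matrix.trace_sum]
      refine Finset.sum_congr rfl fun y _ => ?_
      rw [Matrix.trace_smul, smul_eq_mul]
    rw [← e1]
    have e2 : Matrix.trace (∑ y : ∀ u, YY Y u, (∏ u, (FY u).e (t u) (y u)) • WS C y) =
        Matrix.trace (Φ * (∑ y : ∀ u, YY Y u, (∏ u, (FY u).e (t u) (y u)) • WS C y) * Φ') := by
      rw [Matrix.trace_mul_comm, ← Matrix.mul_assoc, hΦΦ, Matrix.one_mul]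
    rw [e2, hE, Matrix.trace_diagonal, Finset.sum_boole, Nat.card_eq_fintype_card,
      Fintype.card_subtype]
  · intro K hK a a' haa
    have hcomm : ∀ t : ∀ u, (FY u).T,
        K * (∑ y : ∀ u, YY Y u, (∏ u, (FY u).e (t u) (y u)) • WS C y) =
        (∑ y : ∀ u, YY Y u, (∏ u, (FY u).e (t u) (y u)) • WS C y) * K := by
      intro t
      rw [Finset.mul_sum, Finset.sum_mul]
      refine Finset.sum_congr rfl fun y _ => ?_
      rw [Matrix.mul_smul, Matrix.smul_mul, comm_WS C K hK]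
    have key : (Φ * K * Φ') * (Matrix.diagonal fun b => if τ b = τ a then 1 else 0) =
        (Matrix.diagonal fun b => if τ b = τ a then 1 else 0) * (Φ * K * Φ') := by
      rw [← hE (τ a)]
      obtain ⟨E, hEd⟩ : ∃ E, E = ∑ y : ∀ u, YY Y u, (∏ u, (FY u).e (τ a u) (y u)) • WS C y :=
        ⟨_, rfl⟩
      have hc := hcomm (τ a)
      rw [← hEd] at hc ⊢
      calc Φ * K * Φ' * (Φ * E * Φ') = Φ * K * (Φ' * Φ) * E * Φ' := by
            simp only [Matrix.mul_assoc]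
        _ = Φ * (K * E) * Φ' := by rw [hΦΦ, Matrix.mul_one]; simp only [Matrix.mul_assoc]
        _ = Φ * (E * K) * Φ' := by rw [hc]
        _ = Φ * E * (Φ' * Φ) * K * Φ' := by rw [hΦΦ, Matrix.mul_one]; simp only [Matrix.mul_assoc]
        _ = Φ * E * Φ' * (Φ * K * Φ') := by simp only [Matrix.mul_assoc]
    have key' := congrFun (congrFun key a) a'
    rw [Matrix.mul_diagonal, Matrix.diagonal_mul, if_pos rfl, one_mul] at key'
    by_contra hne
    rw [if_neg (fun h => hne h.symm), mul_zero] at key'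
    exact haa key'.symm

end MP0775d3.Sg
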