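import Pool.Agent.Lib.MP_0775d3_lc.SG.WrStab
import Pool.Agent.Lib.MP_0775d3_lc.SG.Pt

/-! Wreath products: intersections of Young subgroups. -/

set_option linter.unusedSectionVars false
set_option linter.unusedVariables false

namespace MP0775d3.Sg

variable {A Ω ι : Type} [Group A] [Finite A] [Finite Ω] [Fintype ι] [DecidableEq ι]

private theorem wp_ext {A Ω : Type} [Group A] {w w' : Wr A Ω} (h1 : ∀ a, w.left a = w'.left a)
    (h2 : ∀ a, w.right a = w'.right a) : w = w' :=
  SemidirectProduct.ext (funext h1) (Equiv.ext h2)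

private theorem wp_conj_left {A Ω : Type} [Group A] (g k : Wr A Ω) (a : Ω) :
    (g⁻¹ * k * g).left a =
      (g.left (g.right a))⁻¹ * k.left (g.right a) * g.left (k.right.symm (g.right a)) := by
  rw [Wr.mul_left_apply, Wr.mul_left_apply, Wr.inv_left_apply]
  rfl

private theorem wp_conj_right {A Ω : Type} [Group A] (g k : Wr A Ω) (a : Ω) :
    (g⁻¹ * k * g).right a = g.right.symm (k.right (g.right a)) := rfl

private theorem wp_finite {A Ω : Type} [Group A] [Finite A] [Finite Ω] : Finite (Wr A Ω) :=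
  Finite.of_equiv _ SemidirectProduct.equivProd.symm

/-- PROOF. `κ = subtype ∘ e` with `e` from `exists_stabEquiv c`. For `g` with permutation part `x` put
`c' a = c (x⁻¹ a)`, `Z i j = Wr A {b : {a // c a = i} // c' b.1 = j}`, `θ i = subtype ∘ e'_i` with `e'_i` from
`exists_stabEquiv` for the colouring `c'` of `{a // c a = i}`. For `z : ∀ i j, Z i j` let
`k z = κ (fun i => θ i (z i))`; it preserves `c` and `c'`, so `g⁻¹ * k z * g` preserves `c` (its permutation part is
`x⁻¹ σ x`); put `θ' j z = (e.symm (g⁻¹ * k (z at (·, j), 1 elsewhere) * g)) j`. It is a homomorphism, injective (at the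
points `x a`, `c a = j`, the element `k z` is trivial if `θ' j z = 1`) and `conj` holds since
`(g⁻¹ * w * g).left a = (g.left (x a))⁻¹ * w.left (x a) * g.left (w.right⁻¹ (x a))` and
`(g⁻¹ * w * g).right a = x⁻¹ (w.right (x a))` depend for `c a = j` only on `w` at the points of `c' = j`. `Full 1`: if
`κ y * g = g * κ y'`, then `κ y` preserves `c'`, so `y i` is in the range of `θ i` for all `i`; `y` determines `y'`
(`κ` injective), so the pairs inject into `∀ i j, Z i j`. -/
theorem wr_pt (c : Ω → ι) : ∃ κ : (∀ i, Wr A {a // c a = i}) →* Wr A Ω,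
    ∀ g, ∃ p : PT (fun i => Wr A {a // c a = i}) κ g, p.Full 1 := by
  classical
  obtain ⟨e, he1, he2, he3, he4⟩ := exists_stabEquiv (A := A) c
  obtain ⟨κ, hκ⟩ : ∃ κ : (∀ i, Wr A {a // c a = i}) →* Wr A Ω, ∀ w, κ w = (e w).1 :=
    ⟨(stab c).subtype.comp e.toMonoidHom, fun w => rfl⟩
  refine ⟨κ, fun g => ?_⟩
  obtain ⟨c', hc'⟩ : ∃ c' : Ω → ι, ∀ a, c' a = c (g.right.symm a) := ⟨_, fun a => rfl⟩
  have hex : ∀ i, ∃ e : (∀ j, Wr A {b : {a // c a = i} // c' b.1 = j}) ≃*
      (stab (fun b : {a // c a = i} => c' b.1) : Subgroup (Wr A {a // c a = i})),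
      (∀ w i a, (w i).left a = (e w).1.left a.1) ∧
      (∀ w i a, ((w i).right a).1 = (e w).1.right a.1) := by
    intro i
    obtain ⟨e', -, -, h3, h4⟩ := exists_stabEquiv (A := A) (fun b : {a // c a = i} => c' b.1)
    exact ⟨e', h3, h4⟩
  choose e' he3' he4' using hex
  obtain ⟨θ, hθ⟩ : ∃ θ : ∀ i, (∀ j, Wr A {b : {a // c a = i} // c' b.1 = j}) →*
      Wr A {a // c a = i}, ∀ i w, θ i w = (e' i w).1 :=
    ⟨fun i => (stab _).subtype.comp (e' i).toMonoidHom, fun i w => rfl⟩
  obtain ⟨kk, hkk⟩ : ∃ kk : (∀ i j, Wr A {b : {a // c a = i} // c' b.1 = j}) →* Wr A Ω,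
      ∀ z, kk z = κ fun i => θ i (z i) :=
    ⟨κ.comp (Pi.monoidHom fun i => (θ i).comp (Pi.evalMonoidHom _ i)), fun z => rfl⟩
  -- the values of `kk`
  have f1 : ∀ z i j (b : {b : {a // c a = i} // c' b.1 = j}),
      (z i j).left b = (kk z).left b.1.1 := by
    intro z i j b
    rw [hkk, hκ, ← he3 (fun i => θ i (z i)) i b.1, hθ]
    exact he3' i (z i) j b
  have f2 : ∀ z i j (b : {b : {a // c a = i} // c' b.1 = j}),
      ((z i j).right b).1.1 = (kk z).right b.1.1 := by
    intro z i j b
    rw [hkk, hκ, ← he4 (fun i => θ i (z i)) i b.1, hθ, ← he4' i (z i) j b]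
  have f3 : ∀ z a, c' ((kk z).right a) = c' a := by
    intro z a
    have h1 := (e' (c a) (z (c a))).2 ⟨a, rfl⟩
    rw [hkk, hκ, ← he4 (fun i => θ i (z i)) (c a) ⟨a, rfl⟩, hθ]
    exact h1
  have f4 : ∀ z, g⁻¹ * kk z * g ∈ stab c := by
    intro z a
    rw [wp_conj_right]
    have h1 := f3 z (g.right a)
    rw [hc', hc', Equiv.symm_apply_apply] at h1
    exact h1
  obtain ⟨Θ, hΘ⟩ : ∃ Θ : (∀ i j, Wr A {b : {a // c a = i} // c' b.1 = j}) →*
      ∀ i, Wr A {a // c a = i}, ∀ z, (e (Θ z)).1 = g⁻¹ * kk z * g := by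
    refine ⟨MonoidHom.mk' (fun z => e.symm ⟨g⁻¹ * kk z * g, f4 z⟩) fun z z' => ?_, fun z => ?_⟩
    · rw [← map_mul]
      congr 1
      apply Subtype.ext
      change g⁻¹ * kk (z * z') * g = g⁻¹ * kk z * g * (g⁻¹ * kk z' * g)
      rw [map_mul]
      group
    · change (e (e.symm ⟨g⁻¹ * kk z * g, f4 z⟩)).1 = _
      rw [MulEquiv.apply_symm_apply]
  -- the values of `Θ`
  have t1 : ∀ z j (a : {a // c a = j}), (Θ z j).left a = (g.left (g.right a.1))⁻¹ *
      (kk z).left (g.right a.1) * g.left ((kk z).right.symm (g.right a.1)) := by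
    intro z j a
    rw [he3 (Θ z) j a, hΘ, wp_conj_left]
  have t2 : ∀ z j (a : {a // c a = j}), ((Θ z j).right a).1 =
      g.right.symm ((kk z).right (g.right a.1)) := by
    intro z j a
    rw [he4 (Θ z) j a, hΘ, wp_conj_right]
  have hcx : ∀ a, c' (g.right a) = c a := by
    intro a
    rw [hc', Equiv.symm_apply_apply]
  have key1 : ∀ z j, (∀ i, z i j = 1) → Θ z j = 1 := by
    intro z j hz
    have k1 : ∀ b, c' b = j → (kk z).left b = 1 := by
      intro b hb
      have h1 := f1 z (c b) j ⟨⟨b, rfl⟩, hb⟩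
      rw [hz] at h1
      exact h1.symm
    have k2 : ∀ b, c' b = j → (kk z).right b = b := by
      intro b hb
      have h1 := f2 z (c b) j ⟨⟨b, rfl⟩, hb⟩
      rw [hz] at h1
      exact h1.symm
    apply wp_ext
    · intro a
      have hb : c' (g.right a.1) = j := (hcx _).trans a.2
      have h1 : (kk z).right.symm (g.right a.1) = g.right a.1 := by
        rw [Equiv.symm_apply_eq]
        exact (k2 _ hb).symm
      rw [t1, k1 _ hb, h1]
      change _ = (1 : A)
      group
    · intro a
      have hb : c' (g.right a.1) = j := (hcx _).trans a.2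
      apply Subtype.ext
      rw [t2, k2 _ hb, Equiv.symm_apply_apply]
      rfl
  have key2 : ∀ z j, Θ z j = Θ (fun i => Pi.mulSingle j (z i j)) j := by
    intro z j
    have h1 : z = (fun i => Pi.mulSingle j (z i j)) *
        fun i => (Pi.mulSingle j (z i j))⁻¹ * z i := by
      funext i
      rw [Pi.mul_apply, mul_inv_cancel_left]
    have h2 : Θ (fun i => (Pi.mulSingle j (z i j))⁻¹ * z i) j = 1 := by
      apply key1
      intro i
      change (Pi.mulSingle j (z i j) : ∀ j, Wr A {b : {a // c a = i} // c' b.1 = j})⁻¹ j *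
        z i j = 1
      rw [Pi.inv_apply, Pi.mulSingle_eq_same, inv_mul_cancel]
    calc Θ z j = Θ ((fun i => Pi.mulSingle j (z i j)) *
        fun i => (Pi.mulSingle j (z i j))⁻¹ * z i) j := by rw [← h1]
      _ = _ := by rw [map_mul, Pi.mul_apply, h2, mul_one]
  obtain ⟨θ', hθ'⟩ : ∃ θ' : ∀ j, (∀ i, Wr A {b : {a // c a = i} // c' b.1 = j}) →*
      Wr A {a // c a = j}, ∀ j ζ, θ' j ζ = Θ (fun i => Pi.mulSingle j (ζ i)) j := by
    refine ⟨fun j => MonoidHom.mk' (fun ζ => Θ (fun i => Pi.mulSingle j (ζ i)) j) fun ζ ζ' => ?_,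
      fun j ζ => rfl⟩
    have h1 : (fun i => (Pi.mulSingle j ((ζ * ζ') i) :
        ∀ j, Wr A {b : {a // c a = i} // c' b.1 = j})) =
        (fun i => Pi.mulSingle j (ζ i)) * fun i => Pi.mulSingle j (ζ' i) := by
      funext i
      rw [Pi.mul_apply, Pi.mul_apply, Pi.mulSingle_mul]
    change Θ (fun i => Pi.mulSingle j ((ζ * ζ') i)) j = _
    rw [h1, map_mul, Pi.mul_apply]
  refine ⟨{ Z := fun i j => Wr A {b : {a // c a = i} // c' b.1 = j}
            fZ := fun i j => wp_finite
            θ := θ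
            θ' := θ'
            inj := ?_
            inj' := ?_
            conj := ?_ }, ?_⟩
  · intro i w w' h
    rw [hθ, hθ] at h
    exact (e' i).injective (Subtype.ext h)
  · intro j
    rw [injective_iff_map_eq_one]
    intro ζ hζ
    rw [hθ'] at hζ
    obtain ⟨z, hz⟩ : ∃ z : ∀ i j, Wr A {b : {a // c a = i} // c' b.1 = j},
      z = fun i => Pi.mulSingle j (ζ i) := ⟨_, rfl⟩
    rw [← hz] at hζ
    have hz1 : ∀ i, z i j = ζ i := by
      intro i
      rw [hz]
      change (Pi.mulSingle j (ζ i) : ∀ j, Wr A {b : {a // c a = i} // c' b.1 = j}) j = ζ i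
      rw [Pi.mulSingle_eq_same]
    have k2 : ∀ b, c' b = j → (kk z).right b = b := by
      intro b hb
      have hb' : c (g.right.symm b) = j := by rw [← hc', hb]
      have h1 := t2 z j ⟨g.right.symm b, hb'⟩
      rw [hζ] at h1
      simp only [Equiv.apply_symm_apply] at h1
      have h2 : g.right.symm b = g.right.symm ((kk z).right b) := h1
      exact (g.right.symm.injective h2).symm
    have k1 : ∀ b, c' b = j → (kk z).left b = 1 := by
      intro b hb
      have hb' : c (g.right.symm b) = j := by rw [← hc', hb]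
      have h1 := t1 z j ⟨g.right.symm b, hb'⟩
      rw [hζ] at h1
      simp only [Equiv.apply_symm_apply] at h1
      have h3 : (kk z).right.symm b = b := by
        rw [Equiv.symm_apply_eq]
        exact (k2 _ hb).symm
      rw [h3] at h1
      have h4 : (1 : A) = (g.left b)⁻¹ * (kk z).left b * g.left b := h1
      have h5 := congrArg (fun y => g.left b * y * (g.left b)⁻¹) h4
      have h6 : g.left b * ((g.left b)⁻¹ * (kk z).left b * g.left b) * (g.left b)⁻¹ =
        (kk z).left b := by group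
      rw [h6, mul_one, mul_inv_cancel] at h5
      exact h5.symm
    funext i
    apply wp_ext
    · intro b
      rw [← hz1, f1 z i j b, k1 _ b.2]
      rfl
    · intro b
      apply Subtype.ext
      apply Subtype.ext
      rw [← hz1, f2 z i j b, k2 _ b.2]
      rfl
  · intro z
    have h1 : (fun j => θ' j fun i => z i j) = Θ z := by
      funext j
      rw [hθ', ← key2]
    rw [h1, hκ (Θ z), hΘ, hkk]
    group
  · unfold PT.Full
    rw [one_mul]
    have hin : ∀ q : {q : (∀ i, Wr A {a // c a = i}) × (∀ i, Wr A {a // c a = i}) //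
        κ q.1 * g = g * κ q.2}, ∀ i, q.1.1 i ∈ stab (fun b : {a // c a = i} => c' b.1) := by
      rintro ⟨⟨y, y'⟩, hq⟩ i b
      have h1 : κ y' = g⁻¹ * κ y * g := by
        have h2 : κ y * g = g * κ y' := hq
        rw [mul_assoc, h2]
        group
      have h2 : κ y' ∈ stab c := by
        rw [hκ]
        exact (e y').2
      have h3 := h2 (g.right.symm b.1)
      rw [h1, wp_conj_right, ← hc', ← hc', Equiv.apply_symm_apply] at h3
      change c' ((y i).right b).1 = c' b.1
      rw [he4 y i b, ← hκ]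
      exact h3
    have hfin : ∀ i j, Finite (Wr A {b : {a // c a = i} // c' b.1 = j}) := fun i j => wp_finite
    let f : {q : (∀ i, Wr A {a // c a = i}) × (∀ i, Wr A {a // c a = i}) //
        κ q.1 * g = g * κ q.2} → ∀ i j, Wr A {b : {a // c a = i} // c' b.1 = j} :=
      fun q i => (e' i).symm ⟨q.1.1 i, hin q i⟩
    have hf : Function.Injective f := by
      intro q q' h
      have h1 : q.1.1 = q'.1.1 := by
        funext i
        have h2 := (e' i).symm.injective (congrFun h i)
        exact congrArg Subtype.val h2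
      have h3 : κ q.1.2 = κ q'.1.2 := by
        have h4 := q.2
        have h5 := q'.2
        rw [h1, h5] at h4
        exact (mul_left_cancel h4).symm
      have h6 : q.1.2 = q'.1.2 := by
        rw [hκ, hκ] at h3
        exact e.injective (Subtype.ext h3)
      exact Subtype.ext (Prod.ext h1 h6)
    refine (Nat.card_le_card_of_injective f hf).trans (le_of_eq ?_)
    rw [Nat.card_pi]
    exact Finset.prod_congr rfl fun i _ => Nat.card_pi

end MP0775d3.Sg
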