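import Pool.Agent.Lib.MP_0775d3_lc.SG.Wr

/-! Wreath products: the subgroup preserving a colouring. -/

set_option linter.unusedSectionVars false
set_option linter.unusedVariables false

namespace MP0775d3.Sg

variable {A Ω : Type} [Group A]

theorem Wr.card [Finite A] [Finite Ω] :
    Nat.card (Wr A Ω) = Nat.card A ^ Nat.card Ω * (Nat.card Ω).factorial := by
  rw [Nat.card_congr SemidirectProduct.equivProd, Nat.card_prod, Nat.card_fun, Nat.card_perm]

theorem Wr.mul_left_apply (w w' : Wr A Ω) (a : Ω) :
    (w * w').left a = w.left a * w'.left (w.right.symm a) := rfl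

theorem Wr.inv_left_apply (w : Wr A Ω) (a : Ω) : (w⁻¹).left a = (w.left (w.right a))⁻¹ := rfl

/-- The elements whose permutation preserves the colouring `c`. -/
def stab {ι : Type} (c : Ω → ι) : Subgroup (Wr A Ω) where
  carrier := {w | ∀ a, c (w.right a) = c a}
  mul_mem' := by
    intro w w' h h' a
    rw [SemidirectProduct.mul_right, Equiv.Perm.mul_apply, h, h']
  one_mem' := fun a => rfl
  inv_mem' := by
    intro w h a
    have h1 := h (w.right.symm a)
    rw [Equiv.apply_symm_apply] at h1
    exact h1.symm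

/-- The permutation which acts on the class `i` by `w i`. -/
private def ws_perm {ι : Type} (c : Ω → ι) (w : ∀ i, Equiv.Perm {a // c a = i}) :
    Equiv.Perm Ω where
  toFun a := ((w (c a)) ⟨a, rfl⟩).1
  invFun a := ((w (c a)).symm ⟨a, rfl⟩).1
  left_inv a := by
    have key : ∀ i (x : {a // c a = i}), ((w (c x.1)).symm ⟨x.1, rfl⟩).1 = ((w i).symm x).1 := by
      rintro i ⟨x, rfl⟩
      rfl
    exact (key _ (w (c a) ⟨a, rfl⟩)).trans (by rw [Equiv.symm_apply_apply])
  right_inv a := by
    have key : ∀ i (x : {a // c a = i}), ((w (c x.1)) ⟨x.1, rfl⟩).1 = ((w i) x).1 := by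
      rintro i ⟨x, rfl⟩
      rfl
    exact (key _ ((w (c a)).symm ⟨a, rfl⟩)).trans (by rw [Equiv.apply_symm_apply])

private theorem ws_perm_apply {ι : Type} (c : Ω → ι) (w : ∀ i, Equiv.Perm {a // c a = i}) (i : ι)
    (x : {a // c a = i}) : ws_perm c w x.1 = (w i x).1 := by
  obtain ⟨x, rfl⟩ := x
  rfl

private theorem ws_perm_symm {ι : Type} (c : Ω → ι) (w : ∀ i, Equiv.Perm {a // c a = i}) (i : ι)
    (x : {a // c a = i}) : (ws_perm c w).symm x.1 = ((w i).symm x).1 := by
  obtain ⟨x, rfl⟩ := x
  rfl

private theorem ws_left {ι : Type} (c : Ω → ι) (w : ∀ i, Wr A {a // c a = i}) (i : ι)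
    (x : {a // c a = i}) : (w (c x.1)).left ⟨x.1, rfl⟩ = (w i).left x := by
  obtain ⟨x, rfl⟩ := x
  rfl

/-- PROOF. The permutation part is the permutation which acts on the class of `a` by `(w (c a)).right`. -/
theorem exists_stabEquiv {ι : Type} (c : Ω → ι) :
    ∃ e : (∀ i, Wr A {a // c a = i}) ≃* (stab c : Subgroup (Wr A Ω)),
      (∀ w a, (e w).1.left a = (w (c a)).left ⟨a, rfl⟩) ∧
      (∀ w a, (e w).1.right a = ((w (c a)).right ⟨a, rfl⟩).1) ∧
      (∀ w i a, (w i).left a = (e w).1.left a.1) ∧
      (∀ w i a, ((w i).right a).1 = (e w).1.right a.1) := by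
  have hst : ∀ (u : (stab c : Subgroup (Wr A Ω))) (i : ι) (a : Ω),
      c (u.1.right a) = i ↔ c a = i := fun u i a => by rw [u.2 a]
  let e : (∀ i, Wr A {a // c a = i}) ≃* (stab c : Subgroup (Wr A Ω)) :=
    { toFun := fun w => ⟨⟨fun a => (w (c a)).left ⟨a, rfl⟩, ws_perm c fun i => (w i).right⟩,
        fun a => ((w (c a)).right ⟨a, rfl⟩).2⟩
      invFun := fun u i => ⟨fun x => u.1.left x.1, u.1.right.subtypePerm (hst u i)⟩
      left_inv := fun w => by
        funext i
        refine SemidirectProduct.ext ?_ ?_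
        · funext x
          exact ws_left c w i x
        · refine Equiv.ext fun x => Subtype.ext ?_
          exact ws_perm_apply c (fun i => (w i).right) i x
      right_inv := fun u => by
        refine Subtype.ext (SemidirectProduct.ext ?_ ?_)
        · funext a
          rfl
        · refine Equiv.ext fun a => ?_
          rfl
      map_mul' := fun w w' => by
        refine Subtype.ext (SemidirectProduct.ext ?_ ?_)
        · funext a
          change (w (c a)).left ⟨a, rfl⟩ * (w' (c a)).left ((w (c a)).right.symm ⟨a, rfl⟩) =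
            (w (c a)).left ⟨a, rfl⟩ * (w' (c ((ws_perm c fun i => (w i).right).symm a))).left
              ⟨(ws_perm c fun i => (w i).right).symm a, rfl⟩
          exact congrArg _ (ws_left c w' _ ((w (c a)).right.symm ⟨a, rfl⟩)).symm
        · refine Equiv.ext fun a => ?_
          exact (ws_perm_apply c (fun i => (w i).right) _ ((w' (c a)).right ⟨a, rfl⟩)).symm }
  refine ⟨e, fun w a => rfl, fun w a => rfl, fun w i a => ?_, fun w i a => ?_⟩
  · exact (ws_left c w i a).symm
  · exact (ws_perm_apply c (fun i => (w i).right) i a).symm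

end MP0775d3.Sg
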