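import Pool.Agent.Lib.MP_0775d3_lc.SG.WrPt
import Pool.Agent.Lib.MP_0775d3_lc.SG.Section
import Pool.Agent.Lib.MP_0775d3_lc.SG.Colour

/-! Invariant kernels on sections of wreath products. -/

set_option linter.unusedSectionVars false
set_option linter.unusedVariables false

namespace MP0775d3.Sg

/-- PROOF. `section_types` for `Y i = Wr A {a // c a = i}`, `c` from `exists_colour`, `κ` from `wr_pt`, `Wr.card`;
`card U ≤ card A ^ m * m !`, `∏ i, card (Y i) = card A ^ m * ∏ i, (card of the class) !`. -/
theorem wr_types {A T : Type} [Group A] [Finite A] [Group T] (m r : ℕ) (hr : 0 < r)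
    (U : Subgroup (Wr A (Fin m))) (φ : U →* T) (hφ : Function.Surjective φ) :
    TypeData T (U.index ^ (r * r) * Nat.card U) (U.index ^ (r * r + r) * r ^ m)
      (Nat.card A ^ (m / r + 1) * (m / r + 1).factorial) (r * r + 2 * r) := by
  have fG : Finite (Wr A (Fin m)) := Finite.of_equiv _ SemidirectProduct.equivProd.symm
  obtain ⟨c, hc⟩ := exists_colour m r hr
  obtain ⟨κ, hκ⟩ := wr_pt (A := A) c
  have fY : ∀ i, Finite (Wr A {a // c a = i}) :=
    fun i => Finite.of_equiv _ SemidirectProduct.equivProd.symm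
  have hA : 1 ≤ Nat.card A := Nat.card_pos
  have hY : ∀ i, Nat.card (Wr A {a // c a = i}) =
      Nat.card A ^ Nat.card {a // c a = i} * (Nat.card {a // c a = i}).factorial :=
    fun i => Wr.card
  have hb : ∀ i, Nat.card (Wr A {a // c a = i}) ≤
      Nat.card A ^ (m / r + 1) * (m / r + 1).factorial := by
    intro i
    rw [hY]
    exact Nat.mul_le_mul (Nat.pow_le_pow_right hA (hc i)) (Nat.factorial_le (hc i))
  have hsum : ∑ i, Nat.card {a // c a = i} = m := by
    have h1 : Nat.card (Fin m) = ∑ i, Nat.card {a // c a = i} := by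
      rw [← Nat.card_sigma]
      exact Nat.card_congr (Equiv.sigmaFiberEquiv c).symm
    rw [← h1, Nat.card_eq_fintype_card (α := Fin m), Fintype.card_fin]
  have hprod : ∏ i, Nat.card (Wr A {a // c a = i}) =
      Nat.card A ^ m * ∏ i, (Nat.card {a // c a = i}).factorial := by
    rw [Finset.prod_congr rfl fun i _ => hY i, Finset.prod_mul_distrib,
      Finset.prod_pow_eq_pow_sum, hsum]
  have hU : Nat.card U ≤ r ^ m * ∏ i, Nat.card (Wr A {a // c a = i}) := by
    calc Nat.card U ≤ Nat.card (Wr A (Fin m)) := Subgroup.card_le_card_group U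
      _ = Nat.card A ^ m * m.factorial := by
          rw [Wr.card, Nat.card_eq_fintype_card (α := Fin m), Fintype.card_fin]
      _ ≤ Nat.card A ^ m * (r ^ m * ∏ i, (Nat.card {a // c a = i}).factorial) :=
          Nat.mul_le_mul_left _ (factorial_le m r c)
      _ = r ^ m * ∏ i, Nat.card (Wr A {a // c a = i}) := by
          rw [hprod]
          ring
  have h := section_types κ hκ (Nat.card A ^ (m / r + 1) * (m / r + 1).factorial)
    (U.index ^ (r * r + r) * r ^ m) hb U φ hφ (by
      rw [Fintype.card_fin, mul_assoc]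
      exact Nat.mul_le_mul_left _ hU)
  rw [Fintype.card_fin] at h
  exact h

end MP0775d3.Sg
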